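import Mathlib

set_option autoImplicit false

/-!
# Module Uad: the unordered four functions inequality

Let `M = B ⊼ C` (meets, `Finset.infs`), `J = B ⊻ C` (joins). `M` and `J` are DISJOINT: if
`b ⊓ c = b' ⊔ c'` then `b' ≤ c`, so `b' ⊓ c = b' ∈ B`, but `h b' c` says `b' ⊓ c ∈ A` or `∈ D`, contradiction to `hB`.
Let `r = ∑ M ∩ A`, `s = ∑ M ∩ D`, `p = ∑ J ∩ D`, `q = ∑ J ∩ A` (sums of `μ`). For `lam > 0` apply
`four_functions_theorem` (Mathlib.Combinatorics.SetFamily.FourFunctions) with `f₁ = μ` on `B`, `f₂ = μ` on `C` (zero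
elsewhere, `Set.indicator` or `ite`), `f₃ z = (if z ∈ A then lam else 1) * μ z` and
`f₄ z = (if z ∈ D then lam⁻¹ else 1) * μ z`: for `b ∈ B`, `c ∈ C` either `b ⊓ c ∈ A`, `b ⊔ c ∈ D`
(factor `lam lam⁻¹ = 1`) or `b ⊓ c ∈ D`, `b ⊔ c ∈ A` (then `b ⊓ c ∉ A`, `b ⊔ c ∉ D` as `A`, `D` are disjoint, factor `1`). Every
element of `M` and of `J` lies in `A` or `D`, so `(∑ B)(∑ C) ≤ (lam r + s)(p / lam + q) = r p + s q + lam r q + s p / lam`.
For `ε > 0` take `lam = (s + ε) / (q + ε)`: `lam r q ≤ r (s + ε)`, `s p / lam ≤ p (q + ε)`. So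
`(∑ B)(∑ C) ≤ (r + q)(p + s) + ε (r + p)` for all `ε > 0`, hence `≤ (r + q)(p + s)`, and `r + q ≤ ∑ A`,
`p + s ≤ ∑ D` because `M` and `J` are disjoint.
-/

namespace Pool.Agent.H59.ST

private theorem Uad_sum_le {r s p q L : ℝ} (hr : 0 ≤ r) (hs : 0 ≤ s) (hp : 0 ≤ p) (hq : 0 ≤ q)
    (h : ∀ lam : ℝ, 0 < lam → L ≤ (lam * r + s) * (lam⁻¹ * p + q)) :
    L ≤ (r + q) * (p + s) := by
  refine le_of_forall_pos_le_add fun e he => ?_
  obtain ⟨ε, hε, hεe⟩ : ∃ ε : ℝ, 0 < ε ∧ ε * (r + p) ≤ e := by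
    refine ⟨e / (r + p + 1), by positivity, ?_⟩
    have h1 : 0 < r + p + 1 := by positivity
    rw [div_mul_eq_mul_div, div_le_iff₀ h1]
    nlinarith
  have hsε : 0 < s + ε := by positivity
  have hqε : 0 < q + ε := by positivity
  have h1 := h ((s + ε) / (q + ε)) (div_pos hsε hqε)
  have h2 : (s + ε) / (q + ε) * r * q ≤ r * (s + ε) := by
    have : (s + ε) / (q + ε) * r * q = r * (s + ε) * (q / (q + ε)) := by ring
    rw [this]
    have h3 : q / (q + ε) ≤ 1 := by
      rw [div_le_one hqε]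
      linarith
    have h4 : 0 ≤ r * (s + ε) := by positivity
    nlinarith
  have h3 : s * (((s + ε) / (q + ε))⁻¹ * p) ≤ p * (q + ε) := by
    have : s * (((s + ε) / (q + ε))⁻¹ * p) = p * (q + ε) * (s / (s + ε)) := by
      rw [inv_div]
      ring
    rw [this]
    have h3 : s / (s + ε) ≤ 1 := by
      rw [div_le_one hsε]
      linarith
    have h4 : 0 ≤ p * (q + ε) := by positivity
    nlinarith
  have h4 : (s + ε) / (q + ε) * r * (((s + ε) / (q + ε))⁻¹ * p) = r * p := by
    have : (s + ε) / (q + ε) ≠ 0 := (div_pos hsε hqε).ne'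
    field_simp
  nlinarith

section UadMain

open scoped FinsetFamily

private theorem Uad_main {α : Type} [DistribLattice α] [DecidableEq α] (μ : α → ℝ) (h0 : ∀ a, 0 ≤ μ a)
    (hμ : ∀ a b, μ a * μ b ≤ μ (a ⊓ b) * μ (a ⊔ b)) (A B C D : Finset α) (hAD : Disjoint A D)
    (hBA : Disjoint B A) (hBD : Disjoint B D)
    (h : ∀ b ∈ B, ∀ c ∈ C, (b ⊓ c ∈ A ∧ b ⊔ c ∈ D) ∨ (b ⊓ c ∈ D ∧ b ⊔ c ∈ A)) :
    (∑ b ∈ B, μ b) * ∑ c ∈ C, μ c ≤ (∑ a ∈ A, μ a) * ∑ d ∈ D, μ d := by
  set M := B ⊼ C with hM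
  set J := B ⊻ C with hJ
  have hMJ : Disjoint M J := by
    rw [Finset.disjoint_left]
    intro z hz hz'
    rw [hM, Finset.mem_infs] at hz
    rw [hJ, Finset.mem_sups] at hz'
    obtain ⟨b, hb, c, hc, rfl⟩ := hz
    obtain ⟨b', hb', c', hc', e⟩ := hz'
    have h1 : b' ≤ c := le_sup_left.trans (e.le.trans inf_le_right)
    have h2 : b' ⊓ c = b' := inf_eq_left.2 h1
    rcases h b' hb' c hc with h3 | h3
    · rw [h2] at h3
      exact Finset.disjoint_left.1 hBA hb' h3.1
    · rw [h2] at h3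
      exact Finset.disjoint_left.1 hBD hb' h3.1
  have hMAD : ∀ z ∈ M, z ∈ A ∨ z ∈ D := by
    intro z hz
    rw [hM, Finset.mem_infs] at hz
    obtain ⟨b, hb, c, hc, rfl⟩ := hz
    rcases h b hb c hc with h3 | h3
    · exact Or.inl h3.1
    · exact Or.inr h3.1
  have hJAD : ∀ z ∈ J, z ∈ A ∨ z ∈ D := by
    intro z hz
    rw [hJ, Finset.mem_sups] at hz
    obtain ⟨b, hb, c, hc, rfl⟩ := hz
    rcases h b hb c hc with h3 | h3
    · exact Or.inr h3.2
    · exact Or.inl h3.2
  have h0' : ∀ S : Finset α, 0 ≤ ∑ z ∈ S, μ z := fun S => Finset.sum_nonneg fun z _ => h0 z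
  have key := Uad_sum_le (L := (∑ b ∈ B, μ b) * ∑ c ∈ C, μ c)
    (h0' (M.filter (· ∈ A))) (h0' (M.filter (· ∉ A)))
    (h0' (J.filter (· ∈ D))) (h0' (J.filter (· ∉ D))) (fun lam hlam => by
      have hi : 0 < lam⁻¹ := inv_pos.2 hlam
      have h4 := four_functions_theorem (fun z => if z ∈ B then μ z else 0)
        (fun z => if z ∈ C then μ z else 0)
        (fun z => (if z ∈ A then lam else 1) * μ z)
        (fun z => (if z ∈ D then lam⁻¹ else 1) * μ z)
        (fun z => by
          simp only [Pi.zero_apply]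
          split_ifs
          · exact h0 z
          · exact le_rfl)
        (fun z => by
          simp only [Pi.zero_apply]
          split_ifs
          · exact h0 z
          · exact le_rfl)
        (fun z => by
          simp only [Pi.zero_apply]
          split_ifs
          · exact mul_nonneg hlam.le (h0 z)
          · exact mul_nonneg zero_le_one (h0 z))
        (fun z => by
          simp only [Pi.zero_apply]
          split_ifs
          · exact mul_nonneg hi.le (h0 z)
          · exact mul_nonneg zero_le_one (h0 z))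
        (fun b c => by
          have hnn : 0 ≤ ((if b ⊓ c ∈ A then lam else 1) * μ (b ⊓ c)) *
              ((if b ⊔ c ∈ D then lam⁻¹ else 1) * μ (b ⊔ c)) := by
            refine mul_nonneg (mul_nonneg ?_ (h0 _)) (mul_nonneg ?_ (h0 _))
            · split_ifs
              · exact hlam.le
              · exact zero_le_one
            · split_ifs
              · exact hi.le
              · exact zero_le_one
          by_cases hb : b ∈ B
          · by_cases hc : c ∈ C
            · simp only [hb, hc, if_true]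
              rcases h b hb c hc with h3 | h3
              · simp only [h3.1, h3.2, if_true]
                have : lam * μ (b ⊓ c) * (lam⁻¹ * μ (b ⊔ c)) = μ (b ⊓ c) * μ (b ⊔ c) := by
                  have := hlam.ne'
                  field_simp
                rw [this]
                exact hμ b c
              · have h5 : b ⊓ c ∉ A := fun h6 => Finset.disjoint_left.1 hAD h6 h3.1
                have h6 : b ⊔ c ∉ D := fun h7 => Finset.disjoint_left.1 hAD h3.2 h7
                simp only [h5, h6, if_false, one_mul]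
                exact hμ b c
            · simp only [hc, if_false, mul_zero]
              exact hnn
          · simp only [hb, if_false, zero_mul]
            exact hnn) B C
      have e1 : (∑ a ∈ B, if a ∈ B then μ a else 0) = ∑ b ∈ B, μ b :=
        Finset.sum_congr rfl fun z hz => if_pos hz
      have e2 : (∑ a ∈ C, if a ∈ C then μ a else 0) = ∑ b ∈ C, μ b :=
        Finset.sum_congr rfl fun z hz => if_pos hz
      have e3 : (∑ a ∈ M, (if a ∈ A then lam else 1) * μ a) =
          lam * (∑ z ∈ M.filter (· ∈ A), μ z) + ∑ z ∈ M.filter (· ∉ A), μ z := by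
        rw [← Finset.sum_filter_add_sum_filter_not M (· ∈ A), Finset.mul_sum]
        congr 1
        · exact Finset.sum_congr rfl fun z hz => by rw [if_pos (Finset.mem_filter.1 hz).2]
        · exact Finset.sum_congr rfl fun z hz => by
            rw [if_neg (Finset.mem_filter.1 hz).2, one_mul]
      have e4 : (∑ a ∈ J, (if a ∈ D then lam⁻¹ else 1) * μ a) =
          lam⁻¹ * (∑ z ∈ J.filter (· ∈ D), μ z) + ∑ z ∈ J.filter (· ∉ D), μ z := by
        rw [← Finset.sum_filter_add_sum_filter_not J (· ∈ D), Finset.mul_sum]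
        congr 1
        · exact Finset.sum_congr rfl fun z hz => by rw [if_pos (Finset.mem_filter.1 hz).2]
        · exact Finset.sum_congr rfl fun z hz => by
            rw [if_neg (Finset.mem_filter.1 hz).2, one_mul]
      rw [← e1, ← e2, ← e3, ← e4]
      exact h4)
  refine key.trans (mul_le_mul ?_ ?_ (add_nonneg (h0' _) (h0' _)) (h0' _))
  · rw [← Finset.sum_union (Finset.disjoint_of_subset_left (Finset.filter_subset _ _)
      (Finset.disjoint_of_subset_right (Finset.filter_subset _ _) hMJ))]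
    refine Finset.sum_le_sum_of_subset_of_nonneg ?_ fun z _ _ => h0 z
    intro z hz
    rcases Finset.mem_union.1 hz with hz | hz
    · exact (Finset.mem_filter.1 hz).2
    · exact (hJAD z (Finset.mem_filter.1 hz).1).resolve_right (Finset.mem_filter.1 hz).2
  · rw [← Finset.sum_union (Finset.disjoint_of_subset_left (Finset.filter_subset _ _)
      (Finset.disjoint_of_subset_right (Finset.filter_subset _ _) hMJ.symm))]
    refine Finset.sum_le_sum_of_subset_of_nonneg ?_ fun z _ _ => h0 z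
    intro z hz
    rcases Finset.mem_union.1 hz with hz | hz
    · exact (Finset.mem_filter.1 hz).2
    · exact (hMAD z (Finset.mem_filter.1 hz).1).resolve_left (Finset.mem_filter.1 hz).2

end UadMain

theorem uad {α : Type} [DistribLattice α] [DecidableEq α] (μ : α → ℝ) (h0 : ∀ a, 0 ≤ μ a)
    (hμ : ∀ a b, μ a * μ b ≤ μ (a ⊓ b) * μ (a ⊔ b)) (A B C D : Finset α) (hAD : Disjoint A D)
    (hBA : Disjoint B A) (hBD : Disjoint B D)
    (h : ∀ b ∈ B, ∀ c ∈ C, (b ⊓ c ∈ A ∧ b ⊔ c ∈ D) ∨ (b ⊓ c ∈ D ∧ b ⊔ c ∈ A)) :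
    (∑ b ∈ B, μ b) * ∑ c ∈ C, μ c ≤ (∑ a ∈ A, μ a) * ∑ d ∈ D, μ d :=
  Uad_main μ h0 hμ A B C D hAD hBA hBD h

theorem uad_card {α : Type} [DistribLattice α] [DecidableEq α] (F A B C D : Finset α)
    (hF : ∀ a ∈ F, ∀ b ∈ F, a ⊓ b ∈ F ∧ a ⊔ b ∈ F) (hB : B ⊆ F) (hC : C ⊆ F)
    (hAD : Disjoint A D) (hBA : Disjoint B A) (hBD : Disjoint B D)
    (h : ∀ b ∈ B, ∀ c ∈ C, (b ⊓ c ∈ A ∧ b ⊔ c ∈ D) ∨ (b ⊓ c ∈ D ∧ b ⊔ c ∈ A)) :
    B.card * C.card ≤ A.card * D.card := by
  have h1 := uad (fun z => if z ∈ F then (1 : ℝ) else 0)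
    (fun z => by
      split_ifs
      · exact zero_le_one
      · exact le_rfl)
    (fun a b => by
      by_cases ha : a ∈ F
      · by_cases hb : b ∈ F
        · simp [ha, hb, (hF a ha b hb).1, (hF a ha b hb).2]
        · simp only [hb, if_false, mul_zero]
          positivity
      · simp only [ha, if_false, zero_mul]
        positivity) A B C D hAD hBA hBD h
  have e1 : (∑ z ∈ B, if z ∈ F then (1 : ℝ) else 0) = B.card := by
    rw [Finset.sum_congr rfl fun z hz => if_pos (hB hz)]
    simp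
  have e2 : (∑ z ∈ C, if z ∈ F then (1 : ℝ) else 0) = C.card := by
    rw [Finset.sum_congr rfl fun z hz => if_pos (hC hz)]
    simp
  have e3 : ∀ S : Finset α, (∑ z ∈ S, if z ∈ F then (1 : ℝ) else 0) ≤ S.card := by
    intro S
    calc (∑ z ∈ S, if z ∈ F then (1 : ℝ) else 0) ≤ ∑ z ∈ S, (1 : ℝ) :=
          Finset.sum_le_sum fun z _ => by
            split_ifs
            · exact le_rfl
            · exact zero_le_one
      _ = S.card := by simp
  have e4 : (0 : ℝ) ≤ ∑ z ∈ D, if z ∈ F then (1 : ℝ) else 0 :=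
    Finset.sum_nonneg fun z _ => by
      split_ifs
      · exact zero_le_one
      · exact le_rfl
  rw [e1, e2] at h1
  have h2 : ((B.card * C.card : ℕ) : ℝ) ≤ ((A.card * D.card : ℕ) : ℝ) := by
    push_cast
    exact h1.trans (mul_le_mul (e3 A) (e3 D) e4 (Nat.cast_nonneg _))
  exact_mod_cast h2

end Pool.Agent.H59.ST
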