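import Pool.Agent.H59.ST.Defs
import Pool.Agent.H59.ST.Uad
import Pool.Agent.H45.Corr.Double

set_option autoImplicit false

/-!
# Module Anc: the anchored exchange theorem (sufficient condition)

Let `X` be a finite poset, `ι : T ↪ X`; use `pr_of_product`. Let `x₁ = ι x`, `ε : T → ℕ` injective with values
`< K`, `K > 0` (`T` is finite; `K` its cardinality plus one, `exists_rank` or `Finite.equivFin`). For `f : Option X → ℤ` let
`t f : T → ℤ`, `t f s = K * f (some (ι s)) + ε s`: it is injective, and for `f`, `g` with values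
`f (some x₁) = g (some x₁)` also `t f x = t g x`; `t (f ⊓ g) = t f ⊓ t g`, `t (f ⊔ g) = t f ⊔ t g` (pointwise lattice on
`Option X → ℤ`; `min (K a + e) (K b + e) = K min a b + e`). For a set `W` of orderings of `T` let `PW W` be the property
of a relation `r` on `X`: `∃ L ∈ W, L.1 = fun s t => r (ι s) (ι t) ∨ (¬ r (ι t) (ι s) ∧ ε s < ε t)`; for
`r a b = f (some a) < f (some b)` this relation is the ordering of `t f`. Let
`F = {f ∈ EN X N | f (some x₁) = 0}` (finite, closed under `⊓`, `⊔`) and for `W` the set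
`F W = {f ∈ F | PW W (fun a b => f (some a) < f (some b))}`. By `labellings_ncard` its cardinality is
`(mon X (N + 1) (PW W)).ncard`. `uad_card` with `A = F (U ∩ V)`, `B = F (U \ V)`, `C = F (V \ U)`, `D = F (U ∪ V)ᶜ`: for
`f ∈ B`, `g ∈ C` the hypothesis `h` for `b = t f`, `c = t g` gives the last assumption. So with `M = N + 1`,
`|B| |C| ≤ |A| |D|`; `mon_lower` for `B`, `C`, `mon_upper` for `A`, `D` and `limit_ineq` (as in the proof of `ext_exchange`; `M ≥ n ≥ 1`) give
`eP X (PW (V \ U)) * eP X (PW (U \ V)) ≤ eP X (PW (U ∩ V)) * eP X (PW (U ∪ V)ᶜ)`. For a linear ordering `L` of `X`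
`PW W L.1 ↔ L.restrict ι ∈ W` (`L` is total), so `eP X (PW W) = numExts X ι W`.
-/

namespace Pool.Agent.H59.ST

open Pool.Agent.H45.Corr

private theorem Anc_cmp (K a b e e' : ℤ) (he : 0 ≤ e) (heK : e < K) (he' : 0 ≤ e')
    (heK' : e' < K) : K * a + e < K * b + e' ↔ a < b ∨ (¬ b < a ∧ e < e') := by
  constructor
  · intro h
    rcases lt_trichotomy a b with h1 | h1 | h1
    · exact Or.inl h1
    · subst h1
      exact Or.inr ⟨lt_irrefl _, by linarith⟩
    · exfalso
      have h2 : b + 1 ≤ a := h1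
      have h3 : K * (b + 1) ≤ K * a := mul_le_mul_of_nonneg_left h2 (by linarith)
      linarith
  · rintro (h1 | ⟨h1, h2⟩)
    · have h2 : a + 1 ≤ b := h1
      have h3 : K * (a + 1) ≤ K * b := mul_le_mul_of_nonneg_left h2 (by linarith)
      linarith
    · have h3 : K * a ≤ K * b := mul_le_mul_of_nonneg_left (not_lt.1 h1) (by linarith)
      linarith

/-- the property of a relation on `X` given by a set of orderings of `T` -/
private def Anc_PW {X T : Type} (ι : T ↪ X) (ε : T → ℕ) (W : Set (LinOrd T)) :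
    (X → X → Prop) → Prop := fun r =>
  ∃ L ∈ W, L.1 = fun s t => r (ι s) (ι t) ∨ (¬ r (ι t) (ι s) ∧ ε s < ε t)

/-- the heights of the elements of `T` -/
private def Anc_t {X T : Type} (ι : T ↪ X) (ε : T → ℕ) (K : ℤ) (f : Option X → ℤ) : T → ℤ :=
  fun s => K * f (some (ι s)) + ε s

private theorem Anc_t_lt {X T : Type} (ι : T ↪ X) (ε : T → ℕ) (K : ℤ) (hK : ∀ s, (ε s : ℤ) < K)
    (f : Option X → ℤ) (s t : T) : Anc_t ι ε K f s < Anc_t ι ε K f t ↔
      (f (some (ι s)) < f (some (ι t)) ∨ (¬ f (some (ι t)) < f (some (ι s)) ∧ ε s < ε t)) := by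
  unfold Anc_t
  rw [Anc_cmp K _ _ _ _ (by positivity) (hK s) (by positivity) (hK t)]
  simp only [Nat.cast_lt]

private theorem Anc_inj {X T : Type} (ι : T ↪ X) (ε : T → ℕ) (hε : Function.Injective ε) (K : ℤ)
    (hK : ∀ s, (ε s : ℤ) < K) (f : Option X → ℤ) : Function.Injective (Anc_t ι ε K f) := by
  intro s t hst
  have h1 : ¬ Anc_t ι ε K f s < Anc_t ι ε K f t := by rw [hst]; exact lt_irrefl _
  have h2 : ¬ Anc_t ι ε K f t < Anc_t ι ε K f s := by rw [hst]; exact lt_irrefl _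
  rw [Anc_t_lt ι ε K hK] at h1 h2
  apply hε
  by_contra h
  rcases lt_or_gt_of_ne h with h3 | h3
  · apply h1
    by_cases h4 : f (some (ι t)) < f (some (ι s))
    · exact absurd (Or.inl h4) h2
    · exact Or.inr ⟨h4, h3⟩
  · apply h2
    by_cases h4 : f (some (ι s)) < f (some (ι t))
    · exact absurd (Or.inl h4) h1
    · exact Or.inr ⟨h4, h3⟩

private theorem Anc_PW_iff {X T : Type} (ι : T ↪ X) (ε : T → ℕ) (hε : Function.Injective ε) (K : ℤ)
    (hK : ∀ s, (ε s : ℤ) < K) (W : Set (LinOrd T)) (f : Option X → ℤ) :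
    Anc_PW ι ε W (fun a b => f (some a) < f (some b)) ↔
      ordBy (Anc_t ι ε K f) (Anc_inj ι ε hε K hK f) ∈ W := by
  have h0 : (ordBy (Anc_t ι ε K f) (Anc_inj ι ε hε K hK f)).1 = fun s t =>
      (f (some (ι s)) < f (some (ι t)) ∨ (¬ f (some (ι t)) < f (some (ι s)) ∧ ε s < ε t)) := by
    funext s t
    exact propext (Anc_t_lt ι ε K hK f s t)
  constructor
  · rintro ⟨L, hL, h⟩
    have : ordBy (Anc_t ι ε K f) (Anc_inj ι ε hε K hK f) = L := Subtype.ext (h0.trans h.symm)
    rw [this]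
    exact hL
  · intro h
    exact ⟨_, h, h0⟩

private theorem Anc_inf {X T : Type} (ι : T ↪ X) (ε : T → ℕ) (K : ℤ) (hK : 0 ≤ K)
    (f g : Option X → ℤ) : Anc_t ι ε K (f ⊓ g) = Anc_t ι ε K f ⊓ Anc_t ι ε K g := by
  funext s
  simp only [Anc_t, Pi.inf_apply]
  rcases le_total (f (some (ι s))) (g (some (ι s))) with h | h
  · have h2 : K * f (some (ι s)) + ε s ≤ K * g (some (ι s)) + ε s := by
      have := mul_le_mul_of_nonneg_left h hK
      linarith
    rw [inf_eq_left.2 h, inf_eq_left.2 h2]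
  · have h2 : K * g (some (ι s)) + ε s ≤ K * f (some (ι s)) + ε s := by
      have := mul_le_mul_of_nonneg_left h hK
      linarith
    rw [inf_eq_right.2 h, inf_eq_right.2 h2]

private theorem Anc_sup {X T : Type} (ι : T ↪ X) (ε : T → ℕ) (K : ℤ) (hK : 0 ≤ K)
    (f g : Option X → ℤ) : Anc_t ι ε K (f ⊔ g) = Anc_t ι ε K f ⊔ Anc_t ι ε K g := by
  funext s
  simp only [Anc_t, Pi.sup_apply]
  rcases le_total (f (some (ι s))) (g (some (ι s))) with h | h
  · have h2 : K * f (some (ι s)) + ε s ≤ K * g (some (ι s)) + ε s := by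
      have := mul_le_mul_of_nonneg_left h hK
      linarith
    rw [sup_eq_right.2 h, sup_eq_right.2 h2]
  · have h2 : K * g (some (ι s)) + ε s ≤ K * f (some (ι s)) + ε s := by
      have := mul_le_mul_of_nonneg_left h hK
      linarith
    rw [sup_eq_left.2 h, sup_eq_left.2 h2]

private theorem Anc_EN {X : Type} [PartialOrder X] {N : ℕ} {f g : Option X → ℤ} (hf : f ∈ EN X N)
    (hg : g ∈ EN X N) : f ⊓ g ∈ EN X N ∧ f ⊔ g ∈ EN X N := by
  refine ⟨⟨fun a b hab => ?_, fun a => ?_⟩, ⟨fun a b hab => ?_, fun a => ?_⟩⟩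
  · have h1 := hf.1 a b hab
    have h2 := hg.1 a b hab
    exact inf_le_inf h1 h2
  · have h1 := hf.2 a
    have h2 := hg.2 a
    change min (f none) (g none) ≤ min (f (some a)) (g (some a)) ∧
      min (f (some a)) (g (some a)) ≤ min (f none) (g none) + N
    omega
  · have h1 := hf.1 a b hab
    have h2 := hg.1 a b hab
    exact sup_le_sup h1 h2
  · have h1 := hf.2 a
    have h2 := hg.2 a
    change max (f none) (g none) ≤ max (f (some a)) (g (some a)) ∧
      max (f (some a)) (g (some a)) ≤ max (f none) (g none) + N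
    omega

private theorem Anc_num {X T : Type} [PartialOrder X] (ι : T ↪ X) (ε : T → ℕ)
    (W : Set (LinOrd T)) : eP X (Anc_PW ι ε W) = numExts X ι W := by
  unfold eP numExts
  congr 1
  ext L
  simp only [Set.mem_ofPred_eq]
  refine and_congr_right fun _ => ?_
  have h0 : (L.restrict ι).1 = fun s t => L.1 (ι s) (ι t) ∨ (¬ L.1 (ι t) (ι s) ∧ ε s < ε t) := by
    funext s t
    change L.1 (ι s) (ι t) = _
    rw [eq_iff_iff]
    constructor
    · exact Or.inl
    · rintro (h | ⟨h1, h2⟩)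
      · exact h
      · by_contra h3
        have h4 : ι s = ι t := L.2.trichotomous _ _ h3 h1
        have h5 : s = t := ι.injective h4
        rw [h5] at h2
        exact lt_irrefl _ h2
  constructor
  · rintro ⟨L', hL', h⟩
    have : L.restrict ι = L' := Subtype.ext (h0.trans h.symm)
    rw [this]
    exact hL'
  · intro h
    exact ⟨_, h, h0⟩

theorem anchored {T : Type} {x : T} {U V : Set (LinOrd T)}
    (h : ∀ (b c : T → ℤ) (hb : Function.Injective b) (hc : Function.Injective c)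
      (hm : Function.Injective (b ⊓ c)) (hj : Function.Injective (b ⊔ c)), b x = c x →
      ordBy b hb ∈ U \ V → ordBy c hc ∈ V \ U →
      (ordBy _ hm ∈ U ∩ V ∧ ordBy _ hj ∉ U ∪ V) ∨ (ordBy _ hj ∈ U ∩ V ∧ ordBy _ hm ∉ U ∪ V)) :
    UnivCorr U V := by
  intro X _ _ ι
  classical
  have := Fintype.ofFinite X
  apply pr_of_product
  have hfin : Finite T := Finite.of_injective ι ι.injective
  obtain ⟨ε, K, hε, hK⟩ : ∃ (ε : T → ℕ) (K : ℤ), Function.Injective ε ∧ ∀ s, (ε s : ℤ) < K := by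
    refine ⟨fun s => (Finite.equivFin T s : ℕ), (Nat.card T : ℤ), ?_, ?_⟩
    · intro s t hst
      exact (Finite.equivFin T).injective (Fin.ext hst)
    · intro s
      exact_mod_cast (Finite.equivFin T s).2
  have hK0 : 0 ≤ K := le_trans (by positivity) (hK x).le
  have key : ∀ N : ℕ, (mon X (N + 1) (Anc_PW ι ε (V \ U))).ncard *
      (mon X (N + 1) (Anc_PW ι ε (U \ V))).ncard ≤
      (mon X (N + 1) (Anc_PW ι ε (U ∩ V))).ncard *
      (mon X (N + 1) (Anc_PW ι ε (U ∪ V)ᶜ)).ncard := by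
    intro N
    have hFf := EN_finite (X := X) (N := N) (ι x)
    set F : Finset (Option X → ℤ) := hFf.toFinset with hFdef
    have hFmem : ∀ f, f ∈ F ↔ f ∈ EN X N ∧ f (some (ι x)) = 0 := by
      intro f
      rw [hFdef, Set.Finite.mem_toFinset]
      rfl
    set G : Set (LinOrd T) → Finset (Option X → ℤ) := fun W =>
      F.filter fun f => ordBy (Anc_t ι ε K f) (Anc_inj ι ε hε K hK f) ∈ W with hG
    have hGmem : ∀ W f, f ∈ G W ↔ f ∈ F ∧
        ordBy (Anc_t ι ε K f) (Anc_inj ι ε hε K hK f) ∈ W := by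
      intro W f
      rw [hG]
      exact Finset.mem_filter
    have hGcard : ∀ W, (G W).card = (mon X (N + 1) (Anc_PW ι ε W)).ncard := by
      intro W
      rw [← labellings_ncard (ι x) N, ← Set.ncard_coe_finset]
      congr 1
      ext f
      simp only [Finset.mem_coe, Set.mem_ofPred_eq]
      rw [hGmem, hFmem, Anc_PW_iff ι ε hε K hK W f]
      tauto
    have hdis : ∀ W Z : Set (LinOrd T), Disjoint W Z → Disjoint (G W) (G Z) := by
      intro W Z hWZ
      rw [Finset.disjoint_left]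
      intro f hf1 hf2
      exact Set.disjoint_left.1 hWZ ((hGmem W f).1 hf1).2 ((hGmem Z f).1 hf2).2
    have main := uad_card F (G (U ∩ V)) (G (U \ V)) (G (V \ U)) (G (U ∪ V)ᶜ) ?_ ?_ ?_ ?_ ?_ ?_ ?_
    · rw [hGcard, hGcard, hGcard, hGcard] at main
      rw [mul_comm]
      exact main
    · intro f hf g hg
      have hf' := (hFmem f).1 hf
      have hg' := (hFmem g).1 hg
      have h1 := Anc_EN hf'.1 hg'.1
      refine ⟨(hFmem _).2 ⟨h1.1, ?_⟩, (hFmem _).2 ⟨h1.2, ?_⟩⟩
      · rw [Pi.inf_apply, hf'.2, hg'.2, inf_idem]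
      · rw [Pi.sup_apply, hf'.2, hg'.2, sup_idem]
    · exact fun f hf => ((hGmem _ f).1 hf).1
    · exact fun f hf => ((hGmem _ f).1 hf).1
    · apply hdis
      rw [Set.disjoint_left]
      intro L h1 h2
      exact h2 (Or.inl h1.1)
    · apply hdis
      rw [Set.disjoint_left]
      intro L h1 h2
      exact h1.2 h2.2
    · apply hdis
      rw [Set.disjoint_left]
      intro L h1 h2
      exact h2 (Or.inl h1.1)
    · intro f hf g hg
      have hf1 := (hGmem _ f).1 hf
      have hg1 := (hGmem _ g).1 hg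
      have hf' := (hFmem f).1 hf1.1
      have hg' := (hFmem g).1 hg1.1
      have h1 := Anc_EN hf'.1 hg'.1
      have hi : f ⊓ g ∈ F := (hFmem _).2 ⟨h1.1, by rw [Pi.inf_apply, hf'.2, hg'.2, inf_idem]⟩
      have hs : f ⊔ g ∈ F := (hFmem _).2 ⟨h1.2, by rw [Pi.sup_apply, hf'.2, hg'.2, sup_idem]⟩
      have ei := Anc_inf ι ε K hK0 f g
      have es := Anc_sup ι ε K hK0 f g
      have hm : Function.Injective (Anc_t ι ε K f ⊓ Anc_t ι ε K g) :=
        ei ▸ Anc_inj ι ε hε K hK (f ⊓ g)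
      have hj : Function.Injective (Anc_t ι ε K f ⊔ Anc_t ι ε K g) :=
        es ▸ Anc_inj ι ε hε K hK (f ⊔ g)
      have hx : Anc_t ι ε K f x = Anc_t ι ε K g x := by
        simp only [Anc_t]
        rw [hf'.2, hg'.2]
      have hoi : ordBy (Anc_t ι ε K (f ⊓ g)) (Anc_inj ι ε hε K hK (f ⊓ g)) = ordBy _ hm := by
        apply Subtype.ext
        funext s t
        change (Anc_t ι ε K (f ⊓ g) s < Anc_t ι ε K (f ⊓ g) t) = _
        rw [ei]
        rfl
      have hos : ordBy (Anc_t ι ε K (f ⊔ g)) (Anc_inj ι ε hε K hK (f ⊔ g)) = ordBy _ hj := by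
        apply Subtype.ext
        funext s t
        change (Anc_t ι ε K (f ⊔ g) s < Anc_t ι ε K (f ⊔ g) t) = _
        rw [es]
        rfl
      rw [hGmem, hGmem, hGmem, hGmem, hoi, hos]
      rcases h _ _ (Anc_inj ι ε hε K hK f) (Anc_inj ι ε hε K hK g) hm hj hx hf1.2 hg1.2 with
        ⟨h2, h3⟩ | ⟨h2, h3⟩
      · exact Or.inl ⟨⟨hi, h2⟩, ⟨hs, h3⟩⟩
      · exact Or.inr ⟨⟨hi, h3⟩, ⟨hs, h2⟩⟩
  have hlim := limit_ineq (Fintype.card X) (eP X (Anc_PW ι ε (U ∩ V)))
    (eP X (Anc_PW ι ε (U \ V))) (eP X (Anc_PW ι ε (U ∪ V)ᶜ)) (eP X (Anc_PW ι ε (V \ U))) ?_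
  · rw [Anc_num, Anc_num, Anc_num, Anc_num] at hlim
    rw [mul_comm]
    exact hlim
  · intro M hM
    have hM0 : 0 < M := lt_of_lt_of_le (Fintype.card_pos_iff.2 ⟨ι x⟩) hM
    obtain ⟨N, rfl⟩ : ∃ N, M = N + 1 := ⟨M - 1, by omega⟩
    calc _ ≤ (mon X (N + 1) (Anc_PW ι ε (V \ U))).ncard
        * (mon X (N + 1) (Anc_PW ι ε (U \ V))).ncard :=
          Nat.mul_le_mul (mon_lower _ _) (mon_lower _ _)
      _ ≤ _ := key N
      _ ≤ _ := Nat.mul_le_mul (mon_upper _ _) (mon_upper _ _)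

end Pool.Agent.H59.ST
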