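import Pool.Agent.H59.ST.Defs

set_option autoImplicit false

/-!
# Module Gdl: orderings with separated middle pieces

Let `ι t = (κ (φ t), m + e t)`, `e t ≤ R ≤ m`, `κ : T' ↪ X`. Let `L ∈ Fr X (2 m + 1)` be in `Sepd X m R`. Compare `s`, `t`:
if `φ s = φ t` both sides are `e s < e t` (chain; for `subst` the first alternative is excluded by irreflexivity).
If `φ s ≠ φ t` let `a = κ (φ s) ≠ b = κ (φ t)`. Claim: `L (a, m + e s) (b, m + e t) ↔ L (a, m) (b, m)`. `→`: if not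
`L (a, m) (b, m)` then `L (b, m) (a, m)` (trichotomy), and by `Sepd` for the pair `(b, a)`
not `L (a, m) (b, m + R)` , so `L (b, m + R) (a, m)` (they are different), and along the chains
`(b, m + e t) ≤ (b, m + R) < (a, m) ≤ (a, m + e s)`: contradiction. `←` the same: `L (a, m) (b, m)` gives `L (a, m + R) (b, m)`
by `Sepd` for `(a, b)`, so `(a, m + e s) ≤ (a, m + R) < (b, m) ≤ (b, m + e t)`.
`two h L ∈ Mix m R` unfolds to: `L (a, m) (b, m)` and `L (b, m) (a, m + R)`.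
-/

namespace Pool.Agent.H59.ST

open Pool.Agent.H45.Corr

/-- the embedding of `T` into the chains -/
def emb {T T' X : Type} (φ : T → T') (e : T → ℕ) (he : ∀ s t, φ s = φ t → e s = e t → s = t)
    (κ : T' ↪ X) (m : ℕ) (hm : ∀ t, e t ≤ m) : T ↪ X × Fin (2 * m + 1) :=
  ⟨fun t => (κ (φ t), ⟨m + e t, by have := hm t; omega⟩), fun s t h =>
    he s t (κ.injective (congrArg Prod.fst h)) (by
      have := congrArg (fun z : X × Fin (2 * m + 1) => z.2.1) h
      simpa using this)⟩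

theorem restrict_sepd {T T' X : Type} (φ : T → T') (e : T → ℕ)
    (he : ∀ s t, φ s = φ t → e s = e t → s = t) (κ : T' ↪ X) {m R : ℕ} (hm : ∀ t, e t ≤ m)
    (hR : ∀ t, e t ≤ R) (hRm : R ≤ m) {L : LinOrd (X × Fin (2 * m + 1))}
    (hL : L ∈ Fr X (2 * m + 1)) (hs : L ∈ Sepd X m R) :
    L.restrict (emb φ e he κ m hm) =
      subst φ e he ((mids ⟨m, by omega⟩ L).restrict κ) := by
  have hT : IsStrictTotalOrder _ L.1 := L.2
  have hasym : ∀ x y, L.1 x y → ¬ L.1 y x := fun x y h1 h2 =>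
    hT.irrefl x (hT.trans x y x h1 h2)
  have hl : ∀ (a : X) (i j : Fin (2 * m + 1)) (x : X × Fin (2 * m + 1)), i ≤ j →
      L.1 (a, j) x → L.1 (a, i) x := by
    intro a i j x hij h
    rcases lt_or_eq_of_le hij with h1 | h1
    · exact hT.trans _ _ _ (hL (a, i) (a, j) ⟨rfl, h1⟩) h
    · rw [h1]; exact h
  have hr : ∀ (a : X) (i j : Fin (2 * m + 1)) (x : X × Fin (2 * m + 1)), i ≤ j →
      L.1 x (a, i) → L.1 x (a, j) := by
    intro a i j x hij h
    rcases lt_or_eq_of_le hij with h1 | h1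
    · exact hT.trans _ _ _ h (hL (a, i) (a, j) ⟨rfl, h1⟩)
    · rw [← h1]; exact h
  have key : ∀ (a b : X) (i0 i j : Fin (2 * m + 1)), a ≠ b → i0.1 = m → i.1 ≤ m + R → i0 ≤ j →
      L.1 (a, i0) (b, i0) → L.1 (a, i) (b, j) := by
    intro a b i0 i j hab h0 hi hj h
    have hk : m + R < 2 * m + 1 := by omega
    have h1 : ¬ L.1 (b, i0) (a, ⟨m + R, hk⟩) := by
      intro h2
      apply hs a b hab
      exact ⟨i0, ⟨m + R, hk⟩, h0, rfl, h, h2⟩
    have h2 : L.1 (a, ⟨m + R, hk⟩) (b, i0) := by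
      by_contra h3
      exact hab (congrArg Prod.fst (hT.trichotomous _ _ h3 h1))
    exact hr b i0 j _ hj (hl a i ⟨m + R, hk⟩ _ (Fin.le_def.mpr hi) h2)
  refine Subtype.ext (funext fun s => funext fun t => propext ?_)
  have hm1 : m < 2 * m + 1 := by omega
  have hs1 : m + e s < 2 * m + 1 := by have := hm s; omega
  have ht1 : m + e t < 2 * m + 1 := by have := hm t; omega
  change L.1 (κ (φ s), ⟨m + e s, hs1⟩) (κ (φ t), ⟨m + e t, ht1⟩) ↔
    (L.1 (κ (φ s), ⟨m, hm1⟩) (κ (φ t), ⟨m, hm1⟩) ∨ (φ s = φ t ∧ e s < e t))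
  by_cases hst : φ s = φ t
  · have h1 : ¬ L.1 (κ (φ s), (⟨m, hm1⟩ : Fin (2 * m + 1))) (κ (φ t), ⟨m, hm1⟩) := by
      rw [hst]; exact hT.irrefl _
    constructor
    · intro h
      refine Or.inr ⟨hst, ?_⟩
      by_contra h2
      rw [hst] at h
      have h3 := hl (κ (φ t)) ⟨m + e t, ht1⟩ ⟨m + e s, hs1⟩ _
        (Fin.le_def.mpr (by simp only; omega)) h
      exact hT.irrefl _ h3
    · rintro (h | ⟨_, h⟩)
      · exact absurd h h1
      · rw [hst]
        exact hL _ _ ⟨rfl, Fin.lt_def.mpr (by simp only; omega)⟩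
  · have hab : κ (φ s) ≠ κ (φ t) := fun h => hst (κ.injective h)
    constructor
    · intro h
      refine Or.inl ?_
      by_contra h2
      have h3 : L.1 (κ (φ t), (⟨m, hm1⟩ : Fin (2 * m + 1))) (κ (φ s), ⟨m, hm1⟩) := by
        by_contra h4
        exact hab (congrArg Prod.fst (hT.trichotomous _ _ h2 h4))
      have h5 := key (κ (φ t)) (κ (φ s)) ⟨m, hm1⟩ ⟨m + e t, ht1⟩ ⟨m + e s, hs1⟩ hab.symm rfl
        (by have := hR t; simp only; omega) (Fin.le_def.mpr (by simp only; omega)) h3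
      exact hasym _ _ h h5
    · rintro (h | ⟨h, _⟩)
      · exact key (κ (φ s)) (κ (φ t)) ⟨m, hm1⟩ ⟨m + e s, hs1⟩ ⟨m + e t, ht1⟩ hab rfl
          (by have := hR s; simp only; omega) (Fin.le_def.mpr (by simp only; omega)) h
      · exact absurd h hst

end Pool.Agent.H59.ST
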