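import Pool.Agent.H59.ST.Fim
import Pool.Agent.H59.ST.Gdl
import Pool.Agent.H19.UC.Gen

set_option autoImplicit false

/-!
# Module Apx: counting the extensions of the chains up to the orderings which are not separated

An ordering `L` of `X × Fin n` contains `GX X n c` iff `L ∈ Fr X n` and `mids c L ∈ linExts X`. For separated `L` in `Fr`
`restrict_sepd` says `L.restrict (emb ..) = subst φ e he ((mids c L).restrict κ)`. So the two sets
`gExt (emb ..) (GX ..) W` and `{L ∈ Fr | mids c L ∈ linExts X, subst φ e he ((mids c L).restrict κ) ∈ W}` differ only in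
elements which are not in `Sepd`. The second set is the disjoint union over the
`L' ∈ linExts X` with `subst φ e he (L'.restrict κ) ∈ W` of the sets `{L ∈ Fr | mids c L = L'}`, each with `ν` elements (`mids_fiber`), so it has
`ν * numExts X κ {L'' | subst φ e he L'' ∈ W}` elements (`Finset.card_eq_sum_card_fiberwise` or `Set.ncard` of a union; `numExts` is
defined in `Pool.Agent.H45.Corr.Defs`).
-/

namespace Pool.Agent.H59.ST

open Pool.Agent.H45.Corr Pool.Agent.H19.UC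

private lemma Apx_fin (Y : Type) [Finite Y] (S : Set (LinOrd Y)) : S.Finite := by
  have : Finite (LinOrd Y) :=
    inferInstanceAs (Finite {r : Y → Y → Prop // IsStrictTotalOrder Y r})
  exact S.toFinite

private lemma Apx_count {X : Type} [Finite X] {n : ℕ} (c : Fin n) (L₀ : LinOrd X)
    (S : Set (LinOrd X)) :
    {L | L ∈ Fr X n ∧ mids c L ∈ S}.ncard = {L | L ∈ Fr X n ∧ mids c L = L₀}.ncard * S.ncard := by
  refine Set.Finite.induction_on
    (motive := fun S _ => {L | L ∈ Fr X n ∧ mids c L ∈ S}.ncard =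
      {L | L ∈ Fr X n ∧ mids c L = L₀}.ncard * S.ncard) S (Apx_fin X S) ?_ ?_
  · simp
  · intro a S ha hS ih
    have h1 : {L | L ∈ Fr X n ∧ mids c L ∈ insert a S} =
        {L | L ∈ Fr X n ∧ mids c L = a} ∪ {L | L ∈ Fr X n ∧ mids c L ∈ S} := by
      ext L
      show (L ∈ Fr X n ∧ mids c L ∈ insert a S) ↔ _ ∨ _
      constructor
      · rintro ⟨h1, h2 | h2⟩
        · exact Or.inl ⟨h1, h2⟩
        · exact Or.inr ⟨h1, h2⟩
      · rintro (⟨h1, h2⟩ | ⟨h1, h2⟩)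
        · exact ⟨h1, Or.inl h2⟩
        · exact ⟨h1, Or.inr h2⟩
    have hd : Disjoint {L | L ∈ Fr X n ∧ mids c L = a} {L | L ∈ Fr X n ∧ mids c L ∈ S} := by
      rw [Set.disjoint_left]
      rintro L ⟨_, h2⟩ ⟨_, h3⟩
      exact ha (h2 ▸ h3)
    rw [h1, Set.ncard_union_eq hd (Apx_fin _ _) (Apx_fin _ _), ih,
      mids_fiber c a L₀, Set.ncard_insert_of_notMem ha hS]
    ring

theorem ext_approx {T T' X : Type} [Finite X] [PartialOrder X] (φ : T → T') (e : T → ℕ)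
    (he : ∀ s t, φ s = φ t → e s = e t → s = t) (κ : T' ↪ X) {m R : ℕ} (hm : ∀ t, e t ≤ m)
    (hR : ∀ t, e t ≤ R) (hRm : R ≤ m) (L₀ : LinOrd X) (W : Set (LinOrd T)) :
    {L | L ∈ Fr X (2 * m + 1) ∧ mids ⟨m, by omega⟩ L = L₀}.ncard *
        numExts X κ {L' | subst φ e he L' ∈ W} ≤
      (gExt (emb φ e he κ m hm) (GX X (2 * m + 1) ⟨m, by omega⟩) W).ncard +
        {L | L ∈ Fr X (2 * m + 1) ∧ L ∉ Sepd X m R}.ncard ∧
    (gExt (emb φ e he κ m hm) (GX X (2 * m + 1) ⟨m, by omega⟩) W).ncard ≤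
      {L | L ∈ Fr X (2 * m + 1) ∧ mids ⟨m, by omega⟩ L = L₀}.ncard *
        numExts X κ {L' | subst φ e he L' ∈ W} +
          {L | L ∈ Fr X (2 * m + 1) ∧ L ∉ Sepd X m R}.ncard := by
  have hc : m < 2 * m + 1 := by omega
  have hmem : ∀ L : LinOrd (X × Fin (2 * m + 1)),
      L ∈ gExt (emb φ e he κ m hm) (GX X (2 * m + 1) ⟨m, hc⟩) W ↔
        (L ∈ Fr X (2 * m + 1) ∧ mids ⟨m, hc⟩ L ∈ linExts X) ∧
          L.restrict (emb φ e he κ m hm) ∈ W := by
    intro L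
    constructor
    · rintro ⟨h1, h2⟩
      refine ⟨⟨fun p q h => h1 p q (Or.inl h), fun a b hab => ?_⟩, h2⟩
      exact h1 (a, ⟨m, hc⟩) (b, ⟨m, hc⟩) (Or.inr ⟨rfl, rfl, hab⟩)
    · rintro ⟨⟨h1, h2⟩, h3⟩
      refine ⟨?_, h3⟩
      rintro ⟨a, i⟩ ⟨b, j⟩ (h | ⟨hi, hj, hab⟩)
      · exact h1 _ _ h
      · have hi' : i = ⟨m, hc⟩ := hi
        have hj' : j = ⟨m, hc⟩ := hj
        subst hi' hj'
        exact h2 a b hab
  have hB := Apx_count (⟨m, hc⟩ : Fin (2 * m + 1)) L₀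
    {L' : LinOrd X | L' ∈ linExts X ∧ L'.restrict κ ∈ {L' | subst φ e he L' ∈ W}}
  have hN : numExts X κ {L' | subst φ e he L' ∈ W} =
    {L' : LinOrd X | L' ∈ linExts X ∧ L'.restrict κ ∈ {L' | subst φ e he L' ∈ W}}.ncard := rfl
  rw [hN, ← hB]
  constructor
  · refine le_trans (Set.ncard_le_ncard (t := gExt (emb φ e he κ m hm)
      (GX X (2 * m + 1) ⟨m, hc⟩) W ∪ {L | L ∈ Fr X (2 * m + 1) ∧ L ∉ Sepd X m R}) ?_
      (Apx_fin _ _)) (Set.ncard_union_le _ _)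
    rintro L ⟨h1, h2, h3⟩
    by_cases hs : L ∈ Sepd X m R
    · refine Or.inl ((hmem L).2 ⟨⟨h1, h2⟩, ?_⟩)
      rw [restrict_sepd φ e he κ hm hR hRm h1 hs]
      exact h3
    · exact Or.inr ⟨h1, hs⟩
  · refine le_trans (Set.ncard_le_ncard (t := {L | L ∈ Fr X (2 * m + 1) ∧ mids ⟨m, hc⟩ L ∈
      {L' : LinOrd X | L' ∈ linExts X ∧ L'.restrict κ ∈ {L' | subst φ e he L' ∈ W}}} ∪
        {L | L ∈ Fr X (2 * m + 1) ∧ L ∉ Sepd X m R}) ?_
      (Apx_fin _ _)) (Set.ncard_union_le _ _)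
    intro L hL
    obtain ⟨⟨h1, h2⟩, h3⟩ := (hmem L).1 hL
    by_cases hs : L ∈ Sepd X m R
    · refine Or.inl ⟨h1, h2, ?_⟩
      rw [restrict_sepd φ e he κ hm hR hRm h1 hs] at h3
      exact h3
    · exact Or.inr ⟨h1, hs⟩

end Pool.Agent.H59.ST
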