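import Pool.Agent.H59.ST.Defs

set_option autoImplicit false

/-!
# Module Prd: product form of the counting inequality

Let `N W = (gExt ι G W).ncard`; `N` is finitely additive (`LinOrd X` is finite, `Set.ncard_union_eq`; as `Gen_add` in
`Pool.Agent.H19.UC.Gen`, which is private: copy it). `ext_gen` says `N U * N V ≤ N (U ∩ V) * N univ`. Put
`a = N (U ∩ V)`, `b = N (U \ V)`, `c = N (V \ U)`, `d = N (U ∪ V)ᶜ`: `N U = a + b`, `N V = a + c`,
`N univ = a + b + c + d`, so `(a + b)(a + c) ≤ a (a + b + c + d)`, i.e. `b c ≤ a d` (`nlinarith`).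
-/

namespace Pool.Agent.H59.ST

open Pool.Agent.H45.Corr Pool.Agent.H19.UC

private lemma Prd_fin (X : Type) [Finite X] (s : Set (LinOrd X)) : s.Finite := by
  have : Finite (X → X → Prop) := Pi.finite
  have : Finite (LinOrd X) := Subtype.finite
  exact Set.toFinite s

private lemma Prd_add {T X : Type} [Finite X] (ι : T ↪ X) (G : X → X → Prop)
    {U V W : Set (LinOrd T)} (h : W = U ∪ V) (hd : Disjoint U V) :
    (gExt ι G W).ncard = (gExt ι G U).ncard + (gExt ι G V).ncard := by
  rw [← Set.ncard_union_eq _ (Prd_fin X _) (Prd_fin X _)]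
  · congr 1
    ext L
    rw [h]
    constructor
    · rintro ⟨h1, h2 | h2⟩
      · exact Or.inl ⟨h1, h2⟩
      · exact Or.inr ⟨h1, h2⟩
    · rintro (⟨h1, h2⟩ | ⟨h1, h2⟩)
      · exact ⟨h1, Or.inl h2⟩
      · exact ⟨h1, Or.inr h2⟩
  · rw [Set.disjoint_left]
    intro L h1 h2
    exact Set.disjoint_left.1 hd h1.2 h2.2

theorem ext_prod {T X : Type} [Finite X] (ι : T ↪ X) (G : X → X → Prop) {U V : Set (LinOrd T)}
    (h : UnivCorr U V) :
    (gExt ι G (U \ V)).ncard * (gExt ι G (V \ U)).ncard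
      ≤ (gExt ι G (U ∩ V)).ncard * (gExt ι G (U ∪ V)ᶜ).ncard := by
  have h0 := ext_gen ι G h
  have a1 : (gExt ι G U).ncard = (gExt ι G (U ∩ V)).ncard + (gExt ι G (U \ V)).ncard := by
    refine Prd_add ι G (Set.inter_union_diff _ _).symm ?_
    rw [Set.disjoint_left]
    exact fun L h1 h2 => h2.2 h1.2
  have a2 : (gExt ι G V).ncard = (gExt ι G (U ∩ V)).ncard + (gExt ι G (V \ U)).ncard := by
    refine Prd_add ι G ?_ ?_
    · rw [Set.inter_comm]
      exact (Set.inter_union_diff _ _).symm
    · rw [Set.disjoint_left]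
      exact fun L h1 h2 => h2.2 h1.1
  have a3 : (gExt ι G Set.univ).ncard =
      (gExt ι G (U ∪ V)).ncard + (gExt ι G (U ∪ V)ᶜ).ncard := by
    refine Prd_add ι G (Set.union_compl_self _).symm ?_
    exact disjoint_compl_right
  have a4 : (gExt ι G (U ∪ V)).ncard = (gExt ι G U).ncard + (gExt ι G (V \ U)).ncard := by
    refine Prd_add ι G Set.union_diff_self.symm ?_
    exact disjoint_sdiff_self_right
  generalize (gExt ι G Set.univ).ncard = tot at *
  generalize (gExt ι G (U ∪ V)).ncard = uv at *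
  generalize (gExt ι G U).ncard = u at *
  generalize (gExt ι G V).ncard = v at *
  generalize (gExt ι G (U ∩ V)).ncard = a at *
  generalize (gExt ι G (U \ V)).ncard = b at *
  generalize (gExt ι G (V \ U)).ncard = c at *
  generalize (gExt ι G (U ∪ V)ᶜ).ncard = d at *
  subst a3 a4 a1 a2
  have e1 : (a + b) * (a + c) = a * (a + b + c) + b * c := by ring
  have e2 : a * (a + b + c + d) = a * (a + b + c) + a * d := by ring
  omega

end Pool.Agent.H59.ST
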