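import Pool.Agent.H59.ST.Defs
import Pool.Agent.H59.TN.Wgt

set_option autoImplicit false

/-!
# Module Sml: the number `mixN m R` is small

Since `C(2 m + j + 1, m + j + 1) / C(2 m + j, m + j) = (2 m + j + 1) / (m + j + 1) ≤ 2` and
`C(2 m - j, m - j) / C(2 m + 1 - j, m + 1 - j) ≤ 1` (start with `j = 1`: `C(2 m, m)`), every term of `mixN m R` with `1 ≤ j ≤ R ≤ m + 1` is at
most `2 ^ j C(2 m, m) ^ 2` (`j = 0` in the first factor: `C(2 m, m)`), so `mixN m R ≤ R 2 ^ R C(2 m, m) ^ 2` for `m ≥ R`.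
Let `a m = C(2 m, m) / 4 ^ m` (real, `Nat.centralBinom`): `a (m + 1) = a m (2 m + 1) / (2 m + 2)`, hence by induction
`a m ^ 2 (2 m + 1) ≤ 1` and `1 ≤ 4 m a m ^ 2` (`m ≥ 1`). As `C(4 m + 2, 2 m + 1) = 4 * 16 ^ m a (2 m + 1)`, the quotient is at most
`R 2 ^ R a m ^ 2 / (4 a (2 m + 1))`, and `a (2 m + 1) ≥ 1 / √(4 (2 m + 1))`, so it is at most
`R 2 ^ R / (2 √(2 m + 1)) → 0` for `m ≥ R`.
-/

open Filter Topology

namespace Pool.Agent.H59.ST

private theorem Sml_choose (m : ℕ) : ∀ j : ℕ, (2 * m + j).choose m ≤ 2 ^ j * (2 * m).choose m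
  | 0 => by simp
  | j + 1 => by
      have ih := Sml_choose m j
      have h1 : (2 * m + (j + 1)).choose m ≤ 2 * (2 * m + j).choose m := by
        rcases Nat.eq_zero_or_pos m with rfl | hm
        · simp
        · obtain ⟨k, rfl⟩ : ∃ k, m = k + 1 := ⟨m - 1, by omega⟩
          have h2 : (2 * (k + 1) + (j + 1)).choose (k + 1) =
              (2 * (k + 1) + j).choose k + (2 * (k + 1) + j).choose (k + 1) := by
            have : 2 * (k + 1) + (j + 1) = (2 * (k + 1) + j) + 1 := by ring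
            rw [this, Nat.choose_succ_succ]
          have h3 : (2 * (k + 1) + j).choose k ≤ (2 * (k + 1) + j).choose (k + 1) :=
            Nat.choose_le_succ_of_lt_half_left (by omega)
          omega
      calc (2 * m + (j + 1)).choose m ≤ 2 * (2 * m + j).choose m := h1
        _ ≤ 2 * (2 ^ j * (2 * m).choose m) := Nat.mul_le_mul_left _ ih
        _ = 2 ^ (j + 1) * (2 * m).choose m := by ring

private theorem Sml_mix (m R : ℕ) (hR : R ≤ m) :
    mixN m R ≤ R * 2 ^ R * (Nat.centralBinom m) ^ 2 := by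
  unfold mixN
  have h : ∀ j ∈ Finset.Icc 1 R, (2 * m + j).choose (m + j) * (2 * m + 1 - j).choose (m + 1 - j) ≤
      2 ^ R * (Nat.centralBinom m) ^ 2 := by
    intro j hj
    rw [Finset.mem_Icc] at hj
    have h1 : (2 * m + j).choose (m + j) = (2 * m + j).choose m := by
      rw [← Nat.choose_symm (by omega : m ≤ 2 * m + j)]
      congr 1
      omega
    have h2 : (2 * m + 1 - j).choose (m + 1 - j) = (2 * m + 1 - j).choose m := by
      rw [← Nat.choose_symm (by omega : m ≤ 2 * m + 1 - j)]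
      congr 1
      omega
    have h3 : (2 * m + 1 - j).choose m ≤ (2 * m).choose m := Nat.choose_le_choose _ (by omega)
    have h4 := Sml_choose m j
    have h5 : 2 ^ j ≤ 2 ^ R := Nat.pow_le_pow_right (by norm_num) hj.2
    rw [h1, h2, Nat.centralBinom_eq_two_mul_choose]
    calc (2 * m + j).choose m * (2 * m + 1 - j).choose m ≤
        (2 ^ R * (2 * m).choose m) * (2 * m).choose m :=
          Nat.mul_le_mul (h4.trans (Nat.mul_le_mul_right _ h5)) h3
      _ = 2 ^ R * ((2 * m).choose m) ^ 2 := by ring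
  calc _ ≤ (Finset.Icc 1 R).card • (2 ^ R * (Nat.centralBinom m) ^ 2) :=
        Finset.sum_le_card_nsmul _ _ _ h
    _ = R * 2 ^ R * (Nat.centralBinom m) ^ 2 := by
        rw [Nat.card_Icc, smul_eq_mul]
        simp only [Nat.add_sub_cancel]
        ring

private theorem Sml_up : ∀ m : ℕ, (Nat.centralBinom m) ^ 2 * (2 * m + 1) ≤ 16 ^ m
  | 0 => by simp
  | m + 1 => by
      have ih := Sml_up m
      have h := Nat.succ_mul_centralBinom_succ m
      have h1 : (m + 1) ^ 2 * ((Nat.centralBinom (m + 1)) ^ 2 * (2 * (m + 1) + 1)) ≤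
          (m + 1) ^ 2 * 16 ^ (m + 1) := by
        calc (m + 1) ^ 2 * ((Nat.centralBinom (m + 1)) ^ 2 * (2 * (m + 1) + 1)) =
            ((m + 1) * Nat.centralBinom (m + 1)) ^ 2 * (2 * m + 3) := by ring
          _ = (4 * (2 * m + 1) * (2 * m + 3)) * ((Nat.centralBinom m) ^ 2 * (2 * m + 1)) := by
              rw [h]; ring
          _ ≤ (4 * (2 * m + 1) * (2 * m + 3)) * 16 ^ m := Nat.mul_le_mul_left _ ih
          _ ≤ (16 * (m + 1) ^ 2) * 16 ^ m := by
              apply Nat.mul_le_mul_right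
              nlinarith
          _ = (m + 1) ^ 2 * 16 ^ (m + 1) := by ring
      exact Nat.le_of_mul_le_mul_left h1 (by positivity)

private theorem Sml_low : ∀ m : ℕ, 16 ^ (m + 1) ≤ 4 * (m + 1) * (Nat.centralBinom (m + 1)) ^ 2
  | 0 => by simp [Nat.centralBinom]
  | m + 1 => by
      have ih := Sml_low m
      have h := Nat.succ_mul_centralBinom_succ (m + 1)
      have h1 : (m + 2) * 16 ^ (m + 1 + 1) ≤
          (m + 2) * (4 * (m + 1 + 1) * (Nat.centralBinom (m + 1 + 1)) ^ 2) := by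
        calc (m + 2) * 16 ^ (m + 1 + 1) = (16 * (m + 2)) * 16 ^ (m + 1) := by ring
          _ ≤ (16 * (m + 2)) * (4 * (m + 1) * (Nat.centralBinom (m + 1)) ^ 2) :=
              Nat.mul_le_mul_left _ ih
          _ = (64 * ((m + 1) * (m + 2))) * (Nat.centralBinom (m + 1)) ^ 2 := by ring
          _ ≤ (16 * (2 * (m + 1) + 1) ^ 2) * (Nat.centralBinom (m + 1)) ^ 2 := by
              apply Nat.mul_le_mul_right
              nlinarith
          _ = 4 * (2 * (2 * (m + 1) + 1) * Nat.centralBinom (m + 1)) ^ 2 := by ring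
          _ = 4 * ((m + 1 + 1) * Nat.centralBinom (m + 1 + 1)) ^ 2 := by rw [h]
          _ = (m + 2) * (4 * (m + 1 + 1) * (Nat.centralBinom (m + 1 + 1)) ^ 2) := by ring
      exact Nat.le_of_mul_le_mul_left h1 (by omega)

private theorem Sml_quot (m R : ℕ) (hR : R ≤ m) :
    (mixN m R : ℝ) / (((2 * m + 1) + (2 * m + 1)).choose (2 * m + 1) : ℕ) ≤
      ((R * 2 ^ R : ℕ) : ℝ) / Real.sqrt ((m : ℝ) + 1) := by
  have hc : ((2 * m + 1) + (2 * m + 1)).choose (2 * m + 1) = Nat.centralBinom (2 * m + 1) := by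
    rw [Nat.centralBinom_eq_two_mul_choose]
    congr 1
    ring
  rw [hc]
  have h1 : (mixN m R : ℝ) ≤ ((R * 2 ^ R : ℕ) : ℝ) * (Nat.centralBinom m : ℝ) ^ 2 := by
    exact_mod_cast Sml_mix m R hR
  have h2 : (Nat.centralBinom m : ℝ) ^ 2 * (2 * (m : ℝ) + 1) ≤ 16 ^ m := by
    exact_mod_cast Sml_up m
  have h3 : (16 : ℝ) ^ (2 * m + 1) ≤
      4 * (2 * (m : ℝ) + 1) * (Nat.centralBinom (2 * m + 1) : ℝ) ^ 2 := by
    exact_mod_cast Sml_low (2 * m)
  have hpos : (0 : ℝ) < Nat.centralBinom (2 * m + 1) := by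
    exact_mod_cast Nat.centralBinom_pos _
  have hm : (0 : ℝ) < (m : ℝ) + 1 := by positivity
  have h4 : (Nat.centralBinom m : ℝ) ^ 2 * Real.sqrt ((m : ℝ) + 1) ≤
      Nat.centralBinom (2 * m + 1) := by
    apply le_of_sq_le_sq _ hpos.le
    have h5 : ((Nat.centralBinom m : ℝ) ^ 2 * (2 * (m : ℝ) + 1)) ^ 2 ≤ (16 ^ m) ^ 2 := by
      apply pow_le_pow_left₀ (by positivity) h2
    have h6 : ((16 : ℝ) ^ m) ^ 2 * 16 = 16 ^ (2 * m + 1) := by
      rw [← pow_mul, pow_succ]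
      congr 2
      ring
    rw [mul_pow, Real.sq_sqrt hm.le]
    have h7 : 0 < 2 * (m : ℝ) + 1 := by positivity
    have h8 : (((Nat.centralBinom m : ℝ) ^ 2) ^ 2 * ((m : ℝ) + 1)) * (2 * (m : ℝ) + 1) ^ 2 ≤
        ((Nat.centralBinom (2 * m + 1) : ℝ) ^ 2) * (2 * (m : ℝ) + 1) ^ 2 := by
      have h9 : ((Nat.centralBinom m : ℝ) ^ 2) ^ 2 * (2 * (m : ℝ) + 1) ^ 2 * 16 ≤
          4 * (2 * (m : ℝ) + 1) * (Nat.centralBinom (2 * m + 1) : ℝ) ^ 2 := by
        rw [mul_pow] at h5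
        nlinarith
      have h10 : (0 : ℝ) ≤ (m : ℝ) := by positivity
      have h11 : (0 : ℝ) ≤ (Nat.centralBinom (2 * m + 1) : ℝ) ^ 2 := by positivity
      have h12 : (0 : ℝ) ≤ (m : ℝ) * (Nat.centralBinom (2 * m + 1) : ℝ) ^ 2 := by positivity
      have h13 : (0 : ℝ) ≤ (m : ℝ) ^ 2 * (Nat.centralBinom (2 * m + 1) : ℝ) ^ 2 := by positivity
      have h14 := mul_le_mul_of_nonneg_right h9 hm.le
      nlinarith
    exact le_of_mul_le_mul_right h8 (by positivity)
  have hs : 0 < Real.sqrt ((m : ℝ) + 1) := Real.sqrt_pos.mpr hm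
  rw [div_le_div_iff₀ hpos hs]
  calc (mixN m R : ℝ) * Real.sqrt ((m : ℝ) + 1) ≤
      (((R * 2 ^ R : ℕ) : ℝ) * (Nat.centralBinom m : ℝ) ^ 2) * Real.sqrt ((m : ℝ) + 1) :=
        mul_le_mul_of_nonneg_right h1 hs.le
    _ = ((R * 2 ^ R : ℕ) : ℝ) * ((Nat.centralBinom m : ℝ) ^ 2 * Real.sqrt ((m : ℝ) + 1)) := by
        ring
    _ ≤ ((R * 2 ^ R : ℕ) : ℝ) * Nat.centralBinom (2 * m + 1) :=
        mul_le_mul_of_nonneg_left h4 (by positivity)

theorem small (R : ℕ) :
    Tendsto (fun m : ℕ => (mixN m R : ℝ) /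
      (((2 * m + 1) + (2 * m + 1)).choose (2 * m + 1) : ℕ)) atTop (𝓝 0) := by
  have h1 : Tendsto (fun m : ℕ => ((R * 2 ^ R : ℕ) : ℝ) / Real.sqrt ((m : ℝ) + 1)) atTop
      (𝓝 0) := by
    apply Tendsto.div_atTop tendsto_const_nhds
    exact Real.tendsto_sqrt_atTop.comp
      (tendsto_atTop_add_const_right _ _ tendsto_natCast_atTop_atTop)
  refine tendsto_of_tendsto_of_tendsto_of_le_of_le' tendsto_const_nhds h1 ?_ ?_
  · exact Eventually.of_forall fun m => by positivity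
  · filter_upwards [eventually_ge_atTop R] with m hm
    exact Sml_quot m R hm

end Pool.Agent.H59.ST
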