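import Pool.Agent.H59.ST.Bd
import Pool.Agent.H59.ST.Sml
import Pool.Agent.H59.ST.Apx
import Pool.Agent.H59.ST.Prd
import Pool.Agent.H45.Corr.Double

set_option autoImplicit false

/-!
# Module Asm: contraction of blocks preserves universal correlation

Let `X` be a finite poset, `κ : T' ↪ X` (see the definition of `UnivCorr`), `R` a bound for `e` (`T` is finite). For `m ≥ R` let
`n = 2 m + 1`, `c = ⟨m, _⟩`, `L₀` any ordering of `X` (there is one: otherwise `linExts X` is empty and all numbers are `0`; or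
`Fr_ncard_pos` and `mids`), `ν_m = #{L ∈ Fr | mids c L = L₀}` (`> 0` by `Fr_ncard`, `Fr_ncard_pos`), `Bad_m` the number of the `L ∈ Fr` which are not
separated. `bad_le` and `Fr_ncard` give `Bad_m / ν_m ≤ #(LinOrd X) (#X) ^ 2 * (mixN m R / C(2 n, n)) → 0` (`small`).
For a set `W` of orderings of `T` let `w W = numExts X κ {L' | subst φ e he L' ∈ W}` (independent of `m`!) and
`g_m W = (gExt (emb ..) (GX ..) W).ncard`: by `ext_approx` `|g_m W / ν_m - w W| ≤ Bad_m / ν_m`, so `g_m W / ν_m → w W` as `m → ∞`. `ext_prod` for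
`(emb .., GX ..)` divided by `ν_m ^ 2` and `le_of_tendsto_of_tendsto` (real numbers, `m → ∞`):
`w (U \ V) w (V \ U) ≤ w (U ∩ V) w (U ∪ V)ᶜ`. Conclude with `pr_of_product` (module `Pool.Agent.H45.Corr.Double`) for the sets
`{L' | subst .. ∈ U}`, `{L' | subst .. ∈ V}` (set differences, intersections and complements of preimages by `rfl`/`Set.ext`).
-/

open Filter Topology

namespace Pool.Agent.H59.ST

open Pool.Agent.H45.Corr Pool.Agent.H19.UC

private theorem asm_arith {a b c d wa wb wc wd δ : ℝ} (ha : 0 ≤ a)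
    (hd : 0 ≤ d) (hwb : 0 ≤ wb) (hwc : 0 ≤ wc)
    (hδ : 0 ≤ δ) (h : a * b ≤ c * d) (h1 : wa ≤ a + δ) (h1' : a ≤ wa + δ) (h2 : wb ≤ b + δ)
    (h2' : b ≤ wb + δ) (h3 : c ≤ wc + δ) (h4 : d ≤ wd + δ) :
    wa * wb ≤ (wc + δ) * (wd + δ) + δ * (wa + wb + 2 * δ) + δ ^ 2 := by
  have e1 : wa * wb ≤ (a + δ) * (b + δ) := mul_le_mul h1 h2 hwb (by linarith)
  have e2 : c * d ≤ (wc + δ) * (wd + δ) := mul_le_mul h3 h4 hd (by linarith)
  have e3 : δ * (a + b) ≤ δ * (wa + wb + 2 * δ) := mul_le_mul_of_nonneg_left (by linarith) hδ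
  nlinarith

private theorem asm_div {ν B g w : ℕ} {δ : ℝ} (hν : 0 < ν) (hB : (B : ℝ) ≤ δ * ν)
    (h1 : ν * w ≤ g + B) (h2 : g ≤ ν * w + B) :
    (w : ℝ) ≤ (g : ℝ) / ν + δ ∧ (g : ℝ) / ν ≤ w + δ := by
  have hν' : (0 : ℝ) < ν := by exact_mod_cast hν
  have h1' : (ν : ℝ) * w ≤ g + B := by exact_mod_cast h1
  have h2' : (g : ℝ) ≤ ν * w + B := by exact_mod_cast h2
  constructor
  · have : (w : ℝ) - δ ≤ (g : ℝ) / ν := by
      rw [le_div_iff₀ hν']
      nlinarith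
    linarith
  · rw [div_le_iff₀ hν']
    nlinarith

theorem contraction {T T' : Type} [Finite T] {U V : Set (LinOrd T)} (h : UnivCorr U V)
    (φ : T → T') (e : T → ℕ) (he : ∀ s t, φ s = φ t → e s = e t → s = t) :
    UnivCorr {L | subst φ e he L ∈ U} {L | subst φ e he L ∈ V} := by
  intro X _ _ κ
  apply pr_of_product
  have s1 : ({L | subst φ e he L ∈ U} \ {L | subst φ e he L ∈ V} : Set (LinOrd T')) =
      {L | subst φ e he L ∈ U \ V} := by
    ext L; exact Iff.rfl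
  have s2 : ({L | subst φ e he L ∈ V} \ {L | subst φ e he L ∈ U} : Set (LinOrd T')) =
      {L | subst φ e he L ∈ V \ U} := by
    ext L; exact Iff.rfl
  have s3 : ({L | subst φ e he L ∈ U} ∩ {L | subst φ e he L ∈ V} : Set (LinOrd T')) =
      {L | subst φ e he L ∈ U ∩ V} := by
    ext L; exact Iff.rfl
  have s4 : (({L | subst φ e he L ∈ U} ∪ {L | subst φ e he L ∈ V})ᶜ : Set (LinOrd T')) =
      {L | subst φ e he L ∈ (U ∪ V)ᶜ} := by
    ext L; exact Iff.rfl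
  rw [s1, s2, s3, s4]
  obtain ⟨R, hR0⟩ := (Set.finite_range e).bddAbove
  have hR : ∀ t, e t ≤ R := fun t => hR0 (Set.mem_range_self t)
  have hL0 : ∃ L₀ : LinOrd X, True := by
    have h0 : 0 < (Fr X 1).ncard := Fr_ncard_pos 1
    obtain ⟨L, _⟩ := Set.nonempty_of_ncard_ne_zero h0.ne'
    exact ⟨mids 0 L, trivial⟩
  obtain ⟨L₀, -⟩ := hL0
  set c0 : ℕ := (Set.univ : Set (LinOrd X)).ncard with hc0
  set δ : ℕ → ℝ := fun m => (c0 : ℝ) * (Nat.card X : ℝ) ^ 2 * ((mixN m R : ℝ) /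
      (((2 * m + 1) + (2 * m + 1)).choose (2 * m + 1) : ℕ)) with hδ
  have hδ0 : ∀ m, 0 ≤ δ m := by
    intro m
    simp only [hδ]
    positivity
  have hlim : Tendsto δ atTop (𝓝 0) := by
    have := (small R).const_mul ((c0 : ℝ) * (Nat.card X : ℝ) ^ 2)
    rw [mul_zero] at this
    exact this
  have key : ∀ m, R ≤ m →
      ((numExts X κ {L' | subst φ e he L' ∈ U \ V} : ℕ) : ℝ) *
        (numExts X κ {L' | subst φ e he L' ∈ V \ U} : ℕ) ≤
      ((numExts X κ {L' | subst φ e he L' ∈ U ∩ V} : ℕ) + δ m) *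
        ((numExts X κ {L' | subst φ e he L' ∈ (U ∪ V)ᶜ} : ℕ) + δ m) +
      δ m * ((numExts X κ {L' | subst φ e he L' ∈ U \ V} : ℕ) +
        (numExts X κ {L' | subst φ e he L' ∈ V \ U} : ℕ) + 2 * δ m) + δ m ^ 2 := by
    intro m hRm
    have hm : ∀ t, e t ≤ m := fun t => (hR t).trans hRm
    have hν : 0 < {L | L ∈ Fr X (2 * m + 1) ∧ mids ⟨m, by omega⟩ L = L₀}.ncard := by
      have h1 := Fr_ncard_pos (X := X) (2 * m + 1)
      rw [Fr_ncard ⟨m, by omega⟩ L₀] at h1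
      exact Nat.pos_of_mul_pos_left h1
    have hB : (({L | L ∈ Fr X (2 * m + 1) ∧ L ∉ Sepd X m R}.ncard : ℕ) : ℝ) ≤
        δ m * ({L | L ∈ Fr X (2 * m + 1) ∧ mids ⟨m, by omega⟩ L = L₀}.ncard : ℕ) := by
      have h1 := bad_le (X := X) hRm
      rw [Fr_ncard ⟨m, by omega⟩ L₀] at h1
      have hC : (0 : ℝ) < ((((2 * m + 1) + (2 * m + 1)).choose (2 * m + 1) : ℕ) : ℝ) := by
        exact_mod_cast Nat.choose_pos (by omega)
      have h2 : (({L | L ∈ Fr X (2 * m + 1) ∧ L ∉ Sepd X m R}.ncard : ℕ) : ℝ) *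
          ((((2 * m + 1) + (2 * m + 1)).choose (2 * m + 1) : ℕ) : ℝ) ≤
          ((Set.univ : Set (LinOrd X)).ncard : ℝ) *
            ({L | L ∈ Fr X (2 * m + 1) ∧ mids ⟨m, by omega⟩ L = L₀}.ncard : ℕ) *
            ((Nat.card X : ℝ) ^ 2 * (mixN m R : ℝ)) := by
        exact_mod_cast h1
      rw [← le_div_iff₀ hC] at h2
      refine h2.trans (le_of_eq ?_)
      simp only [hδ, ← hc0]
      field_simp
    have hg := ext_prod (emb φ e he κ m hm) (GX X (2 * m + 1) ⟨m, by omega⟩) h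
    have a1 := ext_approx φ e he κ hm hR hRm L₀ (U \ V)
    have a2 := ext_approx φ e he κ hm hR hRm L₀ (V \ U)
    have a3 := ext_approx φ e he κ hm hR hRm L₀ (U ∩ V)
    have a4 := ext_approx φ e he κ hm hR hRm L₀ (U ∪ V)ᶜ
    obtain ⟨b1, b1'⟩ := asm_div hν hB a1.1 a1.2
    obtain ⟨b2, b2'⟩ := asm_div hν hB a2.1 a2.2
    obtain ⟨b3, b3'⟩ := asm_div hν hB a3.1 a3.2
    obtain ⟨b4, b4'⟩ := asm_div hν hB a4.1 a4.2
    refine asm_arith (by positivity) (by positivity)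
      (Nat.cast_nonneg _) (Nat.cast_nonneg _) (hδ0 m)
      ?_ b1 b1' b2 b2' b3' b4'
    rw [div_mul_div_comm, div_mul_div_comm]
    apply div_le_div_of_nonneg_right _ (by positivity)
    exact_mod_cast hg
  have hT : Tendsto (fun m =>
      (((numExts X κ {L' | subst φ e he L' ∈ U ∩ V} : ℕ) : ℝ) + δ m) *
        (((numExts X κ {L' | subst φ e he L' ∈ (U ∪ V)ᶜ} : ℕ) : ℝ) + δ m) +
      δ m * (((numExts X κ {L' | subst φ e he L' ∈ U \ V} : ℕ) : ℝ) +
        ((numExts X κ {L' | subst φ e he L' ∈ V \ U} : ℕ) : ℝ) + 2 * δ m) + δ m ^ 2) atTop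
      (𝓝 ((((numExts X κ {L' | subst φ e he L' ∈ U ∩ V} : ℕ) : ℝ) + 0) *
        (((numExts X κ {L' | subst φ e he L' ∈ (U ∪ V)ᶜ} : ℕ) : ℝ) + 0) +
      0 * (((numExts X κ {L' | subst φ e he L' ∈ U \ V} : ℕ) : ℝ) +
        ((numExts X κ {L' | subst φ e he L' ∈ V \ U} : ℕ) : ℝ) + 2 * 0) + 0 ^ 2)) := by
    exact (((tendsto_const_nhds.add hlim).mul (tendsto_const_nhds.add hlim)).add
      (hlim.mul (tendsto_const_nhds.add (hlim.const_mul 2)))).add (hlim.pow 2)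
  have hfin := ge_of_tendsto hT (eventually_atTop.mpr ⟨R, key⟩)
  simp only [add_zero, zero_mul, ne_eq, OfNat.ofNat_ne_zero, not_false_eq_true, zero_pow]
    at hfin
  exact_mod_cast hfin

end Pool.Agent.H59.ST
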