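import Pool.Agent.H59.ST.Defs
import Pool.Agent.H59.TN.EncB
import Pool.Agent.H59.TN.Wgt

set_option autoImplicit false

/-!
# Module Win: the element `m` of one chain is rarely inside a short piece of another chain

`card_F2`: `F2 n` is in bijection with the subsets of `Fin (n + n)` with `n` elements (`lin_eq`, `lin_surj`, and `lin`
contains `chn` by `lin_inl`, `lin_inr`): `(F2 n).ncard = C(n + n, n)`.
`card_Mix`: for `L = lin S hS ∈ Mix m R` (`n = 2 m + 1`): let `i` be the number of elements of the first chain below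
the element `m` of the second chain; `m + 1 ≤ i ≤ m + R`, `pre S (m + i) = i` and `m + i ∉ S`, i.e.
`win S (m + i) 1 = ∅` (the element `m` of the second chain has the position `m + i`: `Sᶜ.orderEmbOfFin m`, with `m`
elements of `Sᶜ` and `i` elements of `S` below it; `lin_lr`, `lin_rl`: from `L (inl m) (inr m)` and `L (inr m) (inl (m + R))`). With `card_win`
(`t₀ = m + i`, `W = 1`, `π = ∅`) the number of such `S` is at most
`∑ i, C(m + i, i) C(4 m + 1 - m - i, 2 m + 1 - i)`, `i = m + j`, `j = 1..R`: `C(2 m + j, m + j) C(2 m + 1 - j, m + 1 - j)`.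
-/

namespace Pool.Agent.H59.ST

open Pool.Agent.H45.Corr

private theorem Win_pre_le {n : ℕ} (S : Finset (Fin n)) (t : ℕ) : TN.pre S t ≤ n := by
  unfold TN.pre
  refine (Finset.card_le_card (Finset.subset_univ _)).trans ?_
  rw [Finset.card_univ, Fintype.card_fin]

private theorem Win_pre_mono {n : ℕ} (S : Finset (Fin n)) {s t : ℕ} (h : s ≤ t) :
    TN.pre S s ≤ TN.pre S t := by
  unfold TN.pre
  apply Finset.card_le_card
  intro x hx
  rw [Finset.mem_filter] at hx ⊢
  exact ⟨hx.1, lt_of_lt_of_le hx.2 h⟩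

private theorem Win_pre_add_le {n : ℕ} (S : Finset (Fin n)) {s d : ℕ} (h : s + d ≤ n) :
    TN.pre S (s + d) ≤ TN.pre S s + d := by
  rw [TN.pre_add S h (le_refl d)]
  exact Nat.add_le_add_left (Win_pre_le _ _) _

private theorem Win_pre_all {n : ℕ} (S : Finset (Fin n)) : TN.pre S n = S.card := by
  unfold TN.pre
  rw [Finset.filter_true_of_mem]
  intro x _
  exact x.2

private theorem Win_find {n m : ℕ} (S : Finset (Fin n)) (h : S.card + m < n) :
    ∃ t, t + 1 ≤ n ∧ TN.pre S t + m = t ∧ TN.win S t 1 = ∅ ∧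
      (∀ s, s ≤ n → TN.pre S s + m < s → t + 1 ≤ s) ∧
      (∀ s, s ≤ n → s ≤ TN.pre S s + m → s ≤ t) := by
  classical
  have hex : ∃ s, s ≤ n ∧ TN.pre S s + m < s := ⟨n, le_refl n, by rw [Win_pre_all]; exact h⟩
  obtain ⟨hf1, hf2⟩ := Nat.find_spec hex
  have hmin := fun s => Nat.find_min hex (m := s)
  have hmin' := fun s (hs : s ≤ n ∧ TN.pre S s + m < s) => Nat.find_min' hex hs
  generalize Nat.find hex = f at hf1 hf2 hmin hmin'
  obtain ⟨t, rfl⟩ : ∃ t, f = t + 1 := ⟨f - 1, by omega⟩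
  have h1 : ¬ (t ≤ n ∧ TN.pre S t + m < t) := hmin t (by omega)
  have h2 : t ≤ TN.pre S t + m := by
    by_contra hc
    exact h1 ⟨by omega, by omega⟩
  have h3 := Win_pre_mono S (show t ≤ t + 1 by omega)
  have h4 : TN.pre S t + m = t := by omega
  have h5 : TN.pre S (t + 1) = TN.pre S t := by omega
  refine ⟨t, hf1, h4, ?_, fun s hs1 hs2 => hmin' s ⟨hs1, hs2⟩, ?_⟩
  · have h6 := TN.pre_add S hf1 (le_refl 1)
    have h7 : TN.pre (TN.win S t 1) 1 = 0 := by omega
    rw [Win_pre_all] at h7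
    exact Finset.card_eq_zero.1 h7
  · intro s hs1 hs2
    by_contra hc
    obtain ⟨d, rfl⟩ : ∃ d, s = t + 1 + d := ⟨s - (t + 1), by omega⟩
    have h6 := Win_pre_add_le S hs1
    omega

theorem card_F2 (n : ℕ) : (F2 n).ncard = (n + n).choose n := by
  classical
  have h : ((Finset.powersetCard n (Finset.univ : Finset (Fin (n + n))) :
      Finset (Finset (Fin (n + n)))) : Set (Finset (Fin (n + n)))).ncard = (F2 n).ncard := by
    refine Set.ncard_congr
      (fun S hS => TN.lin (N₁ := n) (N₂ := n) S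
        (Finset.mem_powersetCard.1 (Finset.mem_coe.1 hS)).2) ?_ ?_ ?_
    · intro S hS p q hpq
      rcases p with p | p <;> rcases q with q | q
      · exact (TN.lin_inl _ p q).2 hpq
      · exact absurd hpq (fun h => h)
      · exact absurd hpq (fun h => h)
      · exact (TN.lin_inr _ p q).2 hpq
    · intro S S' hS hS' hh
      exact TN.lin_eq hh
    · intro L hL
      obtain ⟨S, hS, hSL⟩ := TN.lin_surj L (fun x y hxy => hL x y hxy)
      exact ⟨S, Finset.mem_coe.2 (Finset.mem_powersetCard.2 ⟨Finset.subset_univ _, hS⟩), hSL⟩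
  rw [← h, Set.ncard_coe_finset, Finset.card_powersetCard, Finset.card_univ, Fintype.card_fin]

private def Win_T (m j : ℕ) : Finset (Finset (Fin ((2 * m + 1) + (2 * m + 1)))) := by
  classical
  exact (Finset.univ : Finset (Finset (Fin ((2 * m + 1) + (2 * m + 1))))).filter
    (fun S => S.card = 2 * m + 1 ∧ TN.pre S (2 * m + j) = m + j ∧ TN.win S (2 * m + j) 1 = ∅)

private theorem Win_T_card {m j : ℕ} (hj : j ≤ m) :
    (Win_T m j).card = (2 * m + j).choose (m + j) * (2 * m + 1 - j).choose (m + 1 - j) := by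
  classical
  have h := TN.card_win (n := (2 * m + 1) + (2 * m + 1)) (t₀ := 2 * m + j) (W := 1)
    (by omega) (2 * m + 1) (m + j) ∅ (by rw [Finset.card_empty]; omega)
  rw [Finset.card_empty] at h
  have e1 : (2 * m + 1) + (2 * m + 1) - (2 * m + j) - 1 = 2 * m + 1 - j := by omega
  have e2 : 2 * m + 1 - (m + j) - 0 = m + 1 - j := by omega
  rw [e1, e2] at h
  rw [← h]
  unfold Win_T
  congr 1

theorem card_Mix {m R : ℕ} (hR : R ≤ m) :
    {L | L ∈ F2 (2 * m + 1) ∧ L ∈ Mix m R}.ncard ≤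
      mixN m R := by
  classical
  set T : Finset (Finset (Fin ((2 * m + 1) + (2 * m + 1)))) :=
    (Finset.Icc 1 R).biUnion (Win_T m) with hT
  let U : Set {S : Finset (Fin ((2 * m + 1) + (2 * m + 1))) // S.card = 2 * m + 1} :=
    {S | S.1 ∈ T}
  have hsub : {L | L ∈ F2 (2 * m + 1) ∧ L ∈ Mix m R} ⊆
      (fun S : {S : Finset (Fin ((2 * m + 1) + (2 * m + 1))) // S.card = 2 * m + 1} =>
        TN.lin (N₁ := 2 * m + 1) (N₂ := 2 * m + 1) S.1 S.2) '' U := by
    rintro L ⟨hL, i, j, hi, hj, h1, h2⟩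
    obtain ⟨S, hS, rfl⟩ := TN.lin_surj L (fun x y hxy => hL x y hxy)
    rw [TN.lin_lr] at h1
    rw [TN.lin_rl] at h2
    rw [hi] at h1 h2
    rw [hj] at h2
    obtain ⟨t, ht1, ht2, ht3, ht4, ht5⟩ := Win_find (m := m) S (by rw [hS]; omega)
    have h3 : 2 * m + 1 ≤ t := by
      have e : m + m + 1 = 2 * m + 1 := by omega
      rw [e] at h1
      exact ht5 (2 * m + 1) (by omega) (by omega)
    have h4 : t + 1 ≤ m + R + m + 1 := ht4 (m + R + m + 1) (by omega) (by omega)
    refine ⟨⟨S, hS⟩, ?_, rfl⟩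
    change S ∈ T
    rw [hT, Finset.mem_biUnion]
    refine ⟨t - 2 * m, Finset.mem_Icc.2 ⟨by omega, by omega⟩, ?_⟩
    unfold Win_T
    rw [Finset.mem_filter]
    have e : 2 * m + (t - 2 * m) = t := by omega
    rw [e]
    exact ⟨Finset.mem_univ _, hS, by omega, ht3⟩
  have hfin : ((fun S : {S : Finset (Fin ((2 * m + 1) + (2 * m + 1))) // S.card = 2 * m + 1} =>
        TN.lin (N₁ := 2 * m + 1) (N₂ := 2 * m + 1) S.1 S.2) '' U).Finite := (Set.toFinite U).image _
  refine (Set.ncard_le_ncard hsub hfin).trans ?_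
  refine (Set.ncard_image_le (Set.toFinite U)).trans ?_
  have hU : U.ncard ≤ (T : Set (Finset (Fin ((2 * m + 1) + (2 * m + 1))))).ncard := by
    rw [← Set.ncard_image_of_injective U Subtype.val_injective]
    refine Set.ncard_le_ncard ?_ (Set.toFinite _)
    rintro _ ⟨S, hS, rfl⟩
    exact hS
  refine hU.trans ?_
  rw [Set.ncard_coe_finset, hT]
  refine Finset.card_biUnion_le.trans ?_
  unfold mixN
  refine Finset.sum_le_sum fun j hj => ?_
  rw [Finset.mem_Icc] at hj
  exact le_of_eq (Win_T_card (hj.2.trans hR))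

end Pool.Agent.H59.ST
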