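import Pool.Agent.H59.ST.Fib
import Pool.Agent.H59.ST.Win

set_option autoImplicit false

/-!
# Module Bd: almost all orderings are separated

`L ∈ Fr \ Sepd` has `two h L ∈ Mix m R` for some pair `a ≠ b` of elements of `X`: union bound over the pairs
(`Finset.card_biUnion_le` or `Set.ncard` of a finite union; at most `(Nat.card X) ^ 2` pairs). For every pair
`two_fiber` with `Q = Mix m R` and `card_F2`, `card_Mix`.
-/

namespace Pool.Agent.H59.ST

open Pool.Agent.H45.Corr

theorem bad_le {X : Type} [Finite X] {m R : ℕ} (hR : R ≤ m) :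
    {L | L ∈ Fr X (2 * m + 1) ∧ L ∉ Sepd X m R}.ncard *
        ((2 * m + 1) + (2 * m + 1)).choose (2 * m + 1) ≤
      (Fr X (2 * m + 1)).ncard * (Nat.card X ^ 2 * mixN m R) := by
  classical
  have : Fintype X := Fintype.ofFinite X
  let A : X × X → Set (LinOrd (X × Fin (2 * m + 1))) := fun p =>
    {L | ∃ h : p.1 ≠ p.2, L ∈ Fr X (2 * m + 1) ∧ two h L ∈ Mix m R}
  have hA : ∀ p : X × X, (A p).ncard * ((2 * m + 1) + (2 * m + 1)).choose (2 * m + 1) ≤
      (Fr X (2 * m + 1)).ncard * mixN m R := by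
    intro p
    by_cases h : p.1 = p.2
    · have h1 : A p = ∅ := by
        ext L
        simp only [A, Set.mem_setOf_eq, Set.mem_empty_iff_false, iff_false]
        rintro ⟨h2, _⟩
        exact h2 h
      rw [h1, Set.ncard_empty, zero_mul]
      exact Nat.zero_le _
    · have h1 : A p = {L | L ∈ Fr X (2 * m + 1) ∧ two h L ∈ Mix m R} := by
        ext L
        simp only [A, Set.mem_setOf_eq]
        constructor
        · rintro ⟨_, h2⟩
          exact h2
        · intro h2
          exact ⟨h, h2⟩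
      rw [h1, ← card_F2, two_fiber h (Mix m R)]
      exact Nat.mul_le_mul_left _ (card_Mix hR)
  have hsub : {L | L ∈ Fr X (2 * m + 1) ∧ L ∉ Sepd X m R} ⊆
      ⋃ p ∈ (Finset.univ : Finset (X × X)), A p := by
    rintro L ⟨h1, h2⟩
    have h3 : ¬ ∀ a b : X, ∀ h : a ≠ b, two h L ∉ Mix m R := h2
    push Not at h3
    obtain ⟨a, b, h, h4⟩ := h3
    simp only [Set.mem_iUnion]
    exact ⟨(a, b), Finset.mem_univ _, h, h1, h4⟩
  have h1 : {L | L ∈ Fr X (2 * m + 1) ∧ L ∉ Sepd X m R}.ncard ≤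
      ∑ p : X × X, (A p).ncard :=
    (Set.ncard_le_ncard hsub (Set.toFinite _)).trans (Finset.set_ncard_biUnion_le _ _)
  calc {L | L ∈ Fr X (2 * m + 1) ∧ L ∉ Sepd X m R}.ncard *
        ((2 * m + 1) + (2 * m + 1)).choose (2 * m + 1)
      ≤ (∑ p : X × X, (A p).ncard) * ((2 * m + 1) + (2 * m + 1)).choose (2 * m + 1) :=
        Nat.mul_le_mul_right _ h1
    _ = ∑ p : X × X, (A p).ncard * ((2 * m + 1) + (2 * m + 1)).choose (2 * m + 1) :=
        Finset.sum_mul _ _ _
    _ ≤ ∑ _p : X × X, (Fr X (2 * m + 1)).ncard * mixN m R :=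
        Finset.sum_le_sum fun p _ => hA p
    _ = (Fr X (2 * m + 1)).ncard * (Nat.card X ^ 2 * mixN m R) := by
        rw [Finset.sum_const, Finset.card_univ, Fintype.card_prod, smul_eq_mul,
          Nat.card_eq_fintype_card]
        ring

end Pool.Agent.H59.ST
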