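import Pool.Agent.H59.ST.Defs

set_option autoImplicit false

/-!
# Two different centres: the conditions which follow from the absence of unshuffles
-/

namespace Pool.Agent.H59.ST

open Pool.Agent.H45.Corr

/-- Not both `(p ∈ 𝒰, q ∉ 𝒱)` and `(p' ∉ 𝒰, q' ∈ 𝒱)`, and not both `(p ∉ 𝒰, q ∈ 𝒱)` and
`(p' ∈ 𝒰, q' ∉ 𝒱)`. -/
def NoBC {T : Type} (𝒰 𝒱 : Set (Set T)) (p q p' q' : Set T) : Prop :=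
  ¬ (p ∈ 𝒰 ∧ q ∉ 𝒱 ∧ p' ∉ 𝒰 ∧ q' ∈ 𝒱) ∧ ¬ (p ∉ 𝒰 ∧ q ∈ 𝒱 ∧ p' ∈ 𝒰 ∧ q' ∉ 𝒱)

/-- the conditions for the pair of the events `D(x) ∈ 𝒰`, `D(y) ∈ 𝒱` -/
def Cond {T : Type} (x y : T) (𝒰 𝒱 : Set (Set T)) : Prop :=
  (∀ P Q : Set T, P ⊆ Q → x ∉ Q → y ∉ Q → NoBC 𝒰 𝒱 ∅ (insert x Q) P {y}ᶜ) ∧
  (∀ P Q : Set T, P ⊆ Q → x ∉ Q → y ∉ Q → NoBC 𝒰 𝒱 ∅ {y}ᶜ P (insert x Q)) ∧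
  (∀ P Q : Set T, x ∉ P → y ∉ P → x ∉ Q → y ∉ Q → NoBC 𝒰 𝒱 P {y}ᶜ (P ∩ Q) (insert x Q)) ∧
  (∀ P Q : Set T, x ∉ P → y ∉ P → x ∉ Q → y ∉ Q →
    NoBC 𝒰 𝒱 P (insert x (P ∪ Q)) {x}ᶜ Q) ∧
  ∀ P Q : Set T, x ∉ P → y ∉ P → x ∉ Q → y ∉ Q → NoBC 𝒰 𝒱 (P ∩ Q) (insert x Q) (insert y P) ∅

end Pool.Agent.H59.ST
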