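import Pool.Agent.H59.ST.Sh

set_option autoImplicit false

/-!
# Module Cr: two different centres, the combinatorial conclusion

For `P` without `x`, `y` let `u0 P = (P ∈ 𝒰)`, `u1 P = (insert y P ∈ 𝒰)`, `v0 P = (P ∈ 𝒱)`, `v1 P = (insert x P ∈ 𝒱)`; `R = {x, y}ᶜ` is the largest
such set, `insert x R = {y}ᶜ`, `insert y R = {x}ᶜ`. We are given `P₀ ⊆ Q₀` with `u0 P₀ = 1`, `v1 Q₀ = 0` and `Q₁ ⊆ P₁` with `u1 P₁ = 0`,
`v0 Q₁ = 1`. `sheet` for `(x, y)` and for `(y, x, 𝒱, 𝒰)`: (S1) no `P ⊆ Q` with `u0 P = 0`, `v1 Q = 1`; (S2) no `Q ⊆ P`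
with `v0 Q = 0`, `u1 P = 1`. The last two conditions in `Cond x y` and `Cond y x` say: for all `P`, `Q` NOT
(E1) `u0 P = 1`, `v1 (P ∪ Q) = 0`, `u1 R = 0`, `v0 Q = 1`;
(E2) `u0 (P ∩ Q) = 1`, `v1 Q = 0`, `u1 P = 0`, `v0 ∅ = 1`;
(E3) `v0 P = 1`, `u1 (P ∪ Q) = 0`, `v1 R = 0`, `u0 Q = 1`;
(E4) `v0 (P ∩ Q) = 1`, `u1 Q = 0`, `v1 P = 0`, `u0 ∅ = 1`.
(α) If `u0 ∅ = 0`: `v1 = 0` identically by (S1). If `v0 = 1` identically, we are in the first case of the conclusion. Otherwise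
`v0 Q = 0` for some `Q ⊆ R`, so `u1 R = 0` by (S2), and (E1) with `P₀`, `Q₁` is a contradiction.
(β) If `v1 R = 1`: `u0 = 1` identically by (S1). If `u1 = 0` identically: second case. Otherwise `u1 P = 1` for some `P`,
so `v0 ∅ = 1` by (S2), and (E2) with `P = P₁`, `Q = Q₀` is a contradiction.
(γ) `v0 ∅ = 0` and (δ) `u1 R = 1` are (α), (β) with the roles of `(x, 𝒰)` and `(y, 𝒱)` exchanged (or: `u1 = 0` identically, and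
if `u0` is not `1` identically then `v1 R = 0`, (E3) with `Q₁`, `P₀`; `v0 = 1` identically, and if `v1` is not `0` identically then
`u0 ∅ = 1`, (E4) with `P = Q₀`, `Q = P₁`).
(ε) Otherwise `u0 ∅ = 1`, `v1 R = 0`, `v0 ∅ = 1`, `u1 R = 0`. (E4) with `P = R`, (E4) with `Q = R`, (E3) with `Q = ∅`, `P = ∅`, (E2) with `Q = R`,
`P = R`, (E1) with `P = ∅`, `Q = ∅` give: `u1 Q = 0 → v0 Q = 0`, `v1 P = 0 → v0 P = 0`, `v0 P = 1 → u1 P = 1`, `u0 Q = 1 → u1 Q = 1`,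
`u1 P = 0 → u0 P = 0`, `v1 Q = 0 → u0 Q = 0`, `v0 Q = 1 → v1 Q = 1`, `u0 P = 1 → v1 P = 1`. With (S1), (S2) for `P = Q`:
`u0 = v1`, `u1 = v0`, and `u0 ≤ u1`, `v0 ≤ v1`, so all four functions are equal, `= w`, with `w ∅ = 1`, `w R = 0`; `w P = 0` implies `w Q = 0` for
`P ⊆ Q` (S1); by (E3) `w P = w Q = 1` implies `w (P ∪ Q) = 1`; by (E2) `w P = w Q = 0` implies `w (P ∩ Q) = 0`. If `w {z} = 1` for
all `z ∈ R` then `w R = 1` (finite union, induction on finite subsets of `R`). So `w {z} = 0` for some `z`; if `z ∈ P` then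
`w P = 0`; if `z ∉ P` and `w P = 0` then `w (P ∩ {z}) = w ∅ = 0`, a contradiction. Third case.
-/

namespace Pool.Agent.H59.ST

open Pool.Agent.H45.Corr

theorem cross {T : Type} [Finite T] {x y : T} (hxy : x ≠ y) {𝒰 𝒱 : Set (Set T)}
    (h : Cond x y 𝒰 𝒱) (h' : Cond y x 𝒱 𝒰) {P₀ Q₀ P₁ Q₁ : Set T} (h0 : P₀ ⊆ Q₀) (hx0 : x ∉ Q₀)
    (hy0 : y ∉ Q₀) (hP0 : P₀ ∈ 𝒰) (hQ0 : insert x Q₀ ∉ 𝒱) (h1 : Q₁ ⊆ P₁) (hx1 : x ∉ P₁)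
    (hy1 : y ∉ P₁) (hP1 : insert y P₁ ∉ 𝒰) (hQ1 : Q₁ ∈ 𝒱) :
    (∀ Q : Set T, x ∉ Q → y ∉ Q → insert x Q ∉ 𝒱 ∧ Q ∈ 𝒱) ∨
    (∀ P : Set T, x ∉ P → y ∉ P → P ∈ 𝒰 ∧ insert y P ∉ 𝒰) ∨
    ∃ z, z ≠ x ∧ z ≠ y ∧ ∀ P : Set T, x ∉ P → y ∉ P →
      ((P ∈ 𝒰 ↔ z ∉ P) ∧ (insert y P ∈ 𝒰 ↔ z ∉ P) ∧ (P ∈ 𝒱 ↔ z ∉ P) ∧ (insert x P ∈ 𝒱 ↔ z ∉ P)) := by
  classical
  have S1 : ∀ P Q : Set T, P ⊆ Q → x ∉ Q → y ∉ Q → insert x Q ∈ 𝒱 → P ∈ 𝒰 := by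
    intro P Q hPQ hx hy hv
    by_contra hu
    exact sheet hxy h h0 hx0 hy0 hPQ hx hy ⟨hP0, hQ0, hu, hv⟩
  have S2 : ∀ P Q : Set T, P ⊆ Q → x ∉ Q → y ∉ Q → insert y Q ∈ 𝒰 → P ∈ 𝒱 := by
    intro P Q hPQ hx hy hv
    by_contra hu
    exact sheet hxy.symm h' h1 hy1 hx1 hPQ hy hx ⟨hQ1, hP1, hu, hv⟩
  obtain ⟨-, -, -, E1, E2⟩ := h
  obtain ⟨-, -, -, E3, E4⟩ := h'
  have e1 : ∀ P Q : Set T, x ∉ P → y ∉ P → x ∉ Q → y ∉ Q → P ∈ 𝒰 → Q ∈ 𝒱 →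
      ({x}ᶜ : Set T) ∉ 𝒰 → insert x (P ∪ Q) ∈ 𝒱 := by
    intro P Q a b c d hP hQ hR
    by_contra hn
    exact (E1 P Q a b c d).1 ⟨hP, hn, hR, hQ⟩
  have e2 : ∀ P Q : Set T, x ∉ P → y ∉ P → x ∉ Q → y ∉ Q → P ∩ Q ∈ 𝒰 → (∅ : Set T) ∈ 𝒱 →
      insert x Q ∉ 𝒱 → insert y P ∈ 𝒰 := by
    intro P Q a b c d hP hQ hR
    by_contra hn
    exact (E2 P Q a b c d).1 ⟨hP, hR, hn, hQ⟩
  have e3 : ∀ P Q : Set T, x ∉ P → y ∉ P → x ∉ Q → y ∉ Q → P ∈ 𝒱 → Q ∈ 𝒰 →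
      ({y}ᶜ : Set T) ∉ 𝒱 → insert y (P ∪ Q) ∈ 𝒰 := by
    intro P Q a b c d hP hQ hR
    by_contra hn
    exact (E3 P Q b a d c).1 ⟨hP, hn, hR, hQ⟩
  have e4 : ∀ P Q : Set T, x ∉ P → y ∉ P → x ∉ Q → y ∉ Q → P ∩ Q ∈ 𝒱 → (∅ : Set T) ∈ 𝒰 →
      insert y Q ∉ 𝒰 → insert x P ∈ 𝒱 := by
    intro P Q a b c d hP hQ hR
    by_contra hn
    exact (E4 P Q b a d c).1 ⟨hP, hR, hn, hQ⟩
  have hRx : insert x ({x, y}ᶜ : Set T) = {y}ᶜ := by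
    ext t
    simp only [Set.mem_insert_iff, Set.mem_compl_iff, Set.mem_singleton_iff]
    constructor
    · rintro (rfl | ht)
      · exact hxy
      · exact fun h => ht (Or.inr h)
    · intro ht
      by_cases hx : t = x
      · exact Or.inl hx
      · exact Or.inr fun h => h.elim hx ht
  have hRy : insert y ({x, y}ᶜ : Set T) = {x}ᶜ := by
    ext t
    simp only [Set.mem_insert_iff, Set.mem_compl_iff, Set.mem_singleton_iff]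
    constructor
    · rintro (rfl | ht)
      · exact hxy.symm
      · exact fun h => ht (Or.inl h)
    · intro ht
      by_cases hy : t = y
      · exact Or.inl hy
      · exact Or.inr fun h => h.elim ht hy
  have hxR : x ∉ ({x, y}ᶜ : Set T) := fun h => h (Or.inl rfl)
  have hyR : y ∉ ({x, y}ᶜ : Set T) := fun h => h (Or.inr rfl)
  have hR : ∀ P : Set T, x ∉ P → y ∉ P → P ⊆ ({x, y}ᶜ : Set T) := by
    intro P hx hy t ht h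
    rcases h with h | h
    · exact hx (h ▸ ht)
    · exact hy ((Set.mem_singleton_iff.1 h) ▸ ht)
  have hP0x : x ∉ P₀ := fun h => hx0 (h0 h)
  have hP0y : y ∉ P₀ := fun h => hy0 (h0 h)
  have hQ1x : x ∉ Q₁ := fun h => hx1 (h1 h)
  have hQ1y : y ∉ Q₁ := fun h => hy1 (h1 h)
  have hux : ∀ P Q : Set T, x ∉ P → x ∉ Q → x ∉ P ∪ Q := fun P Q a b h => h.elim a b
  by_cases hα : (∅ : Set T) ∈ 𝒰
  swap
  · left
    have hv1 : ∀ Q : Set T, x ∉ Q → y ∉ Q → insert x Q ∉ 𝒱 := fun Q a b hv =>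
      hα (S1 ∅ Q (Set.empty_subset _) a b hv)
    intro Q hx hy
    refine ⟨hv1 Q hx hy, ?_⟩
    by_contra hn
    have hu1 : ({x}ᶜ : Set T) ∉ 𝒰 := by
      intro hu
      rw [← hRy] at hu
      exact hn (S2 Q _ (hR Q hx hy) hxR hyR hu)
    exact hv1 (P₀ ∪ Q₁) (fun h => h.elim hP0x hQ1x) (fun h => h.elim hP0y hQ1y)
      (e1 P₀ Q₁ hP0x hP0y hQ1x hQ1y hP0 hQ1 hu1)
  by_cases hβ : ({y}ᶜ : Set T) ∈ 𝒱
  · right; left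
    have hu0 : ∀ P : Set T, x ∉ P → y ∉ P → P ∈ 𝒰 := fun P a b =>
      S1 P _ (hR P a b) hxR hyR (by rw [hRx]; exact hβ)
    intro P hx hy
    refine ⟨hu0 P hx hy, ?_⟩
    intro hn
    have hv0 : (∅ : Set T) ∈ 𝒱 := S2 ∅ P (Set.empty_subset _) hx hy hn
    exact hP1 (e2 P₁ Q₀ hx1 hy1 hx0 hy0 (hu0 _ (fun h => hx1 h.1) (fun h => hy1 h.1)) hv0 hQ0)
  by_cases hγ : (∅ : Set T) ∈ 𝒱
  swap
  · right; left
    have hu1 : ∀ P : Set T, x ∉ P → y ∉ P → insert y P ∉ 𝒰 := fun P a b hu =>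
      hγ (S2 ∅ P (Set.empty_subset _) a b hu)
    intro P hx hy
    refine ⟨?_, hu1 P hx hy⟩
    by_contra hn
    exact hu1 (Q₁ ∪ P₀) (fun h => h.elim hQ1x hP0x) (fun h => h.elim hQ1y hP0y)
      (e3 Q₁ P₀ hQ1x hQ1y hP0x hP0y hQ1 hP0 hβ)
  by_cases hδ : ({x}ᶜ : Set T) ∈ 𝒰
  · left
    have hv0 : ∀ P : Set T, x ∉ P → y ∉ P → P ∈ 𝒱 := fun P a b =>
      S2 P _ (hR P a b) hxR hyR (by rw [hRy]; exact hδ)
    intro Q hx hy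
    refine ⟨?_, hv0 Q hx hy⟩
    intro hn
    exact hQ0 (e4 Q₀ P₁ hx0 hy0 hx1 hy1 (hv0 _ (fun h => hx0 h.1) (fun h => hy0 h.1)) hα hP1)
  right; right
  -- all four functions are equal
  have hvu : ∀ Q : Set T, x ∉ Q → y ∉ Q → insert x Q ∈ 𝒱 → Q ∈ 𝒰 := fun Q a b =>
    S1 Q Q subset_rfl a b
  have huv : ∀ Q : Set T, x ∉ Q → y ∉ Q → insert y Q ∈ 𝒰 → Q ∈ 𝒱 := fun Q a b =>
    S2 Q Q subset_rfl a b
  have hu01 : ∀ Q : Set T, x ∉ Q → y ∉ Q → Q ∈ 𝒰 → insert y Q ∈ 𝒰 := by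
    intro Q a b hu
    have h2 := e3 ∅ Q (Set.notMem_empty _) (Set.notMem_empty _) a b hγ hu hβ
    rwa [Set.empty_union] at h2
  have hv01 : ∀ Q : Set T, x ∉ Q → y ∉ Q → Q ∈ 𝒱 → insert x Q ∈ 𝒱 := by
    intro Q a b hv
    have h2 := e1 ∅ Q (Set.notMem_empty _) (Set.notMem_empty _) a b hα hv hδ
    rwa [Set.empty_union] at h2
  have w1 : ∀ Q : Set T, x ∉ Q → y ∉ Q → (insert y Q ∈ 𝒰 ↔ Q ∈ 𝒰) := fun Q a b =>
    ⟨fun h2 => hvu Q a b (hv01 Q a b (huv Q a b h2)), hu01 Q a b⟩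
  have w2 : ∀ Q : Set T, x ∉ Q → y ∉ Q → (Q ∈ 𝒱 ↔ Q ∈ 𝒰) := fun Q a b =>
    ⟨fun h2 => hvu Q a b (hv01 Q a b h2), fun h2 => huv Q a b (hu01 Q a b h2)⟩
  have w3 : ∀ Q : Set T, x ∉ Q → y ∉ Q → (insert x Q ∈ 𝒱 ↔ Q ∈ 𝒰) := fun Q a b =>
    ⟨hvu Q a b, fun h2 => hv01 Q a b ((w2 Q a b).2 h2)⟩
  have hwR : ({x, y}ᶜ : Set T) ∉ 𝒰 := by
    intro h2
    apply hβ
    rw [← hRx]
    exact (w3 _ hxR hyR).2 h2
  have hmono : ∀ P Q : Set T, P ⊆ Q → x ∉ Q → y ∉ Q → Q ∈ 𝒰 → P ∈ 𝒰 := fun P Q hPQ a b h2 =>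
    S1 P Q hPQ a b ((w3 Q a b).2 h2)
  have hun : ∀ P Q : Set T, x ∉ P → y ∉ P → x ∉ Q → y ∉ Q → P ∈ 𝒰 → Q ∈ 𝒰 → P ∪ Q ∈ 𝒰 := by
    intro P Q a b c d hP hQ
    exact (w1 _ (fun h => h.elim a c) (fun h => h.elim b d)).1
      (e3 P Q a b c d ((w2 P a b).2 hP) hQ hβ)
  have hin : ∀ P Q : Set T, x ∉ P → y ∉ P → x ∉ Q → y ∉ Q → P ∉ 𝒰 → Q ∉ 𝒰 → P ∩ Q ∉ 𝒰 := by
    intro P Q a b c d hP hQ h2
    exact hP ((w1 P a b).1 (e2 P Q a b c d h2 hγ fun h3 => hQ ((w3 Q c d).1 h3)))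
  have hex : ∃ z, z ≠ x ∧ z ≠ y ∧ ({z} : Set T) ∉ 𝒰 := by
    by_contra hn
    push Not at hn
    have hfin : ∀ S : Set T, S.Finite → x ∉ S → y ∉ S → S ∈ 𝒰 := by
      intro S hS
      induction S, hS using Set.Finite.induction_on with
      | empty => intro _ _; exact hα
      | @insert a S ha _ ih =>
        intro hx hy
        have hxS : x ∉ S := fun h => hx (Set.mem_insert_of_mem _ h)
        have hyS : y ∉ S := fun h => hy (Set.mem_insert_of_mem _ h)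
        have hax : a ≠ x := fun h => hx (h ▸ Set.mem_insert _ _)
        have hay : a ≠ y := fun h => hy (h ▸ Set.mem_insert _ _)
        rw [Set.insert_eq]
        exact hun {a} S (fun h => hax (Set.mem_singleton_iff.1 h).symm)
          (fun h => hay (Set.mem_singleton_iff.1 h).symm) hxS hyS (hn a hax hay) (ih hxS hyS)
    exact hwR (hfin _ (Set.toFinite _) hxR hyR)
  obtain ⟨z, hzx, hzy, hz⟩ := hex
  have hxz : x ∉ ({z} : Set T) := fun h => hzx (Set.mem_singleton_iff.1 h).symm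
  have hyz : y ∉ ({z} : Set T) := fun h => hzy (Set.mem_singleton_iff.1 h).symm
  have key : ∀ P : Set T, x ∉ P → y ∉ P → (P ∈ 𝒰 ↔ z ∉ P) := by
    intro P a b
    constructor
    · intro hP hzP
      exact hz (hmono {z} P (Set.singleton_subset_iff.2 hzP) a b hP)
    · intro hzP
      by_contra hP
      have h2 := hin P {z} a b hxz hyz hP hz
      rw [Set.inter_singleton_eq_empty.2 hzP] at h2
      exact h2 hα
  refine ⟨z, hzx, hzy, fun P a b => ⟨key P a b, ?_, ?_, ?_⟩⟩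
  · rw [w1 P a b]; exact key P a b
  · rw [w2 P a b]; exact key P a b
  · rw [w3 P a b]; exact key P a b

end Pool.Agent.H59.ST
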