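import Pool.Agent.H59.TN.Defs
import Pool.Agent.H19.UC.Gen

set_option autoImplicit false

/-!
# Events determined by the set of elements below a fixed element; substitution of blocks
-/

namespace Pool.Agent.H59.ST

open Pool.Agent.H45.Corr

/-- the set of the elements of `T` which are below `x` in the ordering `L` -/
def below {T : Type} (x : T) (L : LinOrd T) : Set T := {t | L.1 t x}

/-- The ordering of `T` in which the block `φ ⁻¹ {i}` takes the place of `i` in the ordering `L` of
`T'`, and the elements of a block are sorted by `e`. -/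
def subst {T T' : Type} (φ : T → T') (e : T → ℕ) (he : ∀ s t, φ s = φ t → e s = e t → s = t)
    (L : LinOrd T') : LinOrd T :=
  ⟨fun s t => L.1 (φ s) (φ t) ∨ (φ s = φ t ∧ e s < e t),
    { trichotomous := by
        intro s t h1 h2
        push Not at h1 h2
        have h3 : φ s = φ t := L.2.trichotomous _ _ h1.1 h2.1
        exact he s t h3 (le_antisymm (h2.2 h3.symm) (h1.2 h3))
      irrefl := by
        rintro s (h | ⟨_, h⟩)
        · exact L.2.irrefl _ h
        · exact lt_irrefl _ h
      trans := by
        rintro s t u (h1 | ⟨h1, h2⟩) (h3 | ⟨h3, h4⟩)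
        · exact Or.inl (L.2.trans _ _ _ h1 h3)
        · exact Or.inl (h3 ▸ h1)
        · exact Or.inl (h1 ▸ h3)
        · exact Or.inr ⟨h1.trans h3, h2.trans h4⟩ }⟩

/-- the union of disjoint chains with the elements `(a, 0) < (a, 1) < ..`, `a ∈ X` -/
def chs (X : Type) (n : ℕ) : X × Fin n → X × Fin n → Prop := fun p q => p.1 = q.1 ∧ p.2 < q.2

/-- the orderings of `X × Fin n` which contain the chains -/
def Fr (X : Type) (n : ℕ) : Set (LinOrd (X × Fin n)) := {L | ∀ p q, chs X n p q → L.1 p q}

/-- the ordering of the elements with the number `i` of the chains -/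
def mids {X : Type} {n : ℕ} (i : Fin n) (L : LinOrd (X × Fin n)) : LinOrd X :=
  L.restrict ⟨fun a => (a, i), fun _ _ h => congrArg Prod.fst h⟩

/-- the restriction to two different chains -/
def two {X : Type} {n : ℕ} {a b : X} (hab : a ≠ b) (L : LinOrd (X × Fin n)) :
    LinOrd (Fin n ⊕ Fin n) :=
  L.restrict ⟨fun s => s.elim (fun i => (a, i)) (fun i => (b, i)), by
    rintro (i | i) (j | j) h
    · exact congrArg Sum.inl (congrArg Prod.snd h)
    · exact absurd (congrArg Prod.fst h) hab
    · exact absurd (congrArg Prod.fst h) hab.symm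
    · exact congrArg Sum.inr (congrArg Prod.snd h)⟩

/-- the orderings of two chains with `n` elements each -/
def F2 (n : ℕ) : Set (LinOrd (Fin n ⊕ Fin n)) := {L | ∀ p q, TN.chn n n p q → L.1 p q}

/-- the element `m` of the second chain lies between the elements `m` and `m + R` of the first one
(`n = 2 m + 1`, `R ≤ m`) -/
def Mix (m R : ℕ) : Set (LinOrd (Fin (2 * m + 1) ⊕ Fin (2 * m + 1))) :=
  {L | ∃ (i j : Fin (2 * m + 1)), i.1 = m ∧ j.1 = m + R ∧ L.1 (.inl i) (.inr i) ∧
    L.1 (.inr i) (.inl j)}

/-- the orderings in which no element with the number `m` lies between the elements `m` and `m + R`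
of another chain -/
def Sepd (X : Type) (m R : ℕ) : Set (LinOrd (X × Fin (2 * m + 1))) :=
  {L | ∀ a b : X, ∀ h : a ≠ b, two h L ∉ Mix m R}

/-- the chains, and the ordering of `X` on the elements with the number `c` of the chains -/
def GX (X : Type) [PartialOrder X] (n : ℕ) (c : Fin n) : X × Fin n → X × Fin n → Prop :=
  fun p q => chs X n p q ∨ (p.2 = c ∧ q.2 = c ∧ p.1 < q.1)

/-- the number of pairs of chains in `Mix m R`, as it is estimated in module `Win` -/
def mixN (m R : ℕ) : ℕ :=
  ∑ j ∈ Finset.Icc 1 R, (2 * m + j).choose (m + j) * (2 * m + 1 - j).choose (m + 1 - j)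

end Pool.Agent.H59.ST
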