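import Pool.Agent.H59.ST.Defs

set_option autoImplicit false

/-!
# Module Fib: two chains among many

`relabel σ L = L.restrict σ.symm.toEmbedding` is the ordering `(p, q) ↦ L (σ⁻¹ p) (σ⁻¹ q)`.
Let `K = {L ∈ Fr X n}`. For `L₂ ∈ F2 n` let `k L₂` be the number of `L ∈ Fr X n` with `two hab L = L₂`.
`k` is constant on `F2 n`: let `L₁, L₂ ∈ F2 n`; there is a bijection `π` of `Fin n ⊕ Fin n` with
`L₁ s t ↔ L₂ (π s) (π t)` (`exists_rank` twice). Extend `π` to a permutation `σ` of `X × Fin n` (conjugate by the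
embedding of `Fin n ⊕ Fin n` onto the two chains, identity elsewhere: `Equiv.Perm.extendDomain` or
`Equiv.Perm.viaEmbedding`). `L ↦ relabel σ L` maps the `L ∈ Fr X n` with `two hab L = L₁` injectively into those with
`two hab L = L₂`: the restriction to the two chains becomes `L₂`, which contains the two chains; the other
chains are not changed. Hence `k L₁ ≤ k L₂` and by symmetry equality. Summing over `L₂ ∈ Q ∩ F2 n`
(`two` maps `Fr X n` into `F2 n`): `#{L ∈ Fr | two L ∈ Q} = k #(F2 ∩ Q)`, `#Fr = k #F2`.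
-/

namespace Pool.Agent.H59.ST

open Pool.Agent.H45.Corr

private noncomputable def Fib_rk {n : ℕ} (L : LinOrd (Fin n ⊕ Fin n)) :
    Fin n ⊕ Fin n ≃ Fin (Fintype.card (Fin n ⊕ Fin n)) := (exists_rank L).choose

private lemma Fib_rk_spec {n : ℕ} (L : LinOrd (Fin n ⊕ Fin n)) (s t : Fin n ⊕ Fin n) :
    L.1 s t ↔ Fib_rk L s < Fib_rk L t := (exists_rank L).choose_spec s t

/-- the embedding of the two chains -/
private def Fib_emb {X : Type} {n : ℕ} {a b : X} (hab : a ≠ b) : Fin n ⊕ Fin n ↪ X × Fin n :=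
  ⟨fun s => s.elim (fun i => (a, i)) (fun i => (b, i)), by
    rintro (i | i) (j | j) h
    · exact congrArg Sum.inl (congrArg Prod.snd h)
    · exact absurd (congrArg Prod.fst h) hab
    · exact absurd (congrArg Prod.fst h) hab.symm
    · exact congrArg Sum.inr (congrArg Prod.snd h)⟩

private lemma Fib_two {X : Type} {n : ℕ} {a b : X} (hab : a ≠ b) (L : LinOrd (X × Fin n)) :
    two hab L = L.restrict (Fib_emb hab) := rfl

/-- the permutation of the two chains which changes the ordering `L` into the ordering `M` -/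
private noncomputable def Fib_pi {n : ℕ} (L M : LinOrd (Fin n ⊕ Fin n)) :
    Equiv.Perm (Fin n ⊕ Fin n) := (Fib_rk L).trans (Fib_rk M).symm

private noncomputable def Fib_sig {X : Type} {n : ℕ} {a b : X} (hab : a ≠ b)
    (L M : LinOrd (Fin n ⊕ Fin n)) : Equiv.Perm (X × Fin n) :=
  (Fib_pi L M).viaEmbedding (Fib_emb hab)

private lemma Fib_symm {X : Type} {n : ℕ} {a b : X} (hab : a ≠ b)
    (L M : LinOrd (Fin n ⊕ Fin n)) : (Fib_sig hab L M).symm = Fib_sig hab M L := by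
  have h : Fib_pi M L = (Fib_pi L M)⁻¹ := by
    ext x
    rfl
  unfold Fib_sig
  rw [h]
  exact (map_inv (Equiv.Perm.viaEmbeddingHom (Fib_emb hab)) (Fib_pi L M)).symm

private lemma Fib_sig_on {X : Type} {n : ℕ} {a b : X} (hab : a ≠ b)
    (L M : LinOrd (Fin n ⊕ Fin n)) (s : Fin n ⊕ Fin n) :
    Fib_sig hab L M (Fib_emb hab s) = Fib_emb hab (Fib_pi L M s) :=
  Equiv.Perm.viaEmbedding_apply _ _ _

private lemma Fib_sig_off {X : Type} {n : ℕ} {a b : X} (hab : a ≠ b)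
    (L M : LinOrd (Fin n ⊕ Fin n)) (c : X) (hca : c ≠ a) (hcb : c ≠ b) (i : Fin n) :
    Fib_sig hab L M (c, i) = (c, i) := by
  refine Equiv.Perm.viaEmbedding_apply_of_notMem _ _ _ ?_
  rintro ⟨s, hs⟩
  rcases s with j | j
  · exact hca (congrArg Prod.fst hs).symm
  · exact hcb (congrArg Prod.fst hs).symm

/-- the exchange -/
private noncomputable def Fib_f {X : Type} {n : ℕ} {a b : X} (hab : a ≠ b)
    (p : LinOrd (X × Fin n) × LinOrd (Fin n ⊕ Fin n)) :
    LinOrd (X × Fin n) × LinOrd (Fin n ⊕ Fin n) :=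
  (p.1.restrict (Fib_sig hab p.2 (two hab p.1)).toEmbedding, two hab p.1)

private lemma Fib_pi_spec {n : ℕ} (L M : LinOrd (Fin n ⊕ Fin n)) (s t : Fin n ⊕ Fin n) :
    M.1 (Fib_pi L M s) (Fib_pi L M t) ↔ L.1 s t := by
  rw [Fib_rk_spec, Fib_rk_spec L]
  simp [Fib_pi]

private lemma Fib_f_two {X : Type} {n : ℕ} {a b : X} (hab : a ≠ b)
    (p : LinOrd (X × Fin n) × LinOrd (Fin n ⊕ Fin n)) : two hab (Fib_f hab p).1 = p.2 := by
  apply Subtype.ext
  funext s t
  refine propext ?_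
  have h : (two hab (Fib_f hab p).1).1 s t ↔
      p.1.1 (Fib_sig hab p.2 (two hab p.1) (Fib_emb hab s))
        (Fib_sig hab p.2 (two hab p.1) (Fib_emb hab t)) := Iff.rfl
  rw [h, Fib_sig_on, Fib_sig_on, ← Fib_pi_spec p.2 (two hab p.1) s t]
  exact Iff.rfl

private lemma Fib_f_inv {X : Type} {n : ℕ} {a b : X} (hab : a ≠ b)
    (p : LinOrd (X × Fin n) × LinOrd (Fin n ⊕ Fin n)) : Fib_f hab (Fib_f hab p) = p := by
  have h1 : (Fib_f hab (Fib_f hab p)).2 = p.2 := Fib_f_two hab p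
  refine Prod.ext ?_ h1
  apply Subtype.ext
  funext s t
  refine propext ?_
  have h : (Fib_f hab (Fib_f hab p)).1.1 s t ↔
      p.1.1 (Fib_sig hab p.2 (two hab p.1) (Fib_sig hab (two hab p.1)
        (two hab (Fib_f hab p).1) s)) (Fib_sig hab p.2 (two hab p.1)
        (Fib_sig hab (two hab p.1) (two hab (Fib_f hab p).1) t)) := Iff.rfl
  rw [h, Fib_f_two hab p, ← Fib_symm hab p.2 (two hab p.1), Equiv.apply_symm_apply,
    Equiv.apply_symm_apply]

private lemma Fib_f_Fr {X : Type} {n : ℕ} {a b : X} (hab : a ≠ b)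
    (p : LinOrd (X × Fin n) × LinOrd (Fin n ⊕ Fin n)) (h1 : p.1 ∈ Fr X n) (h2 : p.2 ∈ F2 n) :
    (Fib_f hab p).1 ∈ Fr X n := by
  rintro ⟨c, i⟩ ⟨c', j⟩ ⟨h3, h4⟩
  simp only at h3 h4
  subst h3
  have h5 := Fib_f_two hab p
  by_cases hca : c = a
  · subst hca
    have h6 : (two hab (Fib_f hab p).1).1 (.inl i) (.inl j) := by
      rw [h5]
      exact h2 _ _ h4
    exact h6
  by_cases hcb : c = b
  · subst hcb
    have h6 : (two hab (Fib_f hab p).1).1 (.inr i) (.inr j) := by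
      rw [h5]
      exact h2 _ _ h4
    exact h6
  have h : (Fib_f hab p).1.1 (c, i) (c, j) ↔ p.1.1 (Fib_sig hab p.2 (two hab p.1) (c, i))
      (Fib_sig hab p.2 (two hab p.1) (c, j)) := Iff.rfl
  rw [h, Fib_sig_off hab _ _ c hca hcb, Fib_sig_off hab _ _ c hca hcb]
  exact h1 _ _ ⟨rfl, h4⟩

private lemma Fib_two_F2 {X : Type} {n : ℕ} {a b : X} (hab : a ≠ b) (L : LinOrd (X × Fin n))
    (h : L ∈ Fr X n) : two hab L ∈ F2 n := by
  rintro (i | i) (j | j) h1
  · exact h _ _ ⟨rfl, h1⟩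
  · exact h1.elim
  · exact h1.elim
  · exact h _ _ ⟨rfl, h1⟩

theorem two_fiber {X : Type} [Finite X] {n : ℕ} {a b : X} (hab : a ≠ b)
    (Q : Set (LinOrd (Fin n ⊕ Fin n))) :
    {L | L ∈ Fr X n ∧ two hab L ∈ Q}.ncard * (F2 n).ncard =
      (Fr X n).ncard * {L | L ∈ F2 n ∧ L ∈ Q}.ncard := by
  rw [← Set.ncard_prod, ← Set.ncard_prod]
  have hinj : Function.Injective (Fib_f (X := X) (n := n) hab) :=
    Function.LeftInverse.injective (Fib_f_inv hab)
  refine le_antisymm ?_ ?_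
  · refine Set.ncard_le_ncard_of_injOn (Fib_f hab) ?_ hinj.injOn (Set.toFinite _)
    rintro p ⟨⟨h1, h2⟩, h3⟩
    exact ⟨Fib_f_Fr hab p h1 h3, Fib_two_F2 hab _ h1, h2⟩
  · refine Set.ncard_le_ncard_of_injOn (Fib_f hab) ?_ hinj.injOn (Set.toFinite _)
    rintro p ⟨h1, ⟨h2, h3⟩⟩
    refine ⟨⟨Fib_f_Fr hab p h1 h2, ?_⟩, Fib_two_F2 hab _ h1⟩
    show two hab (Fib_f hab p).1 ∈ Q
    rw [Fib_f_two]
    exact h3

end Pool.Agent.H59.ST
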