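import Pool.Agent.H59.ST.Defs

set_option autoImplicit false

/-!
# Module Fim: the middle elements have every ordering equally often

For `σ : X ≃ X` the permutation `(a, j) ↦ (σ a, j)` of `X × Fin n` maps `Fr X n` to itself (`L ↦ L.restrict` along the
inverse permutation) and transports `mids i L` in the same way. Two orderings `L'`, `L''` of the finite
set `X` are exchanged by such a `σ` (`exists_rank` in `Pool.Agent.H45.Corr.Count`, for `L'` and for `L''`), so the two sets are in
bijection; by symmetry it is enough to show `≤`.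
-/

namespace Pool.Agent.H59.ST

open Pool.Agent.H45.Corr

private lemma Fim_exists {X : Type} [Finite X] (L M : LinOrd X) :
    ∃ σ : Equiv.Perm X, ∀ s t, M.1 (σ s) (σ t) ↔ L.1 s t := by
  let _ : Fintype X := Fintype.ofFinite X
  obtain ⟨e, he⟩ := exists_rank L
  obtain ⟨f, hf⟩ := exists_rank M
  refine ⟨e.trans f.symm, fun s t => ?_⟩
  rw [hf, he]
  simp

private def Fim_ext {X : Type} (n : ℕ) (σ : Equiv.Perm X) : Equiv.Perm (X × Fin n) :=
  σ.prodCongr (Equiv.refl (Fin n))

private lemma Fim_restrict_inj {T : Type} (σ : Equiv.Perm T) :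
    Function.Injective (fun L : LinOrd T => L.restrict σ.toEmbedding) := by
  intro L M h
  apply Subtype.ext
  funext a b
  have h1 : (L.restrict σ.toEmbedding).1 (σ.symm a) (σ.symm b) =
      (M.restrict σ.toEmbedding).1 (σ.symm a) (σ.symm b) := by
    rw [show L.restrict σ.toEmbedding = M.restrict σ.toEmbedding from h]
  have h2 : L.1 (σ (σ.symm a)) (σ (σ.symm b)) = M.1 (σ (σ.symm a)) (σ (σ.symm b)) := h1
  rwa [Equiv.apply_symm_apply, Equiv.apply_symm_apply] at h2

private lemma Fim_le {X : Type} [Finite X] {n : ℕ} (i : Fin n) (L' L'' : LinOrd X) :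
    {L | L ∈ Fr X n ∧ mids i L = L'}.ncard ≤ {L | L ∈ Fr X n ∧ mids i L = L''}.ncard := by
  obtain ⟨σ, hσ⟩ := Fim_exists L'' L'
  refine Set.ncard_le_ncard_of_injOn
    (fun L : LinOrd (X × Fin n) => L.restrict (Fim_ext n σ).toEmbedding) ?_
    (Fim_restrict_inj (Fim_ext n σ)).injOn (Set.toFinite _)
  rintro L ⟨h1, h2⟩
  refine ⟨?_, ?_⟩
  · rintro p q ⟨h3, h4⟩
    have h5 : L.1 (σ p.1, p.2) (σ q.1, q.2) := h1 _ _ ⟨congrArg σ h3, h4⟩
    exact h5
  · apply Subtype.ext
    funext a b
    refine propext ?_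
    have h5 : (mids i L).1 (σ a) (σ b) ↔ L''.1 a b := by
      rw [h2]
      exact hσ a b
    exact h5

theorem mids_fiber {X : Type} [Finite X] {n : ℕ} (i : Fin n) (L' L'' : LinOrd X) :
    {L | L ∈ Fr X n ∧ mids i L = L'}.ncard = {L | L ∈ Fr X n ∧ mids i L = L''}.ncard :=
  le_antisymm (Fim_le i L' L'') (Fim_le i L'' L')

theorem Fr_ncard_pos {X : Type} [Finite X] (n : ℕ) : 0 < (Fr X n).ncard := by
  let _ : Fintype X := Fintype.ofFinite X
  refine (Set.ncard_pos (Set.toFinite _)).2 ?_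
  let e := Fintype.equivFin X
  have hinj : Function.Injective
      (fun p : X × Fin n => ((finProdFinEquiv (e p.1, p.2)).1 : ℤ)) := by
    rintro ⟨a, j⟩ ⟨b, k⟩ h
    have h1 : (finProdFinEquiv (e a, j)) = finProdFinEquiv (e b, k) :=
      Fin.ext (Int.ofNat_injective (show ((finProdFinEquiv (e a, j)).1 : ℤ) =
        ((finProdFinEquiv (e b, k)).1 : ℤ) from h))
    have h2 := finProdFinEquiv.injective h1
    rw [Prod.mk.injEq] at h2
    rw [Prod.mk.injEq]
    exact ⟨e.injective h2.1, h2.2⟩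
  refine ⟨ordBy _ hinj, ?_⟩
  rintro ⟨a, j⟩ ⟨b, k⟩ ⟨h1, h2⟩
  simp only at h1 h2
  subst h1
  show ((finProdFinEquiv (e a, j)).1 : ℤ) < ((finProdFinEquiv (e a, k)).1 : ℤ)
  rw [finProdFinEquiv_apply_val, finProdFinEquiv_apply_val]
  have h3 : (j : ℕ) < (k : ℕ) := h2
  push_cast
  omega

theorem Fr_ncard {X : Type} [Finite X] {n : ℕ} (i : Fin n) (L' : LinOrd X) :
    (Fr X n).ncard =
      (Set.univ : Set (LinOrd X)).ncard * {L | L ∈ Fr X n ∧ mids i L = L'}.ncard := by
  classical
  let _ : Fintype (LinOrd X) := Fintype.ofFinite _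
  let _ : Fintype (LinOrd (X × Fin n)) := Fintype.ofFinite _
  have h := Finset.card_eq_sum_card_fiberwise (f := mids i) (s := (Fr X n).toFinset)
    (t := (Finset.univ : Finset (LinOrd X))) (fun _ _ => Finset.mem_coe.2 (Finset.mem_univ _))
  have h1 : ∀ M : LinOrd X, ((Fr X n).toFinset.filter (fun L => mids i L = M)).card =
      {L | L ∈ Fr X n ∧ mids i L = L'}.ncard := by
    intro M
    rw [← mids_fiber i M L', Set.ncard_eq_toFinset_card']
    congr 1
    ext L
    simp
  rw [Set.ncard_eq_toFinset_card', h, Finset.sum_congr rfl (fun M _ => h1 M), Finset.sum_const,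
    smul_eq_mul, Set.ncard_univ, Nat.card_eq_fintype_card, Finset.card_univ]

end Pool.Agent.H59.ST
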