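import Pool.Agent.H59.ST.RlA
import Pool.Agent.H59.ST.RlE
import Pool.Agent.H59.ST.Cr
import Pool.Agent.H59.TN.Srt

set_option autoImplicit false

/-!
# Module Fs: universally correlated events with different centres have a common centre

`cond_of`: every clause of `Cond x y 𝒰 𝒱` comes from `relA1`, `relA2`, `relA3`, `relE1`, `relE2`: let `b`, `c` be the orderings given
there, `Unsh b c`. If `(p, q)` has the type `(1, 0)` and `(p', q')` the type `(0, 1)` then `b ∈ U \ V`, `c ∈ V \ U`: `TN.not_unsh`; the other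
possibility is excluded by `TN.not_unsh'`. `Cond y x 𝒱 𝒰`: `cond_of` for `UnivCorr V U` (`UnivCorr.symm` in
`Pool.Agent.H45.Corr.ThreeMain`, or unfold) and `y ≠ x`.
`cross_star`: every ordering `L` has either `L.1 x y`, and then `below x L = P`, `below y L = insert x Q` with `P ⊆ Q`, `x, y ∉ Q`
(`Q = below y L \ {x}`), or `L.1 y x`, `below x L = insert y P`, `below y L = Q`, `Q ⊆ P`. Suppose that neither `U ⊆ V` nor `V ⊆ U`: there
are `b ∈ U \ V`, `c ∈ V \ U`. By `sheet` (for `(x, y)` and for `(y, x, 𝒱, 𝒰)`) `b`, `c` do not have the same one of the two forms. If `b` has the first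
form and `c` the second one, `cross` applies: in the first case `V = {L | L.1 y x}`, so with `z = x`: `𝒰' = 𝒰`,
`𝒱' = {D | y ∈ D}`; in the second case `U = {L | L.1 x y}` and with `z = y`: `𝒰' = {D | x ∈ D}`, `𝒱' = 𝒱`; in the third case `U = {L | L.1 x z}`,
`V = {L | L.1 y z}`: `𝒰' = {D | x ∈ D}`, `𝒱' = {D | y ∈ D}` (centre `z`; `z ∉ below x L ↔ L.1 x z` since `L` is total).
If `b` has the second form and `c` the first one, apply the same to the complements `𝒰ᶜ`, `𝒱ᶜ` (`Cond` for the complements is equivalent to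
`Cond`: `NoBC` for complements is `NoBC` with the two parts exchanged) and take complements of `𝒰'`, `𝒱'`.
-/

namespace Pool.Agent.H59.ST

open Pool.Agent.H45.Corr

private theorem Fs_nobc {T : Type} [Finite T] {x y : T} {𝒰 𝒱 : Set (Set T)}
    (h : UnivCorr {L | below x L ∈ 𝒰} {L | below y L ∈ 𝒱}) {p q p' q' : Set T}
    (hr : ∃ b c : LinOrd T, TN.Unsh b.1 c.1 ∧ below x b = p ∧ below y b = q ∧
      below x c = p' ∧ below y c = q') : NoBC 𝒰 𝒱 p q p' q' := by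
  obtain ⟨b, c, hu, rfl, rfl, rfl, rfl⟩ := hr
  constructor
  · rintro ⟨h1, h2, h3, h4⟩
    exact TN.not_unsh h (b := b) (c := c) ⟨h1, h2⟩ ⟨h4, h3⟩ hu
  · rintro ⟨h1, h2, h3, h4⟩
    exact TN.not_unsh' h (b := c) (c := b) ⟨h3, h4⟩ ⟨h2, h1⟩ hu

theorem cond_of {T : Type} [Finite T] {x y : T} (hxy : x ≠ y) {𝒰 𝒱 : Set (Set T)}
    (h : UnivCorr {L | below x L ∈ 𝒰} {L | below y L ∈ 𝒱}) : Cond x y 𝒰 𝒱 :=
  ⟨fun _ _ hPQ hx hy => Fs_nobc h (relA1 hxy hPQ hx hy),
    fun _ _ hPQ hx hy => Fs_nobc h (relA2 hxy hPQ hx hy),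
    fun _ _ h1 h2 h3 h4 => Fs_nobc h (relA3 hxy h1 h2 h3 h4),
    fun _ _ h1 h2 h3 h4 => Fs_nobc h (relE1 hxy h1 h2 h3 h4),
    fun _ _ h1 h2 h3 h4 => Fs_nobc h (relE2 hxy h1 h2 h3 h4)⟩

private theorem Fs_asymm {T : Type} (L : LinOrd T) {s t : T} (h1 : L.1 s t) (h2 : L.1 t s) :
    False := by
  have := L.2
  exact irrefl_of L.1 s (trans_of L.1 h1 h2)

private theorem Fs_irrefl {T : Type} (L : LinOrd T) {s : T} (h1 : L.1 s s) : False :=
  Fs_asymm L h1 h1

private theorem Fs_trans {T : Type} (L : LinOrd T) {r s t : T} (h1 : L.1 r s) (h2 : L.1 s t) :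
    L.1 r t := by
  have := L.2
  exact trans_of L.1 h1 h2

private theorem Fs_tri {T : Type} (L : LinOrd T) {s t : T} (hne : s ≠ t) (h1 : ¬ L.1 s t) :
    L.1 t s := by
  have := L.2
  rcases trichotomous_of L.1 s t with h | h | h
  · exact absurd h h1
  · exact absurd h hne
  · exact h

private theorem Fs_first {T : Type} {x y : T} (L : LinOrd T) (h : L.1 x y) :
    ∃ P Q : Set T, P ⊆ Q ∧ x ∉ Q ∧ y ∉ Q ∧ below x L = P ∧ below y L = insert x Q := by
  refine ⟨below x L, below y L \ {x}, ?_, ?_, ?_, rfl, ?_⟩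
  · intro t ht
    exact ⟨Fs_trans L ht h, fun htx => Fs_irrefl L (htx ▸ ht : L.1 x x)⟩
  · exact fun hx => hx.2 rfl
  · exact fun hy => Fs_irrefl L hy.1
  · ext t
    constructor
    · intro ht
      by_cases htx : t = x
      · exact Or.inl htx
      · exact Or.inr ⟨ht, htx⟩
    · rintro (rfl | ht)
      · exact h
      · exact ht.1

/-- the third conclusion if there are orderings of the two mixed types -/
private theorem Fs_aux {T : Type} [Finite T] {x y : T} (hxy : x ≠ y) {𝒰 𝒱 : Set (Set T)}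
    (hC : Cond x y 𝒰 𝒱) (hC' : Cond y x 𝒱 𝒰) {b c : LinOrd T}
    (hbU : below x b ∈ 𝒰) (hbV : below y b ∉ 𝒱) (hcV : below y c ∈ 𝒱) (hcU : below x c ∉ 𝒰)
    (hb : b.1 x y) (hc : c.1 y x) :
    ∃ (z : T) (𝒰' 𝒱' : Set (Set T)),
      {L : LinOrd T | below x L ∈ 𝒰} = {L | below z L ∈ 𝒰'} ∧
      {L : LinOrd T | below y L ∈ 𝒱} = {L | below z L ∈ 𝒱'} := by
  obtain ⟨P₀, Q₀, h0, hx0, hy0, e1, e2⟩ := Fs_first b hb
  obtain ⟨Q₁, P₁, h1, hy1, hx1, e3, e4⟩ := Fs_first c hc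
  rw [e1] at hbU
  rw [e2] at hbV
  rw [e3] at hcV
  rw [e4] at hcU
  rcases cross hxy hC hC' h0 hx0 hy0 hbU hbV h1 hx1 hy1 hcU hcV with h | h | ⟨z, hzx, hzy, h⟩
  · refine ⟨x, 𝒰, {D | y ∈ D}, rfl, ?_⟩
    ext L
    by_cases hL : L.1 x y
    · obtain ⟨P, Q, hPQ, hx, hy, f1, f2⟩ := Fs_first L hL
      constructor
      · intro hh
        exact absurd (show insert x Q ∈ 𝒱 from f2 ▸ hh) (h Q hx hy).1
      · intro hh
        exact (Fs_asymm L hL hh).elim
    · have hL' := Fs_tri L hxy hL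
      obtain ⟨Q, P, hQP, hy, hx, f1, f2⟩ := Fs_first L hL'
      constructor
      · intro _
        exact hL'
      · intro _
        show below y L ∈ 𝒱
        rw [f1]
        exact (h Q (fun hh => hx (hQP hh)) (fun hh => hy (hQP hh))).2
  · refine ⟨y, {D | x ∈ D}, 𝒱, ?_, rfl⟩
    ext L
    by_cases hL : L.1 x y
    · obtain ⟨P, Q, hPQ, hx, hy, f1, f2⟩ := Fs_first L hL
      constructor
      · intro _
        exact hL
      · intro _
        show below x L ∈ 𝒰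
        rw [f1]
        exact (h P (fun hh => hx (hPQ hh)) (fun hh => hy (hPQ hh))).1
    · have hL' := Fs_tri L hxy hL
      obtain ⟨Q, P, hQP, hy, hx, f1, f2⟩ := Fs_first L hL'
      constructor
      · intro hh
        exact absurd (show insert y P ∈ 𝒰 from f2 ▸ hh) (h P hx hy).2
      · intro hh
        exact absurd hh hL
  · refine ⟨z, {D | x ∈ D}, {D | y ∈ D}, ?_, ?_⟩
    · ext L
      have hz : (below x L ∈ 𝒰) ↔ z ∉ below x L := by
        by_cases hL : L.1 x y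
        · obtain ⟨P, Q, hPQ, hx, hy, f1, f2⟩ := Fs_first L hL
          rw [f1]
          exact (h P (fun hh => hx (hPQ hh)) (fun hh => hy (hPQ hh))).1
        · obtain ⟨Q, P, hQP, hy, hx, f1, f2⟩ := Fs_first L (Fs_tri L hxy hL)
          rw [f2, (h P hx hy).2.1]
          constructor
          · rintro hzP (hh | hh)
            · exact hzy hh
            · exact hzP hh
          · exact fun hh hzP => hh (Or.inr hzP)
      constructor
      · intro hh
        exact Fs_tri L hzx (hz.1 hh)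
      · intro hh
        exact hz.2 fun h2 => Fs_asymm L hh h2
    · ext L
      have hz : (below y L ∈ 𝒱) ↔ z ∉ below y L := by
        by_cases hL : L.1 x y
        · obtain ⟨P, Q, hPQ, hx, hy, f1, f2⟩ := Fs_first L hL
          rw [f2, (h Q hx hy).2.2.2]
          constructor
          · rintro hzP (hh | hh)
            · exact hzx hh
            · exact hzP hh
          · exact fun hh hzP => hh (Or.inr hzP)
        · obtain ⟨Q, P, hQP, hy, hx, f1, f2⟩ := Fs_first L (Fs_tri L hxy hL)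
          rw [f1]
          exact (h Q (fun hh => hx (hQP hh)) (fun hh => hy (hQP hh))).2.2.1
      constructor
      · intro hh
        exact Fs_tri L hzy (hz.1 hh)
      · intro hh
        exact hz.2 fun h2 => Fs_asymm L hh h2

private theorem Fs_nobc_compl {T : Type} {𝒰 𝒱 : Set (Set T)} {p q p' q' : Set T}
    (h : NoBC 𝒰 𝒱 p q p' q') : NoBC 𝒰ᶜ 𝒱ᶜ p q p' q' :=
  ⟨fun ⟨h1, h2, h3, h4⟩ => h.2 ⟨h1, not_not.1 h2, not_not.1 h3, h4⟩,
    fun ⟨h1, h2, h3, h4⟩ => h.1 ⟨not_not.1 h1, h2, h3, not_not.1 h4⟩⟩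

private theorem Fs_cond_compl {T : Type} {x y : T} {𝒰 𝒱 : Set (Set T)} (h : Cond x y 𝒰 𝒱) :
    Cond x y 𝒰ᶜ 𝒱ᶜ :=
  ⟨fun P Q a b c => Fs_nobc_compl (h.1 P Q a b c),
    fun P Q a b c => Fs_nobc_compl (h.2.1 P Q a b c),
    fun P Q a b c d => Fs_nobc_compl (h.2.2.1 P Q a b c d),
    fun P Q a b c d => Fs_nobc_compl (h.2.2.2.1 P Q a b c d),
    fun P Q a b c d => Fs_nobc_compl (h.2.2.2.2 P Q a b c d)⟩

theorem cross_star {T : Type} [Finite T] {x y : T} (hxy : x ≠ y) {𝒰 𝒱 : Set (Set T)}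
    (h : UnivCorr {L | below x L ∈ 𝒰} {L | below y L ∈ 𝒱}) :
    {L : LinOrd T | below x L ∈ 𝒰} ⊆ {L | below y L ∈ 𝒱} ∨
    {L : LinOrd T | below y L ∈ 𝒱} ⊆ {L | below x L ∈ 𝒰} ∨
    ∃ (z : T) (𝒰' 𝒱' : Set (Set T)),
      {L : LinOrd T | below x L ∈ 𝒰} = {L | below z L ∈ 𝒰'} ∧
      {L : LinOrd T | below y L ∈ 𝒱} = {L | below z L ∈ 𝒱'} := by
  by_cases hUV : {L : LinOrd T | below x L ∈ 𝒰} ⊆ {L | below y L ∈ 𝒱}
  · exact Or.inl hUV
  by_cases hVU : {L : LinOrd T | below y L ∈ 𝒱} ⊆ {L | below x L ∈ 𝒰}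
  · exact Or.inr (Or.inl hVU)
  refine Or.inr (Or.inr ?_)
  obtain ⟨b, hbU, hbV⟩ := Set.not_subset.1 hUV
  obtain ⟨c, hcV, hcU⟩ := Set.not_subset.1 hVU
  have hC : Cond x y 𝒰 𝒱 := cond_of hxy h
  have hC' : Cond y x 𝒱 𝒰 := cond_of hxy.symm (by
    intro X _ _ ι
    have := h X ι
    rw [Set.inter_comm, mul_comm]
    exact this)
  by_cases hb : b.1 x y
  · by_cases hc : c.1 x y
    · exfalso
      obtain ⟨P, Q, hPQ, hx, hy, e1, e2⟩ := Fs_first b hb
      obtain ⟨P', Q', hPQ', hx', hy', e3, e4⟩ := Fs_first c hc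
      exact sheet hxy hC hPQ hx hy hPQ' hx' hy'
        ⟨e1 ▸ hbU, e2 ▸ hbV, e3 ▸ hcU, e4 ▸ hcV⟩
    · exact Fs_aux hxy hC hC' hbU hbV hcV hcU hb (Fs_tri c hxy hc)
  · have hb' := Fs_tri b hxy hb
    by_cases hc : c.1 x y
    · obtain ⟨z, 𝒰', 𝒱', h1, h2⟩ := Fs_aux hxy (Fs_cond_compl hC) (Fs_cond_compl hC')
        (b := c) (c := b) hcU (fun hh => hh hcV) hbV (fun hh => hh hbU) hc hb'
      refine ⟨z, 𝒰'ᶜ, 𝒱'ᶜ, ?_, ?_⟩
      · ext L
        have := Set.ext_iff.1 h1 L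
        exact not_iff_not.1 (this.trans not_not.symm)
      · ext L
        have := Set.ext_iff.1 h2 L
        exact not_iff_not.1 (this.trans not_not.symm)
    · exfalso
      obtain ⟨P, Q, hPQ, hx, hy, e1, e2⟩ := Fs_first b hb'
      obtain ⟨P', Q', hPQ', hx', hy', e3, e4⟩ := Fs_first c (Fs_tri c hxy hc)
      exact sheet hxy.symm hC' hPQ' hx' hy' hPQ hx hy
        ⟨e3 ▸ hcV, e4 ▸ hcU, e1 ▸ hbV, e2 ▸ hbU⟩

end Pool.Agent.H59.ST
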