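import Pool.Agent.H59.ST.Defs

set_option autoImplicit false

/-!
# Module RlA: three unshuffles with prescribed sets below `x` and `y` (`x` stays below `y`)

Let `ρ : T → ℤ` be injective with `0 ≤ ρ < H` (`T` is finite). For a function `k : T → ℕ` let `ordK k` be the ordering by
the heights `H * k t + ρ t` (injective): it sorts by `k`, and elements with the same `k` by `ρ`. If `x` is
the only element with its value of `k`, then `below x (ordK k) = {t | k t < k x}`. All orderings `b`, `c` are of this form, with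
functions `k`, `k'` given by cases (`t = x`, `t = y`, membership in `P`, `Q`), the classes being listed from bottom to top:
(`relA1`) `b : x < P < Q \ P < y < rest`, `c : P < x < Q \ P < rest < y`, `M = {x, y}`, `cl = 0` on `{x} ∪ P`, `1` on `Q \ P`, `2` on `{y} ∪ rest`.
(`relA2`) `b : x < P < Q \ P < rest < y`, `c : P < x < Q \ P < y < rest`, `M = {x} ∪ rest`, the same `cl`.
(`relA3`) `b : P ∩ Q < P \ Q < x < Q \ P < rest < y`, `c : P ∩ Q < x < Q \ P < y < P \ Q < rest`, `cl = 0`, `M = (P \ Q) ∪ rest`.
Here `rest` are the elements different from `x`, `y` and outside the sets named. In each case the three conditions of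
`TN.Unsh` follow from: `cl s < cl t → k s < k t ∧ k' s < k' t`; for the same `cl`, `s ∈ M`, `t ∉ M`: `k' t < k' s`; for the same `cl`, both in `M` or
both not in `M`: `k s < k t ↔ k' s < k' t` and `k s = k t ↔ k' s = k' t` (finitely many cases: `split_ifs`/`by_cases` and `omega`).
-/

namespace Pool.Agent.H59.ST

open Pool.Agent.H45.Corr

/-- the ordering by `k`, elements with the same `k` are sorted by a fixed enumeration -/
private noncomputable def rlA_ord {T : Type} [Finite T] (k : T → ℕ) : LinOrd T :=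
  ⟨fun s t => k s < k t ∨ (k s = k t ∧ (Finite.equivFin T s).1 < (Finite.equivFin T t).1),
    { trichotomous := by
        intro s t h1 h2
        push Not at h1 h2
        have h3 : k s = k t := le_antisymm h2.1 h1.1
        have h4 := h1.2 h3
        have h5 := h2.2 h3.symm
        exact (Finite.equivFin T).injective (Fin.ext (le_antisymm h5 h4))
      irrefl := by
        rintro s (h | ⟨_, h⟩)
        · exact lt_irrefl _ h
        · exact lt_irrefl _ h
      trans := by
        rintro s t u (h1 | ⟨h1, h2⟩) (h3 | ⟨h3, h4⟩)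
        · exact Or.inl (h1.trans h3)
        · exact Or.inl (h3 ▸ h1)
        · exact Or.inl (h1 ▸ h3)
        · exact Or.inr ⟨h1.trans h3, h2.trans h4⟩ }⟩

private theorem rlA_unsh {T : Type} [Finite T] {n : ℕ} (c : T → Fin n) (K K' CL : Fin n → ℕ)
    (S : Fin n → Bool)
    (h1 : ∀ i j, CL i < CL j → K i < K j ∧ K' i < K' j)
    (h2 : ∀ i j, CL i = CL j → S i = true → S j = false → K' j < K' i)
    (h3 : ∀ i j, CL i = CL j → S i = S j → (K i < K j ↔ K' i < K' j) ∧ (K i = K j ↔ K' i = K' j)) :
    TN.Unsh (rlA_ord fun t => K (c t)).1 (rlA_ord fun t => K' (c t)).1 := by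
  refine ⟨fun t => CL (c t), {t | S (c t) = true}, ?_, ?_, ?_⟩
  · intro s t h
    exact ⟨Or.inl (h1 _ _ h).1, Or.inl (h1 _ _ h).2⟩
  · intro s t h hs ht
    refine Or.inl (h2 _ _ h hs ?_)
    simpa using ht
  · intro s t h hM
    have h4 : S (c s) = S (c t) := by
      simp only [Set.mem_setOf_eq] at hM
      cases hs : S (c s) <;> cases ht : S (c t) <;> simp_all
    obtain ⟨h5, h6⟩ := h3 _ _ h h4
    constructor
    · rintro (h7 | ⟨h7, h8⟩)
      · exact Or.inl (h5.1 h7)
      · exact Or.inr ⟨h6.1 h7, h8⟩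
    · rintro (h7 | ⟨h7, h8⟩)
      · exact Or.inl (h5.2 h7)
      · exact Or.inr ⟨h6.2 h7, h8⟩

private theorem rlA_below {T : Type} [Finite T] (k : T → ℕ) (x : T) (hx : ∀ t, k t = k x → t = x) :
    below x (rlA_ord k) = {t | k t < k x} := by
  ext t
  constructor
  · rintro (h | ⟨h, h'⟩)
    · exact h
    · rw [hx t h] at h'
      exact absurd h' (lt_irrefl _)
  · intro h
    exact Or.inl h

theorem relA1 {T : Type} [Finite T] {x y : T} (hxy : x ≠ y) {P Q : Set T} (hPQ : P ⊆ Q)
    (hx : x ∉ Q) (hy : y ∉ Q) :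
    ∃ b c : LinOrd T, TN.Unsh b.1 c.1 ∧ below x b = ∅ ∧ below y b = insert x Q ∧
      below x c = P ∧ below y c = {y}ᶜ := by
  classical
  set c : T → Fin 5 := fun t => if t = x then 0 else if t = y then 1 else if t ∈ P then 2 else
    if t ∈ Q then 3 else 4 with hc
  have cx : ∀ t, c t = 0 ↔ t = x := by
    intro t
    simp only [hc]
    split_ifs <;> simp_all
  have cy : ∀ t, c t = 1 ↔ t = y := by
    intro t
    simp only [hc]
    split_ifs <;> simp_all
  have cP : ∀ t, c t = 2 ↔ t ∈ P := by
    intro t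
    have h0 : t ∈ P → t ≠ x ∧ t ≠ y := fun h =>
      ⟨fun h' => hx (h' ▸ hPQ h), fun h' => hy (h' ▸ hPQ h)⟩
    simp only [hc]
    split_ifs <;> simp_all
  have cQ : ∀ t, (c t = 2 ∨ c t = 3) ↔ t ∈ Q := by
    intro t
    have h0 : t ∈ P → t ∈ Q := fun h => hPQ h
    have h1 : t ∈ Q → t ≠ x ∧ t ≠ y := fun h => ⟨fun h' => hx (h' ▸ h), fun h' => hy (h' ▸ h)⟩
    simp only [hc]
    split_ifs <;> simp_all

  refine ⟨rlA_ord fun t => (![0, 3, 1, 2, 4]) (c t), rlA_ord fun t => (![1, 4, 0, 2, 3]) (c t), ?_, ?_, ?_, ?_, ?_⟩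
  · exact rlA_unsh c (![0, 3, 1, 2, 4]) (![1, 4, 0, 2, 3]) (![0, 2, 0, 1, 2]) (![true, true, false, false, false]) (by decide) (by decide) (by decide)
  · rw [rlA_below _ x (fun t h => (cx t).1 ?_)]
    · ext t
      have hcx : c x = 0 := (cx x).2 rfl
      simp [hcx]
    · have hcx : c x = 0 := (cx x).2 rfl
      rw [hcx] at h
      revert h
      generalize c t = i
      revert i
      decide
  · rw [rlA_below _ y (fun t h => (cy t).1 ?_)]
    · ext t
      have hcy : c y = 1 := (cy y).2 rfl
      rw [Set.mem_insert_iff, ← cx, ← cQ, Set.mem_setOf_eq, hcy]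
      generalize c t = i
      revert i
      decide
    · have hcy : c y = 1 := (cy y).2 rfl
      rw [hcy] at h
      revert h
      generalize c t = i
      revert i
      decide
  · rw [rlA_below _ x (fun t h => (cx t).1 ?_)]
    · ext t
      have hcx : c x = 0 := (cx x).2 rfl
      rw [← cP, Set.mem_setOf_eq, hcx]
      generalize c t = i
      revert i
      decide
    · have hcx : c x = 0 := (cx x).2 rfl
      rw [hcx] at h
      revert h
      generalize c t = i
      revert i
      decide
  · rw [rlA_below _ y (fun t h => (cy t).1 ?_)]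
    · ext t
      have hcy : c y = 1 := (cy y).2 rfl
      rw [Set.mem_compl_iff, Set.mem_singleton_iff, ← cy, Set.mem_setOf_eq, hcy]
      generalize c t = i
      revert i
      decide
    · have hcy : c y = 1 := (cy y).2 rfl
      rw [hcy] at h
      revert h
      generalize c t = i
      revert i
      decide

theorem relA2 {T : Type} [Finite T] {x y : T} (hxy : x ≠ y) {P Q : Set T} (hPQ : P ⊆ Q)
    (hx : x ∉ Q) (hy : y ∉ Q) :
    ∃ b c : LinOrd T, TN.Unsh b.1 c.1 ∧ below x b = ∅ ∧ below y b = {y}ᶜ ∧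
      below x c = P ∧ below y c = insert x Q := by
  classical
  set c : T → Fin 5 := fun t => if t = x then 0 else if t = y then 1 else if t ∈ P then 2 else
    if t ∈ Q then 3 else 4 with hc
  have cx : ∀ t, c t = 0 ↔ t = x := by
    intro t
    simp only [hc]
    split_ifs <;> simp_all
  have cy : ∀ t, c t = 1 ↔ t = y := by
    intro t
    simp only [hc]
    split_ifs <;> simp_all
  have cP : ∀ t, c t = 2 ↔ t ∈ P := by
    intro t
    have h0 : t ∈ P → t ≠ x ∧ t ≠ y := fun h =>
      ⟨fun h' => hx (h' ▸ hPQ h), fun h' => hy (h' ▸ hPQ h)⟩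
    simp only [hc]
    split_ifs <;> simp_all
  have cQ : ∀ t, (c t = 2 ∨ c t = 3) ↔ t ∈ Q := by
    intro t
    have h0 : t ∈ P → t ∈ Q := fun h => hPQ h
    have h1 : t ∈ Q → t ≠ x ∧ t ≠ y := fun h => ⟨fun h' => hx (h' ▸ h), fun h' => hy (h' ▸ h)⟩
    simp only [hc]
    split_ifs <;> simp_all

  refine ⟨rlA_ord fun t => (![0, 4, 1, 2, 3]) (c t), rlA_ord fun t => (![1, 3, 0, 2, 4]) (c t), ?_, ?_, ?_, ?_, ?_⟩
  · exact rlA_unsh c (![0, 4, 1, 2, 3]) (![1, 3, 0, 2, 4]) (![0, 2, 0, 1, 2]) (![true, false, false, false, true]) (by decide) (by decide) (by decide)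
  · rw [rlA_below _ x (fun t h => (cx t).1 ?_)]
    · ext t
      have hcx : c x = 0 := (cx x).2 rfl
      simp [hcx]
    · have hcx : c x = 0 := (cx x).2 rfl
      rw [hcx] at h
      revert h
      generalize c t = i
      revert i
      decide
  · rw [rlA_below _ y (fun t h => (cy t).1 ?_)]
    · ext t
      have hcy : c y = 1 := (cy y).2 rfl
      rw [Set.mem_compl_iff, Set.mem_singleton_iff, ← cy, Set.mem_setOf_eq, hcy]
      generalize c t = i
      revert i
      decide
    · have hcy : c y = 1 := (cy y).2 rfl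
      rw [hcy] at h
      revert h
      generalize c t = i
      revert i
      decide
  · rw [rlA_below _ x (fun t h => (cx t).1 ?_)]
    · ext t
      have hcx : c x = 0 := (cx x).2 rfl
      rw [← cP, Set.mem_setOf_eq, hcx]
      generalize c t = i
      revert i
      decide
    · have hcx : c x = 0 := (cx x).2 rfl
      rw [hcx] at h
      revert h
      generalize c t = i
      revert i
      decide
  · rw [rlA_below _ y (fun t h => (cy t).1 ?_)]
    · ext t
      have hcy : c y = 1 := (cy y).2 rfl
      rw [Set.mem_insert_iff, ← cx, ← cQ, Set.mem_setOf_eq, hcy]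
      generalize c t = i
      revert i
      decide
    · have hcy : c y = 1 := (cy y).2 rfl
      rw [hcy] at h
      revert h
      generalize c t = i
      revert i
      decide

theorem relA3 {T : Type} [Finite T] {x y : T} (hxy : x ≠ y) {P Q : Set T}
    (hxP : x ∉ P) (hyP : y ∉ P) (hxQ : x ∉ Q) (hyQ : y ∉ Q) :
    ∃ b c : LinOrd T, TN.Unsh b.1 c.1 ∧ below x b = P ∧ below y b = {y}ᶜ ∧
      below x c = P ∩ Q ∧ below y c = insert x Q := by
  classical
  set c : T → Fin 6 := fun t => if t = x then 0 else if t = y then 1 else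
    if t ∈ P then (if t ∈ Q then 2 else 3) else if t ∈ Q then 4 else 5 with hc
  have cx : ∀ t, c t = 0 ↔ t = x := by
    intro t
    simp only [hc]
    split_ifs <;> simp_all
  have cy : ∀ t, c t = 1 ↔ t = y := by
    intro t
    simp only [hc]
    split_ifs <;> simp_all
  have cP : ∀ t, (c t = 2 ∨ c t = 3) ↔ t ∈ P := by
    intro t
    have h0 : t ∈ P → t ≠ x ∧ t ≠ y := fun h => ⟨fun h' => hxP (h' ▸ h), fun h' => hyP (h' ▸ h)⟩
    simp only [hc]
    split_ifs <;> simp_all
  have cQ : ∀ t, (c t = 2 ∨ c t = 4) ↔ t ∈ Q := by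
    intro t
    have h1 : t ∈ Q → t ≠ x ∧ t ≠ y := fun h => ⟨fun h' => hxQ (h' ▸ h), fun h' => hyQ (h' ▸ h)⟩
    simp only [hc]
    split_ifs <;> simp_all

  refine ⟨rlA_ord fun t => (![2, 5, 0, 1, 3, 4]) (c t), rlA_ord fun t => (![1, 3, 0, 4, 2, 5]) (c t), ?_, ?_, ?_, ?_, ?_⟩
  · exact rlA_unsh c (![2, 5, 0, 1, 3, 4]) (![1, 3, 0, 4, 2, 5]) (![0, 0, 0, 0, 0, 0]) (![false, false, false, true, false, true]) (by decide) (by decide) (by decide)
  · rw [rlA_below _ x (fun t h => (cx t).1 ?_)]
    · ext t
      have hcx : c x = 0 := (cx x).2 rfl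
      rw [← cP, Set.mem_setOf_eq, hcx]
      generalize c t = i
      revert i
      decide
    · have hcx : c x = 0 := (cx x).2 rfl
      rw [hcx] at h
      revert h
      generalize c t = i
      revert i
      decide
  · rw [rlA_below _ y (fun t h => (cy t).1 ?_)]
    · ext t
      have hcy : c y = 1 := (cy y).2 rfl
      rw [Set.mem_compl_iff, Set.mem_singleton_iff, ← cy, Set.mem_setOf_eq, hcy]
      generalize c t = i
      revert i
      decide
    · have hcy : c y = 1 := (cy y).2 rfl
      rw [hcy] at h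
      revert h
      generalize c t = i
      revert i
      decide
  · rw [rlA_below _ x (fun t h => (cx t).1 ?_)]
    · ext t
      have hcx : c x = 0 := (cx x).2 rfl
      rw [Set.mem_inter_iff, ← cP, ← cQ, Set.mem_setOf_eq, hcx]
      generalize c t = i
      revert i
      decide
    · have hcx : c x = 0 := (cx x).2 rfl
      rw [hcx] at h
      revert h
      generalize c t = i
      revert i
      decide
  · rw [rlA_below _ y (fun t h => (cy t).1 ?_)]
    · ext t
      have hcy : c y = 1 := (cy y).2 rfl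
      rw [Set.mem_insert_iff, ← cx, ← cQ, Set.mem_setOf_eq, hcy]
      generalize c t = i
      revert i
      decide
    · have hcy : c y = 1 := (cy y).2 rfl
      rw [hcy] at h
      revert h
      generalize c t = i
      revert i
      decide

end Pool.Agent.H59.ST
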