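import Pool.Agent.H59.ST.Cnd

set_option autoImplicit false

/-!
# Module Sh: the orderings with `x` below `y`

Write `u P` for `P ∈ 𝒰` and `v Q` for `insert x Q ∈ 𝒱` (`x, y ∉ P, Q`; the largest such set is `R = {x, y}ᶜ`, and
`insert x R = {y}ᶜ`). Let `a = u ∅`, `b = v R`. (i) There are no `P ⊆ Q` with `u P ≠ a` and `v Q ≠ b`: the first two
conditions say that `(∅, Q)`, `(P, R)` and `(∅, R)`, `(P, Q)` are not of the types `(1, 0)`, `(0, 1)` in any order;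
their types are `(a, ¬ b)`, `(¬ a, b)` and `(a, b)`, `(¬ a, ¬ b)`; if `a = b` the first two, if `a ≠ b` the last two are
of the types `(1, 0)`, `(0, 1)`. (ii) If `a = b` then there are no `P₁`, `Q₁` with `u P₁ ≠ a`, `v Q₁ ≠ b`: by (i) for `P₁ ∩ Q₁ ⊆ Q₁`
`u (P₁ ∩ Q₁) = a`, and `(P₁, R)`, `(P₁ ∩ Q₁, Q₁)` have the types `(¬ a, b)`, `(a, ¬ b)`, excluded by the third condition.
Now let `(P, Q)` have the type `(1, 0)` and `(P', Q')` the type `(0, 1)`. One of `P`, `P'` has `u ≠ a` and one of `Q`, `Q'` has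
`v ≠ b`, so by (ii) `a ≠ b`. If `a = 1`, `b = 0` then `P' ⊆ Q'` contradicts (i), if `a = 0`, `b = 1` then `P ⊆ Q` does.
-/

namespace Pool.Agent.H59.ST

open Pool.Agent.H45.Corr

theorem sheet {T : Type} {x y : T} (hxy : x ≠ y) {𝒰 𝒱 : Set (Set T)} (h : Cond x y 𝒰 𝒱)
    {P Q P' Q' : Set T} (hPQ : P ⊆ Q) (hx : x ∉ Q) (hy : y ∉ Q) (hPQ' : P' ⊆ Q') (hx' : x ∉ Q')
    (hy' : y ∉ Q') : ¬ (P ∈ 𝒰 ∧ insert x Q ∉ 𝒱 ∧ P' ∉ 𝒰 ∧ insert x Q' ∈ 𝒱) := by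
  obtain ⟨h1, h2, h3, -, -⟩ := h
  have hxP : x ∉ P := fun hh => hx (hPQ hh)
  have hyP : y ∉ P := fun hh => hy (hPQ hh)
  have hxP' : x ∉ P' := fun hh => hx' (hPQ' hh)
  have hyP' : y ∉ P' := fun hh => hy' (hPQ' hh)
  have a1 := h1 P Q hPQ hx hy
  have a2 := h2 P Q hPQ hx hy
  have a3 := h1 P' Q' hPQ' hx' hy'
  have a4 := h2 P' Q' hPQ' hx' hy'
  have key : ∀ P₁ Q₁ : Set T, x ∉ P₁ → y ∉ P₁ → x ∉ Q₁ → y ∉ Q₁ →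
      ((∅ : Set T) ∈ 𝒰 ↔ ({y}ᶜ : Set T) ∈ 𝒱) → ¬ (P₁ ∈ 𝒰 ↔ (∅ : Set T) ∈ 𝒰) →
      (insert x Q₁ ∈ 𝒱 ↔ ({y}ᶜ : Set T) ∈ 𝒱) := by
    intro P₁ Q₁ c1 c2 c3 c4 hab hP1
    have b1 := h1 (P₁ ∩ Q₁) Q₁ Set.inter_subset_right c3 c4
    have b2 := h2 (P₁ ∩ Q₁) Q₁ Set.inter_subset_right c3 c4
    have b3 := h3 P₁ Q₁ c1 c2 c3 c4
    unfold NoBC at b1 b2 b3
    tauto
  have k1 := key P Q hxP hyP hx hy
  have k2 := key P Q' hxP hyP hx' hy'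
  have k3 := key P' Q hxP' hyP' hx hy
  have k4 := key P' Q' hxP' hyP' hx' hy'
  clear key h1 h2 h3
  unfold NoBC at a1 a2 a3 a4
  rintro ⟨g1, g2, g3, g4⟩
  by_cases e1 : (∅ : Set T) ∈ 𝒰 <;> by_cases e2 : ({y}ᶜ : Set T) ∈ 𝒱 <;> simp_all

end Pool.Agent.H59.ST
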