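import Pool.Agent.H59.ST.Defs
import Pool.Agent.H59.TN.Srt

set_option autoImplicit false

/-!
# Module StC: comparable sets

Let `D ⊆ D'`, `x ∉ D'`, `D` in one of `𝒰 \ 𝒱`, `𝒱 \ 𝒰` and `D'` in the other one (by symmetry of the statement treat
`D ∈ 𝒰 \ 𝒱`, `D' ∈ 𝒱 \ 𝒰` and `D' ∈ 𝒰 \ 𝒱`, `D ∈ 𝒱 \ 𝒰`). Let `ρ : T → ℕ` be injective (`T` finite) with values `< H`.
Height functions: `b = ρ` on `D`, `H` at `x`, `2 H + 1 + ρ` on `D' \ D`, `6 H + 6 + ρ` elsewhere;
`c` the same except that `x` has the height `3 H + 2` (above `D' \ D`, below the rest). `below x b = D`, `below x c = D'`, and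
`Unsh b c` holds with `M = {x}` and `cl = 0` on `D`, `1` on `{x} ∪ D' \ D`, `2` elsewhere. `not_unsh`/`not_unsh'` of module
`TN.Srt` (for `(U, V)` with `b ∈ U \ V`, or `c ∈ U \ V`).
-/

namespace Pool.Agent.H59.ST

open Pool.Agent.H45.Corr

open Classical in
private noncomputable def StC_ht {T : Type} (x : T) (D D' : Set T) (ρ : T → ℤ) (H h : ℤ) : T → ℤ :=
  fun t => if t ∈ D then ρ t else if t = x then h else if t ∈ D' then 2 * H + 1 + ρ t
    else 6 * H + 6 + ρ t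

private theorem StC_D {T : Type} {x : T} {D D' : Set T} {ρ : T → ℤ} {H h : ℤ} {t : T}
    (ht : t ∈ D) : StC_ht x D D' ρ H h t = ρ t := by
  simp [StC_ht, ht]

private theorem StC_x {T : Type} {x : T} {D D' : Set T} {ρ : T → ℤ} {H h : ℤ}
    (hx : x ∉ D) : StC_ht x D D' ρ H h x = h := by
  simp [StC_ht, hx]

private theorem StC_D' {T : Type} {x : T} {D D' : Set T} {ρ : T → ℤ} {H h : ℤ} {t : T}
    (h1 : t ∉ D) (h2 : t ≠ x) (h3 : t ∈ D') : StC_ht x D D' ρ H h t = 2 * H + 1 + ρ t := by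
  simp [StC_ht, h1, h2, h3]

private theorem StC_r {T : Type} {x : T} {D D' : Set T} {ρ : T → ℤ} {H h : ℤ} {t : T}
    (h1 : t ∉ D) (h2 : t ≠ x) (h3 : t ∉ D') : StC_ht x D D' ρ H h t = 6 * H + 6 + ρ t := by
  simp [StC_ht, h1, h2, h3]

private theorem StC_cases {T : Type} (x : T) (D D' : Set T) (t : T) :
    t ∈ D ∨ (t ∉ D ∧ t = x) ∨ (t ∉ D ∧ t ≠ x ∧ t ∈ D') ∨ (t ∉ D ∧ t ≠ x ∧ t ∉ D') := by
  tauto

private theorem StC_inj {T : Type} {x : T} {D D' : Set T} {ρ : T → ℤ} {H h : ℤ}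
    (hi : Function.Injective ρ) (h0 : ∀ t, 0 ≤ ρ t) (hH : ∀ t, ρ t < H)
    (hh : h = H ∨ h = 3 * H + 2) :
    Function.Injective (StC_ht x D D' ρ H h) := by
  intro s t hst
  have a1 := h0 s
  have a2 := h0 t
  have a3 := hH s
  have a4 := hH t
  rcases StC_cases x D D' s with h1 | ⟨h1, h1'⟩ | ⟨h1, h1', h1''⟩ | ⟨h1, h1', h1''⟩ <;>
  rcases StC_cases x D D' t with h2 | ⟨h2, h2'⟩ | ⟨h2, h2', h2''⟩ | ⟨h2, h2', h2''⟩
  · rw [StC_D h1, StC_D h2] at hst; exact hi hst
  · subst h2'; rw [StC_D h1, StC_x h2] at hst; omega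
  · rw [StC_D h1, StC_D' h2 h2' h2''] at hst; omega
  · rw [StC_D h1, StC_r h2 h2' h2''] at hst; omega
  · subst h1'; rw [StC_x h1, StC_D h2] at hst; omega
  · rw [h1', h2']
  · subst h1'; rw [StC_x h1, StC_D' h2 h2' h2''] at hst; omega
  · subst h1'; rw [StC_x h1, StC_r h2 h2' h2''] at hst; omega
  · rw [StC_D' h1 h1' h1'', StC_D h2] at hst; omega
  · subst h2'; rw [StC_D' h1 h1' h1'', StC_x h2] at hst; omega
  · rw [StC_D' h1 h1' h1'', StC_D' h2 h2' h2''] at hst; exact hi (by omega)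
  · rw [StC_D' h1 h1' h1'', StC_r h2 h2' h2''] at hst; omega
  · rw [StC_r h1 h1' h1'', StC_D h2] at hst; omega
  · subst h2'; rw [StC_r h1 h1' h1'', StC_x h2] at hst; omega
  · rw [StC_r h1 h1' h1'', StC_D' h2 h2' h2''] at hst; omega
  · rw [StC_r h1 h1' h1'', StC_r h2 h2' h2''] at hst; exact hi (by omega)

theorem star_comp {T : Type} [Finite T] (x : T) (𝒰 𝒱 : Set (Set T))
    (h : UnivCorr {L | below x L ∈ 𝒰} {L | below x L ∈ 𝒱}) {D D' : Set T} (hD : D ⊆ D')
    (hx : x ∉ D') : ¬ ((D ∈ 𝒰 \ 𝒱 ∧ D' ∈ 𝒱 \ 𝒰) ∨ (D' ∈ 𝒰 \ 𝒱 ∧ D ∈ 𝒱 \ 𝒰)) := by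
  classical
  have : Fintype T := Fintype.ofFinite T
  have hxD : x ∉ D := fun h => hx (hD h)
  set ρ : T → ℤ := fun t => ((Fintype.equivFin T t).1 : ℤ) with hρ
  set H : ℤ := (Fintype.card T : ℤ) with hHd
  have hi : Function.Injective ρ := fun s t hst => by
    apply (Fintype.equivFin T).injective
    apply Fin.ext
    simp only [hρ] at hst
    exact_mod_cast hst
  have h0 : ∀ t, 0 ≤ ρ t := fun t => Int.natCast_nonneg _
  have hH : ∀ t, ρ t < H := fun t => by
    have := (Fintype.equivFin T t).2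
    simp only [hρ, hHd]
    exact_mod_cast this
  have hH0 : 0 < H := lt_of_le_of_lt (h0 x) (hH x)
  set b := StC_ht x D D' ρ H H with hb
  set c := StC_ht x D D' ρ H (3 * H + 2) with hc
  have hbi : Function.Injective b := StC_inj hi h0 hH (Or.inl rfl)
  have hci : Function.Injective c := StC_inj hi h0 hH (Or.inr rfl)
  have hbD : below x (ordBy b hbi) = D := by
    ext t
    change b t < b x ↔ t ∈ D
    have a1 := h0 t
    have a2 := hH t
    have hbx : b x = H := StC_x hxD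
    rcases StC_cases x D D' t with h2 | ⟨h2, h2'⟩ | ⟨h2, h2', h2''⟩ | ⟨h2, h2', h2''⟩
    · have : b t = ρ t := StC_D h2
      exact ⟨fun _ => h2, fun _ => by omega⟩
    · subst h2'
      exact ⟨fun h => absurd h (lt_irrefl _), fun h => absurd h h2⟩
    · have : b t = 2 * H + 1 + ρ t := StC_D' h2 h2' h2''
      exact ⟨fun h => by omega, fun h => absurd h h2⟩
    · have : b t = 6 * H + 6 + ρ t := StC_r h2 h2' h2''
      exact ⟨fun h => by omega, fun h => absurd h h2⟩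
  have hcD : below x (ordBy c hci) = D' := by
    ext t
    change c t < c x ↔ t ∈ D'
    have a1 := h0 t
    have a2 := hH t
    have hcx : c x = 3 * H + 2 := StC_x hxD
    rcases StC_cases x D D' t with h2 | ⟨h2, h2'⟩ | ⟨h2, h2', h2''⟩ | ⟨h2, h2', h2''⟩
    · have : c t = ρ t := StC_D h2
      exact ⟨fun _ => hD h2, fun _ => by omega⟩
    · subst h2'
      exact ⟨fun h => absurd h (lt_irrefl _), fun h => absurd h hx⟩
    · have : c t = 2 * H + 1 + ρ t := StC_D' h2 h2' h2''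
      exact ⟨fun _ => h2'', fun _ => by omega⟩
    · have : c t = 6 * H + 6 + ρ t := StC_r h2 h2' h2''
      exact ⟨fun h => by omega, fun h => absurd h h2''⟩
  have hU : TN.Unsh (ordBy b hbi).1 (ordBy c hci).1 := by
    refine ⟨fun t => if t ∈ D then 0 else if t = x ∨ t ∈ D' then 1 else 2, {x}, ?_, ?_, ?_⟩
    · intro s t hst
      change b s < b t ∧ c s < c t
      have a1 := h0 s
      have a2 := h0 t
      have a3 := hH s
      have a4 := hH t
      rcases StC_cases x D D' s with h1 | ⟨h1, h1'⟩ | ⟨h1, h1', h1''⟩ | ⟨h1, h1', h1''⟩ <;>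
      rcases StC_cases x D D' t with h2 | ⟨h2, h2'⟩ | ⟨h2, h2', h2''⟩ | ⟨h2, h2', h2''⟩
      · simp [h1, h2] at hst
      · subst h2'; rw [hb, hc, StC_D h1, StC_x h2, StC_D h1, StC_x h2]; omega
      · rw [hb, hc, StC_D h1, StC_D' h2 h2' h2'', StC_D h1, StC_D' h2 h2' h2'']; omega
      · rw [hb, hc, StC_D h1, StC_r h2 h2' h2'', StC_D h1, StC_r h2 h2' h2'']; omega
      · simp [h1, h2] at hst
      · simp [h1, h2, h1', h2'] at hst
      · simp [h1, h2, h1', h2', h2'', hxD] at hst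
      · subst h1'; rw [hb, hc, StC_x h1, StC_r h2 h2' h2'', StC_x h1, StC_r h2 h2' h2'']; omega
      · simp [h1, h2] at hst
      · simp [h1, h2, h1', h2', h1'', hxD] at hst
      · simp [h1, h2, h1', h2', h1'', h2''] at hst
      · rw [hb, hc, StC_D' h1 h1' h1'', StC_r h2 h2' h2'', StC_D' h1 h1' h1'',
          StC_r h2 h2' h2'']; omega
      · simp [h1, h2] at hst
      · simp [h1, h2, h1', h2', h1'', hxD] at hst
      · simp [h1, h2, h1', h2', h1'', h2''] at hst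
      · simp [h1, h2, h1', h2', h1'', h2''] at hst
    · intro s t hst hs ht
      obtain rfl : s = x := hs
      have htx : t ≠ s := fun h => ht h
      change c t < c s
      have a1 := h0 t
      have a2 := hH t
      rcases StC_cases s D D' t with h2 | ⟨h2, h2'⟩ | ⟨h2, h2', h2''⟩ | ⟨h2, h2', h2''⟩
      · simp [hxD, h2] at hst
      · exact absurd h2' htx
      · rw [hc, StC_D' h2 h2' h2'', StC_x hxD]; omega
      · simp [hxD, h2, h2', h2''] at hst
    · intro s t _ hm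
      change b s < b t ↔ c s < c t
      have hm' : s = x ↔ t = x := hm
      by_cases hs : s = x
      · have ht := hm'.1 hs
        subst hs; subst ht
        exact ⟨fun h => absurd h (lt_irrefl _), fun h => absurd h (lt_irrefl _)⟩
      · have ht : t ≠ x := fun h => hs (hm'.2 h)
        have e1 : ∀ u, u ≠ x → b u = c u := fun u hu => by
          simp [hb, hc, StC_ht, hu]
        rw [e1 s hs, e1 t ht]
  rintro (⟨h1, h2⟩ | ⟨h1, h2⟩)
  · exact TN.not_unsh h (b := ordBy b hbi) (c := ordBy c hci)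
      ⟨by change below x _ ∈ 𝒰; rw [hbD]; exact h1.1, by
        change ¬ (below x _ ∈ 𝒱); rw [hbD]; exact h1.2⟩
      ⟨by change below x _ ∈ 𝒱; rw [hcD]; exact h2.1, by
        change ¬ (below x _ ∈ 𝒰); rw [hcD]; exact h2.2⟩ hU
  · exact TN.not_unsh' h (b := ordBy c hci) (c := ordBy b hbi)
      ⟨by change below x _ ∈ 𝒰; rw [hcD]; exact h1.1, by
        change ¬ (below x _ ∈ 𝒱); rw [hcD]; exact h1.2⟩
      ⟨by change below x _ ∈ 𝒱; rw [hbD]; exact h2.1, by
        change ¬ (below x _ ∈ 𝒰); rw [hbD]; exact h2.2⟩ hU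

end Pool.Agent.H59.ST
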