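import Pool.Agent.H59.ST.Asm
import Pool.Agent.H59.ST.StC

set_option autoImplicit false

/-!
# Module StN: events determined by the set below `x`, necessity

Let `D ∈ 𝒰 \ 𝒱`, `D' ∈ 𝒱 \ 𝒰`, both without `x`. By `star_comp` they are not comparable, and neither
`D ∩ D'` nor `D ∪ D'` lies in `𝒰 \ 𝒱` or `𝒱 \ 𝒰` (`D ∩ D' ⊆ D, D'`, `D ∪ D' ⊇ D, D'`). So each of them is in `𝒰 ∩ 𝒱` or outside
`𝒰 ∪ 𝒱`, and we must exclude that both are of the same kind. `φ : T → Fin 5`: `0` on `D ∩ D'`, `1` at `x`,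
`2` on `D \ D'`, `3` on `D' \ D`, `4` elsewhere; `e = ρ` injective. `contraction` gives a universally correlated
pair `(U', V')` on `Fin 5`; apply `ext_prod` with `ι = id` (`Function.Embedding.refl`) and the relation `G i j ↔ (i = 0 ∧ j ≠ 0) ∨
(j = 4 ∧ i ≠ 4)`. For an ordering `L'` of `Fin 5` containing `G`: `below x (subst φ e L')` is `D ∩ D'`,
`D`, `D'` or `D ∪ D'` according to which of `2`, `3` are below `1`. If `D ∩ D'` and `D ∪ D'` are both in `𝒰 ∩ 𝒱`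
then `gExt G (U' ∪ V')ᶜ = ∅`; if both are outside `𝒰 ∪ 𝒱` then `gExt G (U' ∩ V') = ∅`. So by `ext_prod` `gExt G (U' \ V')` or
`gExt G (V' \ U')` is empty; but they contain the orderings `0 < 2 < 1 < 3 < 4` and `0 < 3 < 1 < 2 < 4` (given by height functions, `ordBy`).
-/

namespace Pool.Agent.H59.ST

open Pool.Agent.H45.Corr

private theorem StN_asymm {X : Type} (L : LinOrd X) {a b : X} (h : L.1 a b) : ¬ L.1 b a :=
  fun h' => L.2.irrefl a (L.2.trans a b a h h')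

open Classical in
private noncomputable def StN_phi {T : Type} (x : T) (D D' : Set T) (t : T) : Fin 5 :=
  if t ∈ D ∧ t ∈ D' then 0 else if t = x then 1 else if t ∈ D then 2 else if t ∈ D' then 3 else 4

private def StN_G : Fin 5 → Fin 5 → Prop := fun i j => (i = 0 ∧ j ≠ 0) ∨ (j = 4 ∧ i ≠ 4)

private theorem StN_mem {T : Type} (x : T) (D D' : Set T) (hx : x ∉ D) (hx' : x ∉ D') (e : T → ℕ)
    (he : ∀ s t, StN_phi x D D' s = StN_phi x D D' t → e s = e t → s = t) (L : LinOrd (Fin 5))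
    (h01 : L.1 0 1) (h14 : L.1 1 4) (t : T) :
    t ∈ below x (subst (StN_phi x D D') e he L) ↔
      (t ∈ D ∧ t ∈ D') ∨ (t ∈ D ∧ t ∉ D' ∧ L.1 2 1) ∨ (t ∉ D ∧ t ∈ D' ∧ L.1 3 1) := by
  have hphx : StN_phi x D D' x = 1 := by simp [StN_phi, hx]
  change (L.1 (StN_phi x D D' t) (StN_phi x D D' x) ∨
    (StN_phi x D D' t = StN_phi x D D' x ∧ e t < e x)) ↔ _
  rw [hphx]
  have h41 : ¬ L.1 4 1 := StN_asymm L h14
  have h11 : ¬ L.1 1 1 := L.2.irrefl 1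
  by_cases h1 : t ∈ D <;> by_cases h2 : t ∈ D'
  · have : StN_phi x D D' t = 0 := by simp [StN_phi, h1, h2]
    rw [this]
    simp [h1, h2, h01]
  · have htx : t ≠ x := fun h => hx (h ▸ h1)
    have : StN_phi x D D' t = 2 := by simp [StN_phi, h1, h2, htx]
    rw [this]
    have h21 : (2 : Fin 5) ≠ 1 := by decide
    simp [h1, h2, h21]
  · have htx : t ≠ x := fun h => hx' (h ▸ h2)
    have : StN_phi x D D' t = 3 := by simp [StN_phi, h1, h2, htx]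
    rw [this]
    have h31 : (3 : Fin 5) ≠ 1 := by decide
    simp [h1, h2, h31]
  · by_cases htx : t = x
    · subst htx
      rw [hphx]
      simp [h1, h2, h11]
    · have : StN_phi x D D' t = 4 := by simp [StN_phi, h1, h2, htx]
      rw [this]
      have h41' : (4 : Fin 5) ≠ 1 := by decide
      simp [h1, h2, h41, h41']

private theorem StN_below {T : Type} (x : T) (D D' : Set T) (hx : x ∉ D) (hx' : x ∉ D')
    (e : T → ℕ) (he : ∀ s t, StN_phi x D D' s = StN_phi x D D' t → e s = e t → s = t)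
    (L : LinOrd (Fin 5)) (h01 : L.1 0 1) (h14 : L.1 1 4) :
    (L.1 2 1 → L.1 3 1 → below x (subst (StN_phi x D D') e he L) = D ∪ D') ∧
    (L.1 2 1 → ¬ L.1 3 1 → below x (subst (StN_phi x D D') e he L) = D) ∧
    (¬ L.1 2 1 → L.1 3 1 → below x (subst (StN_phi x D D') e he L) = D') ∧
    (¬ L.1 2 1 → ¬ L.1 3 1 → below x (subst (StN_phi x D D') e he L) = D ∩ D') := by
  have key := StN_mem x D D' hx hx' e he L h01 h14
  refine ⟨fun h2 h3 => ?_, fun h2 h3 => ?_, fun h2 h3 => ?_, fun h2 h3 => ?_⟩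
  · ext t
    rw [key t]
    simp only [h2, h3, and_true, Set.mem_union]
    tauto
  · ext t
    rw [key t]
    simp only [h2, h3, and_true, and_false, or_false]
    tauto
  · ext t
    rw [key t]
    simp only [h2, h3, and_true, and_false, false_or]
    tauto
  · ext t
    rw [key t]
    simp only [h2, h3, and_false, or_false, Set.mem_inter_iff]

theorem star_nec {T : Type} [Finite T] (x : T) (𝒰 𝒱 : Set (Set T))
    (h : UnivCorr {L | below x L ∈ 𝒰} {L | below x L ∈ 𝒱}) :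
    ∀ D ∈ 𝒰 \ 𝒱, ∀ D' ∈ 𝒱 \ 𝒰, x ∉ D → x ∉ D' →
      (D ∩ D' ∈ 𝒰 ∩ 𝒱 ∧ D ∪ D' ∉ 𝒰 ∪ 𝒱) ∨ (D ∪ D' ∈ 𝒰 ∩ 𝒱 ∧ D ∩ D' ∉ 𝒰 ∪ 𝒱) := by
  intro D hD D' hD' hx hx'
  have hxu : x ∉ D ∪ D' := by
    rintro (h1 | h1)
    · exact hx h1
    · exact hx' h1
  -- the intersection and the union are of the same kind for both events
  have c1 : D ∩ D' ∉ 𝒰 \ 𝒱 := fun h1 =>
    star_comp x 𝒰 𝒱 h (Set.inter_subset_right : D ∩ D' ⊆ D') hx' (Or.inl ⟨h1, hD'⟩)
  have c2 : D ∩ D' ∉ 𝒱 \ 𝒰 := fun h1 =>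
    star_comp x 𝒰 𝒱 h (Set.inter_subset_left : D ∩ D' ⊆ D) hx (Or.inr ⟨hD, h1⟩)
  have c3 : D ∪ D' ∉ 𝒱 \ 𝒰 := fun h1 =>
    star_comp x 𝒰 𝒱 h (Set.subset_union_left : D ⊆ D ∪ D') hxu (Or.inl ⟨hD, h1⟩)
  have c4 : D ∪ D' ∉ 𝒰 \ 𝒱 := fun h1 =>
    star_comp x 𝒰 𝒱 h (Set.subset_union_right : D' ⊆ D ∪ D') hxu (Or.inr ⟨h1, hD'⟩)
  have : Fintype T := Fintype.ofFinite T
  set e : T → ℕ := fun t => (Fintype.equivFin T t).1 with hedef
  have he : ∀ s t, StN_phi x D D' s = StN_phi x D D' t → e s = e t → s = t := by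
    intro s t _ hst
    exact (Fintype.equivFin T).injective (Fin.ext hst)
  have hcon := contraction h (StN_phi x D D') e he
  have hprod := ext_prod (Function.Embedding.refl (Fin 5)) StN_G hcon
  have hres : ∀ L : LinOrd (Fin 5), L.restrict (Function.Embedding.refl (Fin 5)) = L :=
    fun L => rfl
  have hfin : ∀ S : Set (LinOrd (Fin 5)), S.Finite := by
    intro S
    have : Finite (LinOrd (Fin 5)) :=
      inferInstanceAs (Finite {r : Fin 5 → Fin 5 → Prop // IsStrictTotalOrder (Fin 5) r})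
    exact S.toFinite
  have h01 : ∀ L : LinOrd (Fin 5), (∀ a b, StN_G a b → L.1 a b) → L.1 0 1 := fun L hL =>
    hL 0 1 (Or.inl ⟨rfl, by decide⟩)
  have h14 : ∀ L : LinOrd (Fin 5), (∀ a b, StN_G a b → L.1 a b) → L.1 1 4 := fun L hL =>
    hL 1 4 (Or.inr ⟨rfl, by decide⟩)
  -- the two orderings
  have hp1 : Function.Injective (![0, 2, 1, 3, 4] : Fin 5 → ℤ) := by decide
  have hp2 : Function.Injective (![0, 2, 3, 1, 4] : Fin 5 → ℤ) := by decide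
  have hG1 : ∀ a b, StN_G a b → (ordBy _ hp1).1 a b := by
    intro a b hab
    change (![0, 2, 1, 3, 4] : Fin 5 → ℤ) a < (![0, 2, 1, 3, 4] : Fin 5 → ℤ) b
    rcases hab with ⟨rfl, hb⟩ | ⟨rfl, ha⟩
    · revert b; decide
    · revert a; decide
  have hG2 : ∀ a b, StN_G a b → (ordBy _ hp2).1 a b := by
    intro a b hab
    change (![0, 2, 3, 1, 4] : Fin 5 → ℤ) a < (![0, 2, 3, 1, 4] : Fin 5 → ℤ) b
    rcases hab with ⟨rfl, hb⟩ | ⟨rfl, ha⟩
    · revert b; decide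
    · revert a; decide
  have hb1 : below x (subst (StN_phi x D D') e he (ordBy _ hp1)) = D := by
    refine (StN_below x D D' hx hx' e he _ (h01 _ hG1) (h14 _ hG1)).2.1 ?_ ?_
    · change (![0, 2, 1, 3, 4] : Fin 5 → ℤ) 2 < (![0, 2, 1, 3, 4] : Fin 5 → ℤ) 1
      decide
    · change ¬ ((![0, 2, 1, 3, 4] : Fin 5 → ℤ) 3 < (![0, 2, 1, 3, 4] : Fin 5 → ℤ) 1)
      decide
  have hb2 : below x (subst (StN_phi x D D') e he (ordBy _ hp2)) = D' := by
    refine (StN_below x D D' hx hx' e he _ (h01 _ hG2) (h14 _ hG2)).2.2.1 ?_ ?_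
    · change ¬ ((![0, 2, 3, 1, 4] : Fin 5 → ℤ) 2 < (![0, 2, 3, 1, 4] : Fin 5 → ℤ) 1)
      decide
    · change (![0, 2, 3, 1, 4] : Fin 5 → ℤ) 3 < (![0, 2, 3, 1, 4] : Fin 5 → ℤ) 1
      decide
  have pos1 : 0 < (Pool.Agent.H19.UC.gExt (Function.Embedding.refl (Fin 5)) StN_G
      ({L | subst (StN_phi x D D') e he L ∈ {L | below x L ∈ 𝒰}} \
        {L | subst (StN_phi x D D') e he L ∈ {L | below x L ∈ 𝒱}})).ncard := by
    refine (Set.ncard_pos (hfin _)).2 ⟨ordBy _ hp1, hG1, ?_⟩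
    rw [hres]
    constructor
    · change below x _ ∈ 𝒰
      rw [hb1]; exact hD.1
    · change ¬ (below x _ ∈ 𝒱)
      rw [hb1]; exact hD.2
  have pos2 : 0 < (Pool.Agent.H19.UC.gExt (Function.Embedding.refl (Fin 5)) StN_G
      ({L | subst (StN_phi x D D') e he L ∈ {L | below x L ∈ 𝒱}} \
        {L | subst (StN_phi x D D') e he L ∈ {L | below x L ∈ 𝒰}})).ncard := by
    refine (Set.ncard_pos (hfin _)).2 ⟨ordBy _ hp2, hG2, ?_⟩
    rw [hres]
    constructor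
    · change below x _ ∈ 𝒱
      rw [hb2]; exact hD'.1
    · change ¬ (below x _ ∈ 𝒰)
      rw [hb2]; exact hD'.2
  have hpos := lt_of_lt_of_le (Nat.mul_pos pos1 pos2) hprod
  -- both of the same kind is impossible
  have n1 : ¬ (D ∩ D' ∈ 𝒰 ∩ 𝒱 ∧ D ∪ D' ∈ 𝒰 ∩ 𝒱) := by
    rintro ⟨hA, hB⟩
    have hzero : (Pool.Agent.H19.UC.gExt (Function.Embedding.refl (Fin 5)) StN_G
        ({L | subst (StN_phi x D D') e he L ∈ {L | below x L ∈ 𝒰}} ∪
          {L | subst (StN_phi x D D') e he L ∈ {L | below x L ∈ 𝒱}})ᶜ).ncard = 0 := by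
      rw [Set.ncard_eq_zero (hfin _)]
      rw [Set.eq_empty_iff_forall_notMem]
      rintro L ⟨hL, hL2⟩
      rw [hres] at hL2
      have q := StN_below x D D' hx hx' e he L (h01 L hL) (h14 L hL)
      apply hL2
      by_cases h2 : L.1 2 1 <;> by_cases h3 : L.1 3 1
      · left; change below x _ ∈ 𝒰; rw [q.1 h2 h3]; exact hB.1
      · left; change below x _ ∈ 𝒰; rw [q.2.1 h2 h3]; exact hD.1
      · right; change below x _ ∈ 𝒱; rw [q.2.2.1 h2 h3]; exact hD'.1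
      · left; change below x _ ∈ 𝒰; rw [q.2.2.2 h2 h3]; exact hA.1
    rw [hzero, mul_zero] at hpos
    exact lt_irrefl _ hpos
  have n2 : ¬ (D ∩ D' ∉ 𝒰 ∪ 𝒱 ∧ D ∪ D' ∉ 𝒰 ∪ 𝒱) := by
    rintro ⟨hA, hB⟩
    have hzero : (Pool.Agent.H19.UC.gExt (Function.Embedding.refl (Fin 5)) StN_G
        ({L | subst (StN_phi x D D') e he L ∈ {L | below x L ∈ 𝒰}} ∩
          {L | subst (StN_phi x D D') e he L ∈ {L | below x L ∈ 𝒱}})).ncard = 0 := by
      rw [Set.ncard_eq_zero (hfin _)]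
      rw [Set.eq_empty_iff_forall_notMem]
      rintro L ⟨hL, hL2⟩
      rw [hres] at hL2
      have q := StN_below x D D' hx hx' e he L (h01 L hL) (h14 L hL)
      have hL3 : below x (subst (StN_phi x D D') e he L) ∈ 𝒰 := hL2.1
      have hL4 : below x (subst (StN_phi x D D') e he L) ∈ 𝒱 := hL2.2
      by_cases h2 : L.1 2 1 <;> by_cases h3 : L.1 3 1
      · rw [q.1 h2 h3] at hL3; exact hB (Or.inl hL3)
      · rw [q.2.1 h2 h3] at hL4; exact hD.2 hL4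
      · rw [q.2.2.1 h2 h3] at hL3; exact hD'.2 hL3
      · rw [q.2.2.2 h2 h3] at hL3; exact hA (Or.inl hL3)
    rw [hzero, zero_mul] at hpos
    exact lt_irrefl _ hpos
  have kA : D ∩ D' ∈ 𝒰 ∩ 𝒱 ∨ D ∩ D' ∉ 𝒰 ∪ 𝒱 := by
    by_cases a1 : D ∩ D' ∈ 𝒰 <;> by_cases a2 : D ∩ D' ∈ 𝒱
    · exact Or.inl ⟨a1, a2⟩
    · exact absurd ⟨a1, a2⟩ c1
    · exact absurd ⟨a2, a1⟩ c2
    · exact Or.inr (fun h => h.elim a1 a2)
  have kB : D ∪ D' ∈ 𝒰 ∩ 𝒱 ∨ D ∪ D' ∉ 𝒰 ∪ 𝒱 := by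
    by_cases a1 : D ∪ D' ∈ 𝒰 <;> by_cases a2 : D ∪ D' ∈ 𝒱
    · exact Or.inl ⟨a1, a2⟩
    · exact absurd ⟨a1, a2⟩ c4
    · exact absurd ⟨a2, a1⟩ c3
    · exact Or.inr (fun h => h.elim a1 a2)
  rcases kA with kA | kA <;> rcases kB with kB | kB
  · exact absurd ⟨kA, kB⟩ n1
  · exact Or.inl ⟨kA, kB⟩
  · exact Or.inr ⟨kB, kA⟩
  · exact absurd ⟨kA, kB⟩ n2

end Pool.Agent.H59.ST
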