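import Pool.Agent.H59.ST.Anc

set_option autoImplicit false

/-!
# Module StS: events determined by the set below `x`, sufficiency

`anchored`: for `b`, `c` injective with `b x = c x`: `below x (ordBy b) = {t | b t < b x} =: D`, the same for `c`: `D'`;
`below x (ordBy (b ⊓ c)) = {t | min (b t) (c t) < b x} = D ∪ D'` and `below x (ordBy (b ⊔ c)) = D ∩ D'`. Neither
contains `x`.
-/

namespace Pool.Agent.H59.ST

open Pool.Agent.H45.Corr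

theorem star_suff {T : Type} (x : T) (𝒰 𝒱 : Set (Set T))
    (h : ∀ D ∈ 𝒰 \ 𝒱, ∀ D' ∈ 𝒱 \ 𝒰, x ∉ D → x ∉ D' →
      (D ∩ D' ∈ 𝒰 ∩ 𝒱 ∧ D ∪ D' ∉ 𝒰 ∪ 𝒱) ∨ (D ∪ D' ∈ 𝒰 ∩ 𝒱 ∧ D ∩ D' ∉ 𝒰 ∪ 𝒱)) :
    UnivCorr {L | below x L ∈ 𝒰} {L | below x L ∈ 𝒱} := by
  refine anchored (x := x) ?_
  intro b c hb hc hm hj hbc hB hC
  have e1 : below x (ordBy (b ⊓ c) hm) = {t | b t < b x} ∪ {t | c t < c x} := by
    ext t
    show (b ⊓ c) t < (b ⊓ c) x ↔ b t < b x ∨ c t < c x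
    rw [Pi.inf_apply, Pi.inf_apply, ← hbc, inf_idem, inf_lt_iff]
  have e2 : below x (ordBy (b ⊔ c) hj) = {t | b t < b x} ∩ {t | c t < c x} := by
    ext t
    show (b ⊔ c) t < (b ⊔ c) x ↔ b t < b x ∧ c t < c x
    rw [Pi.sup_apply, Pi.sup_apply, ← hbc, sup_idem, sup_lt_iff]
  have hb1 : {t | b t < b x} ∈ 𝒰 \ 𝒱 := hB
  have hc1 : {t | c t < c x} ∈ 𝒱 \ 𝒰 := hC
  have key := h _ hb1 _ hc1 (fun hx => lt_irrefl _ (show b x < b x from hx))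
    (fun hx => lt_irrefl _ (show c x < c x from hx))
  rw [← e1, ← e2] at key
  rcases key with ⟨k1, k2⟩ | ⟨k1, k2⟩
  · exact Or.inr ⟨k1, k2⟩
  · exact Or.inl ⟨k1, k2⟩

end Pool.Agent.H59.ST
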