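import Pool.Agent.H59.ST.StS
import Pool.Agent.H59.ST.StN

set_option autoImplicit false

/-!
# Events determined by the set of elements below a fixed element: the complete criterion
-/

namespace Pool.Agent.H59.ST

open Pool.Agent.H45.Corr

theorem star {T : Type} [Finite T] (x : T) (𝒰 𝒱 : Set (Set T)) :
    UnivCorr {L | below x L ∈ 𝒰} {L | below x L ∈ 𝒱} ↔
      ∀ D ∈ 𝒰 \ 𝒱, ∀ D' ∈ 𝒱 \ 𝒰, x ∉ D → x ∉ D' →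
        (D ∩ D' ∈ 𝒰 ∩ 𝒱 ∧ D ∪ D' ∉ 𝒰 ∪ 𝒱) ∨ (D ∪ D' ∈ 𝒰 ∩ 𝒱 ∧ D ∩ D' ∉ 𝒰 ∪ 𝒱) :=
  ⟨star_nec x 𝒰 𝒱, star_suff x 𝒰 𝒱⟩

end Pool.Agent.H59.ST
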