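import Pool.Agent.H59.ST.Str
import Pool.Agent.H59.ST.Fs
import Pool.Agent.H45.Corr.ThreeMain

set_option autoImplicit false

/-!
# The complete criterion for two events each of which is given by the comparisons with one element
-/

namespace Pool.Agent.H59.ST

open Pool.Agent.H45.Corr

/-- the criterion for two events given by the comparisons with the same element `x` -/
def Crit {T : Type} (x : T) (𝒰 𝒱 : Set (Set T)) : Prop :=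
  ∀ D ∈ 𝒰 \ 𝒱, ∀ D' ∈ 𝒱 \ 𝒰, x ∉ D → x ∉ D' →
    (D ∩ D' ∈ 𝒰 ∩ 𝒱 ∧ D ∪ D' ∉ 𝒰 ∪ 𝒱) ∨ (D ∪ D' ∈ 𝒰 ∩ 𝒱 ∧ D ∩ D' ∉ 𝒰 ∪ 𝒱)

theorem stars {T : Type} [Finite T] (x y : T) (𝒰 𝒱 : Set (Set T)) :
    UnivCorr {L : LinOrd T | below x L ∈ 𝒰} {L | below y L ∈ 𝒱} ↔
      {L : LinOrd T | below x L ∈ 𝒰} ⊆ {L | below y L ∈ 𝒱} ∨
      {L : LinOrd T | below y L ∈ 𝒱} ⊆ {L | below x L ∈ 𝒰} ∨
      ∃ (z : T) (𝒰' 𝒱' : Set (Set T)),
        {L : LinOrd T | below x L ∈ 𝒰} = {L | below z L ∈ 𝒰'} ∧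
        {L : LinOrd T | below y L ∈ 𝒱} = {L | below z L ∈ 𝒱'} ∧ Crit z 𝒰' 𝒱' := by
  constructor
  · intro h
    by_cases hxy : x = y
    · subst hxy
      exact Or.inr (Or.inr ⟨x, 𝒰, 𝒱, rfl, rfl, (star x 𝒰 𝒱).1 h⟩)
    · rcases cross_star hxy h with h1 | h1 | ⟨z, 𝒰', 𝒱', h1, h2⟩
      · exact Or.inl h1
      · exact Or.inr (Or.inl h1)
      · rw [h1, h2] at h
        exact Or.inr (Or.inr ⟨z, 𝒰', 𝒱', h1, h2, (star z 𝒰' 𝒱').1 h⟩)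
  · rintro (h1 | h1 | ⟨z, 𝒰', 𝒱', h1, h2, h3⟩)
    · exact univCorr_of_subset h1
    · exact (univCorr_of_subset h1).symm
    · rw [h1, h2]
      exact (star z 𝒰' 𝒱').2 h3

end Pool.Agent.H59.ST
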